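import Pool.Agent.Helper34.LC.Defs

/-!
L-SHAPED CORRIDOR, algebraic part: facts about `chiM`.
-/

set_option linter.unusedSectionVars false

namespace LCA
open Finset Polynomial IP.Slit

variable {K : Type*} [Field K] [CharZero K]

/-! ### lists, symmetry -/

theorem chiL_swap (pre l : List K) (a b : K) :
    chiL (pre ++ b :: a :: l) = chiL (pre ++ a :: b :: l) := by
  unfold chiL
  have hlen : (pre ++ b :: a :: l).length = (pre ++ a :: b :: l).length := by simp
  rw [hlen]
  rw [← Chi_swap (r := (pre ++ a :: b :: l).length) (i := pre.length) (by simp)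
    (fun i => (pre ++ a :: b :: l).getD i 0)]
  congr 1
  funext j
  rcases lt_trichotomy j pre.length with h | h | h
  · rw [Equiv.swap_apply_of_ne_of_ne (by omega) (by omega), List.getD_append _ _ _ _ h,
      List.getD_append _ _ _ _ h]
  · subst h
    rw [Equiv.swap_apply_left, List.getD_append_right _ _ _ _ le_rfl,
      List.getD_append_right _ _ _ _ (by omega)]
    simp
  · by_cases h' : j = pre.length + 1
    · subst h'
      rw [Equiv.swap_apply_right, List.getD_append_right _ _ _ _ (by omega),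
        List.getD_append_right _ _ _ _ le_rfl]
      simp
    · rw [Equiv.swap_apply_of_ne_of_ne (by omega) h',
        List.getD_append_right _ _ _ _ (by omega), List.getD_append_right _ _ _ _ (by omega)]
      obtain ⟨s, rfl⟩ : ∃ s, j = pre.length + (s + 2) := ⟨j - pre.length - 2, by omega⟩
      simp

theorem chiL_perm_aux {l l' : List K} (h : l.Perm l') :
    ∀ pre : List K, chiL (pre ++ l) = chiL (pre ++ l') := by
  induction h with
  | nil => intro pre; rfl
  | cons a h ih =>
    intro pre
    have := ih (pre ++ [a])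
    simpa using this
  | swap a b l => intro pre; exact chiL_swap pre l a b
  | trans h1 h2 ih1 ih2 => intro pre; exact (ih1 pre).trans (ih2 pre)

theorem chiL_perm {l l' : List K} (h : l.Perm l') : chiL l = chiL l' := by
  simpa using chiL_perm_aux h []

theorem chiM_coe (l : List K) : chiM (l : Multiset K) = chiL l :=
  chiL_perm (Multiset.coe_eq_coe.mp (Multiset.coe_toList _))

theorem chiM_map_range (n : ℕ) (x : ℕ → K) : chiM ((Multiset.range n).map x) = Chi n x := by
  rw [show (Multiset.range n).map x = (((List.range n).map x : List K) : Multiset K) from rfl,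
    chiM_coe, chiL, List.length_map, List.length_range]
  apply Chi_congr
  intro i hi
  rw [List.getD_eq_getElem _ _ (by simpa using hi)]
  simp

/-- enumeration of a multiset -/
theorem exists_enum (s : Multiset K) : ∃ x : ℕ → K, s = (Multiset.range (Multiset.card s)).map x := by
  induction s using Quotient.inductionOn with
  | _ l =>
    refine ⟨fun i => l.getD i 0, ?_⟩
    change (l : Multiset K) = (((List.range l.length).map fun i => l.getD i 0 : List K) : Multiset K)
    congr 1
    apply List.ext_getElem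
    · simp
    · intro i h1 h2
      simp [h1]

theorem chiM_zero : chiM (0 : Multiset K) = 1 := by
  have := chiM_map_range 0 (fun _ => (0 : K))
  simp only [Multiset.range_zero, Multiset.map_zero] at this
  rw [this, Chi_zero]

/-- append one entry at the end -/
theorem map_range_update (n : ℕ) (x : ℕ → K) (v : K) :
    v ::ₘ (Multiset.range n).map x = (Multiset.range (n + 1)).map (Function.update x n v) := by
  rw [Multiset.range_succ, Multiset.map_cons, Function.update_self]
  congr 1
  apply Multiset.map_congr rfl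
  intro i hi
  rw [Multiset.mem_range] at hi
  rw [Function.update_of_ne (by omega)]

theorem prod_map_range (n : ℕ) (x : ℕ → K) (f : K → K) :
    (((Multiset.range n).map x).map f).prod = ∏ i ∈ range n, f (x i) := by
  rw [Multiset.map_map]
  rfl

/-! ### the wheel recursion -/

theorem chiM_wheel (p q : K) (h : qq p q = 0) (s : Multiset K) :
    chiM (p ::ₘ q ::ₘ s) = (s.map (fun z => z + p + q)).prod * chiM s := by
  obtain ⟨x, hx⟩ := exists_enum s
  set n := Multiset.card s with hn
  set y : ℕ → K := fun i => if i = 0 then p else if i = 1 then q else x (i - 2) with hy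
  have e1 : p ::ₘ q ::ₘ s = (Multiset.range (n + 2)).map y := by
    rw [hx]
    have : Multiset.range (n + 2) = 0 ::ₘ 1 ::ₘ (Multiset.range n).map (fun i => i + 2) := by
      change ((List.range (n + 2) : List ℕ) : Multiset ℕ) = _
      rw [List.range_succ_eq_map, List.range_succ_eq_map]
      simp only [List.map_cons, List.map_map]
      rfl
    rw [this, Multiset.map_cons, Multiset.map_cons, Multiset.map_map]
    simp [hy]
  have e2 := wh_Chi n y (by simpa [hy] using h)
  rw [e1, chiM_map_range, e2]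
  have e3 : (fun i => y (i + 2)) = x := by
    funext i
    simp [hy]
  rw [e3, hx, chiM_map_range, prod_map_range]
  simp [hy]

/-- the wheel recursion in terms of the third partner -/
theorem chiM_wheel' {b p q : K} (h : Par b p q) (s : Multiset K) :
    chiM (b ::ₘ p ::ₘ s) = (s.map (fun z => z - q)).prod * chiM s := by
  have h1 : qq b p = 0 := by
    unfold qq
    have h2 : q = -b - p := by linear_combination h.1
    have h3 := h.2
    rw [h2] at h3
    linear_combination -h3
  rw [chiM_wheel b p h1]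
  congr 2
  apply Multiset.map_congr rfl
  intro z _
  linear_combination h.1

/-! ### the module -/

/-- `span (φ_0, ..., φ_(n-1))` -/
noncomputable def Vm (K : Type*) [Field K] (n : ℕ) : Submodule K K[X] :=
  Submodule.span K (Set.range fun j : Fin n => ph K j)

omit [CharZero K] in
theorem ph_mem {n j : ℕ} (h : j < n) : ph K j ∈ Vm K n :=
  Submodule.subset_span ⟨⟨j, h⟩, rfl⟩

omit [CharZero K] in
theorem Vm_mono {n n' : ℕ} (h : n ≤ n') : Vm K n ≤ Vm K n' := by
  apply Submodule.span_le.mpr
  rintro _ ⟨j, rfl⟩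
  exact ph_mem (by omega)

omit [CharZero K] in
theorem sum_mem_Vm (n : ℕ) (a : ℕ → K) : ∑ j ∈ range n, C (a j) * ph K j ∈ Vm K n := by
  apply Submodule.sum_mem
  intro j hj
  rw [C_mul']
  exact Submodule.smul_mem _ _ (ph_mem (mem_range.mp hj))

omit [CharZero K] in
theorem mem_Vm {n : ℕ} {f : K[X]} (h : f ∈ Vm K n) : ∃ a : Fin n → K, f = ∑ j, C (a j) * ph K j := by
  unfold Vm at h
  rw [Submodule.mem_span_range_iff_exists_fun] at h
  obtain ⟨a, ha⟩ := h
  refine ⟨a, ?_⟩
  rw [← ha]
  simp [C_mul']

/-- `chiM (y ::ₘ s)` as a polynomial in `y` -/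
theorem exists_poly (s : Multiset K) : ∃ P : K[X], (∀ y, P.eval y = chiM (y ::ₘ s)) ∧
    P.natDegree ≤ Multiset.card s / 2 ∧ P.coeff (Multiset.card s / 2) = chiM s ∧
    P * (s.map (fun z => X - C z)).prod - C (chiM s) * ph K (Multiset.card s) ∈
      Vm K (Multiset.card s) := by
  obtain ⟨x, hx⟩ := exists_enum s
  set n := Multiset.card s with hn
  obtain ⟨P, hP1, hP2, hP3⟩ := Chi_lead n x
  have hs : chiM s = Chi n x := by rw [hx, chiM_map_range]
  refine ⟨P, fun y => ?_, hP1, hP2.trans hs.symm, ?_⟩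
  · rw [hx, map_range_update, chiM_map_range, hP3]
  · have e1 : (s.map (fun z => X - C z)).prod = ∏ i ∈ range n, (X - C (x i)) := by
      rw [hx, Multiset.map_map]
      rfl
    have e2 : P * ∏ i ∈ range n, (X - C (x i)) = ∑ j ∈ range (n + 1), C (ka n x j) * ph K j := by
      apply Polynomial.funext
      intro y
      rw [eval_mul, ← hP3, eval_finsetSum, eval_prod]
      simp only [eval_sub, eval_X, eval_C, eval_mul]
      exact Chi_span n x y
    rw [e1, e2, sum_range_succ, ka_top, hs, add_sub_cancel_right]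
    exact sum_mem_Vm n _

/-! ### divided differences of multiples -/

omit [CharZero K] in
theorem dd_mul_prod (x : ℕ → K) (g : K[X]) (n : ℕ) : ∀ i ≤ n,
    dd x ((∏ s ∈ range n, (X - C (x s))) * g) i = (∏ s ∈ Ico i n, (X - C (x s))) * g := by
  intro i
  induction i with
  | zero => intro _; simp [dd]
  | succ i ih =>
    intro hi
    change dq (dd x _ i) (x i) = _
    rw [ih (by omega), Finset.prod_eq_prod_Ico_succ_bot (by omega), mul_assoc, wh_dq_mul]

omit [CharZero K] in
theorem dq_sum {ι : Type*} (t : Finset ι) (F : ι → K[X]) (a : K) :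
    dq (∑ j ∈ t, F j) a = ∑ j ∈ t, dq (F j) a := by
  classical
  induction t using Finset.induction_on with
  | empty => simp [chiA_dq_zero]
  | insert b s hb ih => rw [sum_insert hb, sum_insert hb, wh_dq_add, ih]

omit [CharZero K] in
theorem dd_sum {ι : Type*} (x : ℕ → K) (t : Finset ι) (F : ι → K[X]) (i : ℕ) :
    dd x (∑ j ∈ t, F j) i = ∑ j ∈ t, dd x (F j) i := by
  induction i with
  | zero => rfl
  | succ i ih =>
    change dq (dd x _ i) (x i) = ∑ j ∈ t, dq (dd x (F j) i) (x i)
    rw [ih, dq_sum]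

/-- an element of `Vm n` which vanishes at `n` points with `chi ≠ 0` is zero -/
theorem eq_zero_of_dvd {s : Multiset K} (hs : chiM s ≠ 0) {f : K[X]}
    (hf : f ∈ Vm K (Multiset.card s)) (hd : (s.map (fun z => X - C z)).prod ∣ f) : f = 0 := by
  obtain ⟨x, hx⟩ := exists_enum s
  set n := Multiset.card s with hn
  obtain ⟨a, ha⟩ := mem_Vm hf
  have e1 : (s.map (fun z => X - C z)).prod = ∏ i ∈ range n, (X - C (x i)) := by
    rw [hx, Multiset.map_map]
    rfl
  rw [e1] at hd
  obtain ⟨g, hg⟩ := hd
  have e2 : chiM s = Chi n x := by rw [hx, chiM_map_range]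
  rw [e2] at hs
  unfold Chi at hs
  have e3 : (Matrix.of fun i j : Fin n => (dd x (ph K j) i).eval (x i)).mulVec a = 0 := by
    funext i
    have h1 : (dd x f i).eval (x i) = 0 := by
      rw [hg, dd_mul_prod x g n i (by omega), eval_mul, eval_prod,
        Finset.prod_eq_zero (i := (i : ℕ)) (by simp) (by simp), zero_mul]
    rw [ha, dd_sum, eval_finsetSum] at h1
    simp only [wh_dd_Cmul, eval_mul, eval_C] at h1
    rw [Pi.zero_apply, ← h1, Matrix.mulVec, dotProduct]
    refine sum_congr rfl fun j _ => ?_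
    rw [Matrix.of_apply, mul_comm]
  have e4 := Matrix.eq_zero_of_mulVec_eq_zero hs e3
  rw [ha, e4]
  simp

/-! ### the elements of the module which are used -/

/-- `c = X^3 - 3X` -/
noncomputable def cP (K : Type*) [Field K] : K[X] := X ^ 3 - C 3 * X

theorem c_mul_ph (j : ℕ) : cP K * ph K j = ph K (j + 2) := (wh_ph j).symm

theorem c_mul_mem {n : ℕ} {f : K[X]} (h : f ∈ Vm K n) : cP K * f ∈ Vm K (n + 2) := by
  unfold Vm at h
  induction h using Submodule.span_induction with
  | mem x hx =>
    obtain ⟨j, rfl⟩ := hx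
    change cP K * ph K j ∈ _
    rw [c_mul_ph]
    exact ph_mem (by omega)
  | zero => rw [mul_zero]; exact Submodule.zero_mem _
  | add x y _ _ hx hy => rw [mul_add]; exact Submodule.add_mem _ hx hy
  | smul a x _ hx => rw [mul_smul_comm]; exact Submodule.smul_mem _ _ hx

variable [DecidableEq K]

/-- even part: span of the powers of `c` -/
noncomputable def Em (K : Type*) [Field K] (n : ℕ) : Submodule K K[X] :=
  Submodule.span K (Set.range fun j : Fin n => ph K (2 * j))

theorem Em_le (n : ℕ) : Em K n ≤ Vm K (2 * n) := by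
  apply Submodule.span_le.mpr
  rintro _ ⟨j, rfl⟩
  exact ph_mem (by omega)

theorem Em_le' (n : ℕ) : Em K (n + 1) ≤ Vm K (2 * n + 1) := by
  apply Submodule.span_le.mpr
  rintro _ ⟨j, rfl⟩
  exact ph_mem (by omega)

theorem ph_even_mem {n j : ℕ} (h : j < n) : ph K (2 * j) ∈ Em K n :=
  Submodule.subset_span ⟨⟨j, h⟩, rfl⟩

theorem Em_mono {n n' : ℕ} (h : n ≤ n') : Em K n ≤ Em K n' := by
  apply Submodule.span_le.mpr
  rintro _ ⟨j, rfl⟩
  exact ph_even_mem (by omega)

theorem c_mul_memE {n : ℕ} {f : K[X]} (h : f ∈ Em K n) : cP K * f ∈ Em K (n + 1) := by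
  unfold Em at h
  induction h using Submodule.span_induction with
  | mem x hx =>
    obtain ⟨j, rfl⟩ := hx
    change cP K * ph K (2 * j) ∈ _
    rw [c_mul_ph, show 2 * (j : ℕ) + 2 = 2 * ((j : ℕ) + 1) by ring]
    exact ph_even_mem (by omega)
  | zero => rw [mul_zero]; exact Submodule.zero_mem _
  | add x y _ _ hx hy => rw [mul_add]; exact Submodule.add_mem _ hx hy
  | smul a x _ hx => rw [mul_smul_comm]; exact Submodule.smul_mem _ _ hx

theorem ph_succ_even (l : ℕ) : X * ph K (2 * l) = ph K (2 * l + 1) := by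
  unfold ph
  rw [show 2 * l / 2 = l by omega, show 2 * l % 2 = 0 by omega, show (2 * l + 1) / 2 = l by omega,
    show (2 * l + 1) % 2 = 1 by omega]
  ring

theorem X_mul_memE {n : ℕ} {f : K[X]} (h : f ∈ Em K n) : X * f ∈ Vm K (2 * n) := by
  unfold Em at h
  induction h using Submodule.span_induction with
  | mem x hx =>
    obtain ⟨j, rfl⟩ := hx
    change X * ph K (2 * j) ∈ _
    rw [ph_succ_even]
    exact ph_mem (by omega)
  | zero => rw [mul_zero]; exact Submodule.zero_mem _
  | add x y _ _ hx hy => rw [mul_add]; exact Submodule.add_mem _ hx hy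
  | smul a x _ hx => rw [mul_smul_comm]; exact Submodule.smul_mem _ _ hx

/-- `c(X) - c(b)` -/
noncomputable def cb (b : K) : K[X] := cP K - C (b ^ 3 - 3 * b)

/-- `qq(b, X)` -/
noncomputable def qP (b : K) : K[X] := C (b ^ 2) + C b * X + X ^ 2 - C 3

theorem qP_eval (b x : K) : (qP b).eval x = qq b x := by
  simp [qP, qq]

theorem cb_eq (b : K) : (X - C b) * qP b = cb b := by
  unfold cb cP qP
  simp only [C_sub, C_mul, C_pow]
  ring

/-- `∏ (c(X) - c(b)) = c^m + lower` -/
theorem prod_cb_mem (B : Finset K) : (∏ b ∈ B, cb b) - ph K (2 * B.card) ∈ Em K B.card := by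
  induction B using Finset.induction_on with
  | empty =>
    rw [prod_empty, card_empty, mul_zero, chiA_ph0, sub_self]
    exact Submodule.zero_mem _
  | insert b s hb ih =>
    rw [prod_insert hb, card_insert_of_notMem hb]
    have e : cb b * ∏ x ∈ s, cb x - ph K (2 * (s.card + 1)) =
        cP K * ((∏ x ∈ s, cb x) - ph K (2 * s.card)) -
          (b ^ 3 - 3 * b) • (((∏ x ∈ s, cb x) - ph K (2 * s.card)) + ph K (2 * s.card)) := by
      rw [show 2 * (s.card + 1) = 2 * s.card + 2 by ring, ← c_mul_ph, ← C_mul']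
      unfold cb
      ring
    rw [e]
    apply Submodule.sub_mem
    · exact c_mul_memE ih
    · apply Submodule.smul_mem
      apply Submodule.add_mem
      · exact Em_mono (by omega) ih
      · exact ph_even_mem (by omega)

theorem prod_cb_mem' (B : Finset K) : (∏ b ∈ B, cb b) ∈ Em K (B.card + 1) := by
  have h1 := Em_mono (Nat.le_succ B.card) (prod_cb_mem B)
  have h2 : ph K (2 * B.card) ∈ Em K (B.card + 1) := ph_even_mem (by omega)
  have := Submodule.add_mem _ h1 h2
  simpa using this

/-! ### the confluent expansion -/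

theorem card_two (B : Finset K) : Multiset.card (B.val + B.val) = 2 * B.card := by
  rw [Multiset.card_add, Finset.card_val]; ring

theorem card_erase_two {B : Finset K} {b : K} (hb : b ∈ B) :
    Multiset.card (B.val + (B.erase b).val) + 1 = 2 * B.card := by
  rw [Multiset.card_add, Finset.card_val, Finset.card_val, Finset.card_erase_of_mem hb]
  have := Finset.card_pos.mpr ⟨b, hb⟩
  omega

theorem prod_two (B : Finset K) : ((B.val + B.val).map (fun z => X - C z)).prod =
    (∏ b ∈ B, (X - C b)) * ∏ b ∈ B, (X - C b) := by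
  rw [Multiset.map_add, Multiset.prod_add]; rfl

theorem prod_two' (B : Finset K) (b : K) : ((B.val + (B.erase b).val).map (fun z => X - C z)).prod =
    (∏ b ∈ B, (X - C b)) * ∏ i ∈ B.erase b, (X - C i) := by
  rw [Multiset.map_add, Multiset.prod_add]; rfl

theorem prod_dvd_of_eval {B : Finset K} {h : K[X]} (H : ∀ b ∈ B, h.eval b = 0) :
    (∏ b ∈ B, (X - C b)) ∣ h := by
  apply Finset.prod_dvd_of_coprime
  · intro i _ j _ hij
    exact Polynomial.isCoprime_X_sub_C_of_isUnit_sub (sub_ne_zero.mpr hij).isUnit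
  · intro b hb
    exact dvd_iff_isRoot.mpr (H b hb)

/-- **the confluent expansion** -/
theorem confluent {B : Finset K} (hB : chiM (B.val + B.val) ≠ 0) {κ : K} {f1 : K[X]}
    (hf : f1 * ∏ b ∈ B, (X - C b) - C κ * ph K (2 * B.card) ∈ Vm K (2 * B.card)) {v : K}
    (hv : v ∉ B) :
    κ * nu B v = ∑ b ∈ B, f1.eval b / ((∏ i ∈ B.erase b, (b - i)) * (b - v)) *
        chiM (B.val + (B.erase b).val + {v}) +
      f1.eval v / (∏ i ∈ B, (v - i)) * chiM (B.val + B.val) := by
  classical
  obtain ⟨P, hP1, -, -, hP4⟩ := exists_poly (B.val + B.val)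
  have hQ : ∀ b : K, ∃ Q : K[X], (∀ y, Q.eval y = chiM (y ::ₘ (B.val + (B.erase b).val))) ∧
      (b ∈ B → Q * ((∏ i ∈ B, (X - C i)) * ∏ i ∈ B.erase b, (X - C i)) ∈ Vm K (2 * B.card)) := by
    intro b
    obtain ⟨Q, hQ1, -, -, hQ4⟩ := exists_poly (B.val + (B.erase b).val)
    refine ⟨Q, hQ1, fun hb => ?_⟩
    have hc := card_erase_two hb
    rw [prod_two'] at hQ4
    have h1 := Vm_mono (show Multiset.card (B.val + (B.erase b).val) ≤ 2 * B.card by omega) hQ4
    have h2 : C (chiM (B.val + (B.erase b).val)) * ph K (Multiset.card (B.val + (B.erase b).val)) ∈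
        Vm K (2 * B.card) := by
      rw [C_mul']
      exact Submodule.smul_mem _ _ (ph_mem (by omega))
    have := Submodule.add_mem _ h1 h2
    simpa using this
  choose Q hQ1 hQ2 using hQ
  rw [prod_two, card_two] at hP4
  set Pr : K[X] := ∏ b ∈ B, (X - C b) with hPr
  set χ := chiM (B.val + B.val) with hχ
  set w : K → K := fun b => f1.eval b / ∏ i ∈ B.erase b, (b - i) with hw
  set h1 : K[X] := C χ * f1 - C κ * P * Pr - ∑ b ∈ B, C (w b) * Q b * ∏ i ∈ B.erase b, (X - C i) with hh1
  have hne : ∀ b ∈ B, ∏ i ∈ B.erase b, (b - i) ≠ 0 := by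
    intro b _
    refine Finset.prod_ne_zero_iff.mpr fun i hi => sub_ne_zero.mpr ?_
    exact (Finset.ne_of_mem_erase hi).symm
  have hPb : ∀ b ∈ B, Pr.eval b = 0 := by
    intro b hb
    rw [hPr, eval_prod]
    exact Finset.prod_eq_zero hb (by simp)
  have hdiag : ∀ b ∈ B, chiM (b ::ₘ (B.val + (B.erase b).val)) = χ := by
    intro b hb
    rw [hχ]
    congr 1
    rw [← Multiset.add_cons]
    congr 1
    rw [Finset.erase_val]
    exact Multiset.cons_erase hb
  have heval : ∀ b ∈ B, h1.eval b = 0 := by
    intro b hb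
    rw [hh1]
    simp only [eval_sub, eval_mul, eval_C, eval_finsetSum, hPb b hb, mul_zero, sub_zero]
    rw [Finset.sum_eq_single b]
    · rw [hQ1, hdiag b hb, eval_prod]
      simp only [eval_sub, eval_X, eval_C, hw]
      field_simp [hne b hb]
      ring
    · intro i hi hib
      rw [eval_prod, Finset.prod_eq_zero (i := b) (Finset.mem_erase.mpr ⟨hib.symm, hb⟩) (by simp),
        mul_zero]
    · exact fun h => absurd hb h
  have hzero : Pr * h1 = 0 := by
    apply eq_zero_of_dvd hB
    · rw [card_two]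
      have e : Pr * h1 = (χ • (f1 * Pr - C κ * ph K (2 * B.card)) -
          κ • (P * (Pr * Pr) - C χ * ph K (2 * B.card))) -
          ∑ b ∈ B, w b • (Q b * (Pr * ∏ i ∈ B.erase b, (X - C i))) := by
        simp only [← C_mul']
        rw [hh1, mul_sub, mul_sub, Finset.mul_sum]
        congr 1
        · ring
        · exact Finset.sum_congr rfl fun b _ => by ring
      rw [e]
      apply Submodule.sub_mem
      · exact Submodule.sub_mem _ (Submodule.smul_mem _ _ hf) (Submodule.smul_mem _ _ hP4)
      · exact Submodule.sum_mem _ fun b hb => Submodule.smul_mem _ _ (hQ2 b hb)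
    · rw [prod_two]
      exact mul_dvd_mul_left _ (prod_dvd_of_eval heval)
  have hP0 : Pr ≠ 0 := Finset.prod_ne_zero_iff.mpr fun b _ => X_sub_C_ne_zero b
  have hh0 : h1 = 0 := by
    rcases mul_eq_zero.mp hzero with h | h
    · exact absurd h hP0
    · exact h
  have hv1 := congrArg (eval v) hh0
  rw [hh1] at hv1
  simp only [eval_sub, eval_mul, eval_C, eval_finsetSum, eval_zero, hP1, hQ1] at hv1
  have hPv : Pr.eval v = ∏ i ∈ B, (v - i) := by
    rw [hPr, eval_prod]
    simp
  have hPv0 : (∏ i ∈ B, (v - i)) ≠ 0 := by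
    refine Finset.prod_ne_zero_iff.mpr fun i hi => sub_ne_zero.mpr ?_
    rintro rfl
    exact hv hi
  rw [hPv] at hv1
  have hnu : chiM (v ::ₘ (B.val + B.val)) = nu B v := by
    unfold nu
    congr 1
    rw [add_comm _ ({v} : Multiset K), Multiset.singleton_add]
  rw [hnu] at hv1
  have hterm : ∀ b ∈ B, w b * chiM (v ::ₘ (B.val + (B.erase b).val)) *
      eval v (∏ i ∈ B.erase b, (X - C i)) =
      -(∏ i ∈ B, (v - i)) * (f1.eval b / ((∏ i ∈ B.erase b, (b - i)) * (b - v)) *
        chiM (B.val + (B.erase b).val + {v})) := by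
    intro b hb
    have e1 : v ::ₘ (B.val + (B.erase b).val) = B.val + (B.erase b).val + {v} := by
      rw [add_comm _ ({v} : Multiset K), Multiset.singleton_add]
    have e2 : (∏ i ∈ B, (v - i)) = (v - b) * ∏ i ∈ B.erase b, (v - i) :=
      (Finset.mul_prod_erase B (fun i => v - i) hb).symm
    have e3 : b - v ≠ 0 := by
      rw [sub_ne_zero]; rintro rfl; exact hv hb
    rw [e1, e2, eval_prod]
    simp only [eval_sub, eval_X, eval_C, hw]
    field_simp [hne b hb]
    ring
  rw [Finset.sum_congr rfl hterm, ← Finset.mul_sum] at hv1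
  generalize (∑ b ∈ B, f1.eval b / ((∏ i ∈ B.erase b, (b - i)) * (b - v)) *
        chiM (B.val + (B.erase b).val + {v})) = S0 at hv1 ⊢
  rw [div_mul_eq_mul_div, ← sub_eq_zero]
  have h5 : κ * nu B v - (S0 + f1.eval v * χ / ∏ i ∈ B, (v - i)) =
      -(χ * f1.eval v - κ * nu B v * ∏ i ∈ B, (v - i) - (-∏ i ∈ B, (v - i)) * S0) /
        ∏ i ∈ B, (v - i) := by
    field_simp
    ring
  rw [h5, hv1]
  simp

/-- (SR) -/
theorem SR {B : Finset K} (hB : chiM (B.val + B.val) ≠ 0) {v : K} (hv : v ∉ B) :
    l0 B v + ∑ b ∈ B, al B v b / (b - v) = nu B v := by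
  have hf : (∏ i ∈ B, qP i) * ∏ b ∈ B, (X - C b) - C 1 * ph K (2 * B.card) ∈ Vm K (2 * B.card) := by
    rw [C_1, one_mul, ← Finset.prod_mul_distrib]
    have e : ∏ i ∈ B, (qP i * (X - C i)) = ∏ i ∈ B, cb i :=
      Finset.prod_congr rfl fun i _ => by rw [mul_comm, cb_eq]
    rw [e]
    exact Em_le _ (prod_cb_mem B)
  have h := confluent hB hf hv
  rw [one_mul] at h
  rw [h, add_comm]
  congr 1
  · refine Finset.sum_congr rfl fun b hb => ?_
    have e : (∏ i ∈ B, qP i).eval b = (3 * b ^ 2 - 3) * ∏ i ∈ B.erase b, qq i b := by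
      rw [eval_prod, ← Finset.mul_prod_erase B _ hb, qP_eval]
      congr 1
      · unfold qq; ring
      · exact Finset.prod_congr rfl fun i _ => qP_eval i b
    rw [e]
    unfold al
    rw [Finset.prod_div_distrib]
    have e3 : b - v ≠ 0 := by
      rw [sub_ne_zero]; rintro rfl; exact hv hb
    have e4 : ∏ i ∈ B.erase b, (b - i) ≠ 0 := by
      refine Finset.prod_ne_zero_iff.mpr fun i hi => sub_ne_zero.mpr ?_
      exact (Finset.ne_of_mem_erase hi).symm
    field_simp
  · unfold l0
    rw [Finset.prod_div_distrib, eval_prod]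
    simp only [qP_eval]

/-- (GG): `G(b+) = G(b-)` -/
theorem GG {B : Finset K} (hB : chiM (B.val + B.val) ≠ 0) {v b : K} (hv : v ∉ B) (hb : b ∈ B)
    (hq : ∀ j ∈ B, qq b j ≠ 0) (hqv : qq b v ≠ 0) :
    ∑ j ∈ B, al B v j / ((j - v) * qq b j) + l0 B v / qq b v = 0 := by
  have hf : (∏ i ∈ B.erase b, qP i) * ∏ i ∈ B, (X - C i) - C 0 * ph K (2 * B.card) ∈
      Vm K (2 * B.card) := by
    rw [C_0, zero_mul, sub_zero, ← Finset.mul_prod_erase B _ hb]
    have e : (∏ i ∈ B.erase b, qP i) * ((X - C b) * ∏ i ∈ B.erase b, (X - C i)) =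
        X * (∏ i ∈ B.erase b, cb i) - b • (∏ i ∈ B.erase b, cb i) := by
      have e1 : (∏ i ∈ B.erase b, cb i) = (∏ i ∈ B.erase b, (X - C i)) * ∏ i ∈ B.erase b, qP i := by
        rw [← Finset.prod_mul_distrib]
        exact Finset.prod_congr rfl fun i _ => (cb_eq i).symm
      rw [e1, ← C_mul']
      ring
    rw [e]
    have h1 := prod_cb_mem' (B.erase b)
    have h2 : (B.erase b).card + 1 = B.card := Finset.card_erase_add_one hb
    rw [h2] at h1
    exact Submodule.sub_mem _ (X_mul_memE h1) (Submodule.smul_mem _ _ (Em_le _ h1))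
  have h := confluent hB hf hv
  rw [zero_mul] at h
  rw [h]
  congr 1
  · refine Finset.sum_congr rfl fun j hj => ?_
    have e : (∏ i ∈ B.erase b, qP i).eval j * qq b j =
        (3 * j ^ 2 - 3) * ∏ i ∈ B.erase j, qq i j := by
      have e1 : (∏ i ∈ B.erase b, qP i).eval j * qq b j = ∏ i ∈ B, qq i j := by
        rw [eval_prod, ← Finset.mul_prod_erase B (fun i => qq i j) hb, mul_comm]
        congr 1
        exact Finset.prod_congr rfl fun i _ => qP_eval i j
      rw [e1, ← Finset.mul_prod_erase B (fun i => qq i j) hj]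
      congr 1
      unfold qq; ring
    have e3 : j - v ≠ 0 := by
      rw [sub_ne_zero]; rintro rfl; exact hv hj
    have e4 : ∏ i ∈ B.erase j, (j - i) ≠ 0 := by
      refine Finset.prod_ne_zero_iff.mpr fun i hi => sub_ne_zero.mpr ?_
      exact (Finset.ne_of_mem_erase hi).symm
    have e5 := hq j hj
    unfold al
    rw [Finset.prod_div_distrib]
    rw [← mul_div_assoc, ← e]
    field_simp
  · unfold l0
    rw [Finset.prod_div_distrib, eval_prod, ← Finset.mul_prod_erase B (fun i => qq i v) hb]
    have e6 : ∏ i ∈ B.erase b, eval v (qP i) = ∏ i ∈ B.erase b, qq i v :=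
      Finset.prod_congr rfl fun i _ => qP_eval i v
    have e4 : ∏ i ∈ B, (v - i) ≠ 0 := by
      refine Finset.prod_ne_zero_iff.mpr fun i hi => sub_ne_zero.mpr ?_
      rintro rfl; exact hv hi
    rw [e6]
    field_simp

end LCA
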