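import Pool.Agent.Helper34.LC.KPrime
import Pool.Agent.Helper60.Slit.ZChi

/-!
L-SHAPED CORRIDOR, algebraic part: uniqueness.
-/

set_option linter.unusedSectionVars false

namespace LCA
open Finset Polynomial IP.Slit

/-! ### the partners of a real number -/

noncomputable def xp (b : ℝ) : ℝ := (-b + Real.sqrt (12 - 3 * b ^ 2)) / 2
noncomputable def xm (b : ℝ) : ℝ := (-b - Real.sqrt (12 - 3 * b ^ 2)) / 2

theorem par_xp {b : ℝ} (h : -2 ≤ b ∧ b ≤ 2) : Par b (xp b) (xm b) := by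
  have h1 : 0 ≤ 12 - 3 * b ^ 2 := by nlinarith [h.1, h.2]
  have h2 := Real.sq_sqrt h1
  unfold Par xp xm
  constructor
  · ring
  · linear_combination (-1 / 4) * h2

theorem xp_ne_xm {b : ℝ} (h : -2 < b ∧ b < 2) : xp b ≠ xm b := by
  have h1 : 0 < 12 - 3 * b ^ 2 := by nlinarith [h.1, h.2]
  have h2 := Real.sqrt_pos.mpr h1
  unfold xp xm
  intro h3
  linarith

theorem Par.mem_II {b p q : ℝ} (h : Par b p q) : p ∈ II ∧ q ∈ II := by
  have h1 : b ^ 2 + b * p + p ^ 2 = 3 := by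
    linear_combination p * h.1 - h.2
  have h2 : b ^ 2 + b * q + q ^ 2 = 3 := by
    linear_combination q * h.1 - h.2
  constructor
  · constructor <;> nlinarith [sq_nonneg (2 * b + p)]
  · constructor <;> nlinarith [sq_nonneg (2 * b + q)]

theorem Par.eq_of {b p q : ℝ} (h : Par b p q) {p' q' : ℝ} (h' : Par b p' q') : p' = p ∨ p' = q := by
  have h1 : (p' - p) * (p' - q) = 0 := by
    linear_combination p' * h'.1 - h'.2 - p' * h.1 + h.2
  rcases mul_eq_zero.mp h1 with h2 | h2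
  · exact Or.inl (sub_eq_zero.mp h2)
  · exact Or.inr (sub_eq_zero.mp h2)

/-- the four facts on a class `D` of pairs of sets -/
structure AmpOn (D : Finset ℝ → Finset ℝ → Prop) (A : Finset ℝ → ℝ → Finset ℝ → ℝ → ℝ) : Prop where
  zero : ∀ Y : Finset ℝ, D ∅ Y → ∀ v ∈ II, ∀ a ∈ II, A ∅ v Y a = 0
  polyV : ∀ B Y, D B Y → ∀ a ∈ II, ∃ P : ℝ[X], P.natDegree ≤ B.card ∧ ∀ v ∈ II, A B v Y a = P.eval v
  polyA : ∀ B Y, D B Y → ∀ v ∈ II, ∃ P : ℝ[X], P.natDegree ≤ B.card + Y.card ∧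
    ∀ a ∈ II, A B v Y a = P.eval a
  r1 : ∀ B Y, D B Y → ∀ b ∈ B, ∀ p q, Par b p q → ∀ a ∈ II,
    (A B p Y a - wt b q (B.erase b) * (b - a) * A (B.erase b) b Y a) *
        ∏ z ∈ B.erase b, (z - p) ^ 2 =
      (A B q Y a - wt b p (B.erase b) * (b - a) * A (B.erase b) b Y a) *
        ∏ z ∈ B.erase b, (z - q) ^ 2
  nn : ∀ B Y, D B Y → ∀ y ∈ Y, ∀ p q, Par y p q → ∀ v ∈ II,
    (∏ j ∈ B, (j - y)) * A B v Y p =
      wt y q (Y.erase y) * (∏ j ∈ B, (j - p)) * A B v (Y.erase y) y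
  ss : ∀ B Y, D B Y → ∀ b ∈ B, ∀ p q, Par b p q →
    (∏ y ∈ Y, (y - b)) * (A B p Y p - nu B p * nu Y p * ∏ j ∈ B, (j - p)) =
      -(wt b q (B.erase b) * (∏ j ∈ B, (j - p)) * A Y p (B.erase b) b)

theorem Amp.on {A : Finset ℝ → ℝ → Finset ℝ → ℝ → ℝ} (hA : Amp A)
    {D : Finset ℝ → Finset ℝ → Prop} (hD : ∀ B Y, D B Y → Dom B Y) : AmpOn D A where
  zero := fun Y h => hA.zero Y (hD _ _ h)
  polyV := fun B Y h => hA.polyV B Y (hD _ _ h)
  polyA := fun B Y h => hA.polyA B Y (hD _ _ h)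
  r1 := fun B Y h => hA.r1 B Y (hD _ _ h)
  nn := fun B Y h => hA.nn B Y (hD _ _ h)
  ss := fun B Y h => hA.ss B Y (hD _ _ h)

/-- the classes on which the uniqueness proof works -/
structure Good (D : Finset ℝ → Finset ℝ → Prop) : Prop where
  dom : ∀ B Y, D B Y → Dom B Y
  eraseB : ∀ B Y, D B Y → ∀ b ∈ B, D (B.erase b) Y
  eraseY : ∀ B Y, D B Y → ∀ y ∈ Y, D B (Y.erase y)
  swap : ∀ B Y, D B Y → ∀ b ∈ B, D Y (B.erase b)
  inj : ∀ B Y, D B Y → ∀ i ∈ B ∪ Y, ∀ j ∈ B ∪ Y, cc i = cc j → i = j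
  chi : ∀ B Y, D B Y → ∀ S ⊆ B, chiM S.val ≠ 0

/-- **uniqueness** -/
theorem uniq_on {D : Finset ℝ → Finset ℝ → Prop} (hD : Good D)
    {A1 A2 : Finset ℝ → ℝ → Finset ℝ → ℝ → ℝ} (h1 : AmpOn D A1) (h2 : AmpOn D A2) :
    ∀ (n : ℕ) (B Y : Finset ℝ), B.card + Y.card = n → D B Y → ∀ v ∈ II, ∀ a ∈ II,
      A1 B v Y a = A2 B v Y a := by
  intro n
  induction n using Nat.strong_induction_on with
  | _ n ih =>
  intro B Y hn hBY v hv a ha
  rcases B.eq_empty_or_nonempty with hB | ⟨b₁, hb₁⟩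
  · subst hB
    rw [h1.zero Y hBY v hv a ha, h2.zero Y hBY v hv a ha]
  have hdom := hD.dom B Y hBY
  have hcard : ∀ b ∈ B, (B.erase b).card + Y.card < n := by
    intro b hb
    have := Finset.card_erase_lt_of_mem hb
    omega
  have hIIb : ∀ b ∈ B, b ∈ II := fun b hb => ⟨(hdom.1 b hb).1.le, (hdom.1 b hb).2.le⟩
  have hIIy : ∀ y ∈ Y, y ∈ II := fun y hy => ⟨(hdom.2.1 y hy).1.le, (hdom.2.1 y hy).2.le⟩
  have hparB : ∀ b ∈ B, Par b (xp b) (xm b) := fun b hb => par_xp (hIIb b hb)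
  have hparY : ∀ y ∈ Y, Par y (xp y) (xm y) := fun y hy => par_xp (hIIy y hy)
  -- the factorisation for fixed `a`
  have hfac : ∀ a ∈ II, ∃ κ : ℝ, ∀ v ∈ II, A1 B v Y a - A2 B v Y a = κ * chiM (v ::ₘ B.val) ^ 2 := by
    intro a ha
    obtain ⟨P1, hP1, hP1'⟩ := h1.polyV B Y hBY a ha
    obtain ⟨P2, hP2, hP2'⟩ := h2.polyV B Y hBY a ha
    obtain ⟨κ, hκ⟩ := kprime xp xm B hparB (fun b hb => xp_ne_xm (hdom.1 b hb))
      (fun i hi j hj => hD.inj B Y hBY i (Finset.mem_union_left _ hi) j (Finset.mem_union_left _ hj))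
      (hD.chi B Y hBY) (P1 - P2) ((natDegree_sub_le _ _).trans (max_le hP1 hP2)) (by
        intro b hb
        obtain ⟨hp, hq⟩ := (hparB b hb).mem_II
        have r1 := h1.r1 B Y hBY b hb _ _ (hparB b hb) a ha
        have r2 := h2.r1 B Y hBY b hb _ _ (hparB b hb) a ha
        have e := ih _ (hcard b hb) (B.erase b) Y rfl (hD.eraseB B Y hBY b hb) b (hIIb b hb) a ha
        rw [eval_sub, eval_sub, ← hP1' _ hp, ← hP2' _ hp, ← hP1' _ hq, ← hP2' _ hq]
        rw [e] at r1
        linear_combination r1 - r2)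
    refine ⟨κ, fun v hv => ?_⟩
    rw [hP1' v hv, hP2' v hv, ← eval_sub, hκ]
  choose! κ hκ using hfac
  -- the value at the partner of `b₁`
  set p₁ := xp b₁ with hp₁
  have hp₁II : p₁ ∈ II := (hparB b₁ hb₁).mem_II.1
  have hE1 : chiM (p₁ ::ₘ B.val) ≠ 0 := by
    rw [chi_partner hb₁ (hparB b₁ hb₁)]
    refine mul_ne_zero (Finset.prod_ne_zero_iff.mpr fun z hz => ?_)
      (hD.chi B Y hBY _ (Finset.erase_subset _ _))
    rw [sub_ne_zero]
    intro h
    have h3 : cc z = cc b₁ := by rw [h]; exact (hparB b₁ hb₁).cc_right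
    have h4 := hD.inj B Y hBY z (Finset.mem_union_left _ (Finset.mem_of_mem_erase hz)) b₁
      (Finset.mem_union_left _ hb₁) h3
    exact Finset.ne_of_mem_erase hz h4
  obtain ⟨Q1, hQ1, hQ1'⟩ := h1.polyA B Y hBY p₁ hp₁II
  obtain ⟨Q2, hQ2, hQ2'⟩ := h2.polyA B Y hBY p₁ hp₁II
  have hQdeg : (Q1 - Q2).natDegree ≤ n :=
    hn ▸ (natDegree_sub_le _ _).trans (max_le hQ1 hQ2)
  have hQeval : ∀ a ∈ II, (Q1 - Q2).eval a = A1 B p₁ Y a - A2 B p₁ Y a := by
    intro a ha
    rw [eval_sub, ← hQ1' a ha, ← hQ2' a ha]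
  -- zeros coming from `Y`
  have hzY : ∀ y ∈ Y, ∀ p q, Par y p q → (Q1 - Q2).eval p = 0 := by
    intro y hy p q hP
    have hp := hP.mem_II.1
    have n1 := h1.nn B Y hBY y hy p q hP p₁ hp₁II
    have n2 := h2.nn B Y hBY y hy p q hP p₁ hp₁II
    have hlt : B.card + (Y.erase y).card < n := by
      have := Finset.card_erase_lt_of_mem hy
      omega
    have e := ih _ hlt B (Y.erase y) rfl (hD.eraseY B Y hBY y hy) p₁ hp₁II y (hIIy y hy)
    have hne : ∏ j ∈ B, (j - y) ≠ 0 := by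
      refine Finset.prod_ne_zero_iff.mpr fun j hj => sub_ne_zero.mpr ?_
      rintro rfl
      exact Finset.disjoint_left.mp hdom.2.2 hj hy
    rw [hQeval p hp]
    apply mul_left_cancel₀ hne
    rw [mul_zero, mul_sub, n1, n2, e, sub_self]
  -- zeros coming from `B`
  have hzB : ∀ b ∈ B, ∀ p q, Par b p q → (Q1 - Q2).eval p = 0 := by
    intro b hb p q hP
    have hp := hP.mem_II.1
    have s1 := h1.ss B Y hBY b hb p q hP
    have s2 := h2.ss B Y hBY b hb p q hP
    have e := ih _ (by have := hcard b hb; omega) Y (B.erase b) rfl (hD.swap B Y hBY b hb) p hp b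
      (hIIb b hb)
    have hne : ∏ y ∈ Y, (y - b) ≠ 0 := by
      refine Finset.prod_ne_zero_iff.mpr fun j hj => sub_ne_zero.mpr ?_
      rintro rfl
      exact Finset.disjoint_left.mp hdom.2.2 hb hj
    have h3 : A1 B p Y p - A2 B p Y p = 0 := by
      apply mul_left_cancel₀ hne
      rw [e] at s1
      linear_combination s1 - s2
    rw [hκ p hp p hp] at h3
    have hEp : chiM (p ::ₘ B.val) ≠ 0 := by
      rw [chi_partner hb hP]
      refine mul_ne_zero (Finset.prod_ne_zero_iff.mpr fun z hz => ?_)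
        (hD.chi B Y hBY _ (Finset.erase_subset _ _))
      rw [sub_ne_zero]
      intro h
      have h3 : cc z = cc b := by rw [h]; exact hP.cc_right
      have h4 := hD.inj B Y hBY z (Finset.mem_union_left _ (Finset.mem_of_mem_erase hz)) b
        (Finset.mem_union_left _ hb) h3
      exact Finset.ne_of_mem_erase hz h4
    have hκ0 : κ p = 0 := by
      rcases mul_eq_zero.mp h3 with h | h
      · exact h
      · exact absurd (pow_eq_zero_iff (by norm_num) |>.mp h) hEp
    rw [hQeval p hp, hκ p hp p₁ hp₁II, hκ0, zero_mul]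
  -- `Q1 = Q2`
  have hQ : Q1 - Q2 = 0 := by
    have hz : ∀ u ∈ B ∪ Y, (Q1 - Q2).eval (xp u) = 0 ∧ (Q1 - Q2).eval (xm u) = 0 := by
      intro u hu
      rcases Finset.mem_union.mp hu with h | h
      · exact ⟨hzB u h _ _ (hparB u h), hzB u h _ _ (hparB u h).symm⟩
      · exact ⟨hzY u h _ _ (hparY u h), hzY u h _ _ (hparY u h).symm⟩
    have hparU : ∀ u ∈ B ∪ Y, Par u (xp u) (xm u) ∧ xp u ≠ xm u := by
      intro u hu
      rcases Finset.mem_union.mp hu with h | h
      · exact ⟨hparB u h, xp_ne_xm (hdom.1 u h)⟩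
      · exact ⟨hparY u h, xp_ne_xm (hdom.2.1 u h)⟩
    refine Polynomial.eq_zero_of_natDegree_lt_card_of_eval_eq_zero (Q1 - Q2)
      (f := fun x : {u // u ∈ B ∪ Y} × Bool => if x.2 then xp x.1 else xm x.1) ?_ ?_ ?_
    · rintro ⟨⟨u, hu⟩, s⟩ ⟨⟨u', hu'⟩, s'⟩ h
      dsimp only at h
      have hc : cc (if s = true then xp u else xm u) = cc u := by
        split_ifs
        · exact (hparU u hu).1.cc_left
        · exact (hparU u hu).1.cc_right
      have hc' : cc (if s' = true then xp u' else xm u') = cc u' := by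
        split_ifs
        · exact (hparU u' hu').1.cc_left
        · exact (hparU u' hu').1.cc_right
      have huu : u = u' := hD.inj B Y hBY u hu u' hu' (by rw [← hc, ← hc', h])
      subst huu
      have hss : s = s' := by
        rcases s with _ | _ <;> rcases s' with _ | _
        · rfl
        · exfalso; simp only [Bool.false_eq_true, if_false, if_true] at h
          exact (hparU u hu).2 h.symm
        · exfalso; simp only [Bool.false_eq_true, if_false, if_true] at h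
          exact (hparU u hu).2 h
        · rfl
      rw [hss]
    · rintro ⟨⟨u, hu⟩, s⟩
      dsimp only
      split_ifs
      · exact (hz u hu).1
      · exact (hz u hu).2
    · rw [Fintype.card_prod, Fintype.card_coe, Fintype.card_bool,
        Finset.card_union_of_disjoint hdom.2.2]
      have : 0 < B.card := Finset.card_pos.mpr ⟨b₁, hb₁⟩
      omega
  have h3 : A1 B p₁ Y a - A2 B p₁ Y a = 0 := by rw [← hQeval a ha, hQ, eval_zero]
  rw [hκ a ha p₁ hp₁II] at h3
  have hκ0 : κ a = 0 := by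
    rcases mul_eq_zero.mp h3 with h | h
    · exact h
    · exact absurd (pow_eq_zero_iff (by norm_num) |>.mp h) hE1
  have := hκ a ha v hv
  rw [hκ0, zero_mul] at this
  exact sub_eq_zero.mp this

/-! ### the neighbourhood of the homogeneous point -/

theorem Chi_two_pos (m : ℕ) : 0 < Chi m (fun _ => (2 : ℝ)) := by
  have h1 := IP.chi_tendsto m
  have h2 : Filter.Tendsto (fun t : ℝ => Chi m (xx (fun i => t * ((i : ℝ) + 1)))) (nhdsWithin 0 (Set.Ioi 0))
      (nhds (Chi m (fun _ => (2 : ℝ)))) := by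
    have hc : Continuous (fun t : ℝ => Chi m (xx (fun i => t * ((i : ℝ) + 1)))) := by
      apply (Chi_continuous_real m).comp
      apply continuous_pi
      intro i
      unfold xx
      fun_prop
    have := hc.tendsto 0
    have e : Chi m (xx (fun i => (0 : ℝ) * ((i : ℝ) + 1))) = Chi m (fun _ => (2 : ℝ)) := by
      congr 1
      funext i
      unfold xx
      simp
    rw [e] at this
    exact this.mono_left nhdsWithin_le_nhds
  have h3 : ∀ᶠ t in nhdsWithin (0 : ℝ) (Set.Ioi 0), IP.Dt m (fun i => t * ((i : ℝ) + 1)) /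
      IP.Dl m (fun i => t * ((i : ℝ) + 1)) = Chi m (xx (fun i => t * ((i : ℝ) + 1))) := by
    filter_upwards [IP.vb_Dl_ne m] with t ht
    rw [div_eq_iff ht, Dt_DD, Dl_VV, ← Chi_mul]
    ring
  have h4 := tendsto_nhds_unique (h1.congr' h3) h2
  rw [← h4]
  exact IP.cm_pos m

/-- `Chi (-x) = ± Chi x` -/
theorem dq_neg (f : ℝ[X]) (a : ℝ) : dq (f.comp (-X)) a = -(dq f (-a)).comp (-X) := by
  have h := wh_dq_spec f (-a)
  apply wh_dq_unique (c := f.eval (-a))
  have h2 := congrArg (fun g : ℝ[X] => g.comp (-X)) h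
  simp only [add_comp, mul_comp, sub_comp, X_comp, C_comp] at h2
  rw [h2]
  simp only [C_neg]
  ring

theorem dd_neg (x : ℕ → ℝ) (f : ℝ[X]) (i : ℕ) :
    dd x (f.comp (-X)) i = (-1) ^ i * (dd (fun j => -x j) f i).comp (-X) := by
  induction i with
  | zero => simp [dd]
  | succ i ih =>
    change dq (dd x _ i) (x i) = _ * (dq (dd (fun j => -x j) f i) (-x i)).comp (-X)
    rw [ih]
    have e : ((-1) ^ i * (dd (fun j => -x j) f i).comp (-X) : ℝ[X]) =
        C ((-1) ^ i) * (dd (fun j => -x j) f i).comp (-X) := by simp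
    rw [e, wh_dq_Cmul, dq_neg, pow_succ]
    simp only [C_pow, C_neg, C_1]
    ring

theorem ph_neg (j : ℕ) : (ph ℝ j).comp (-X) = (-1) ^ (j / 2 + j % 2) * ph ℝ j := by
  unfold ph
  simp only [mul_comp, pow_comp, sub_comp, X_comp, C_comp]
  have e : ((-X) ^ 3 - C 3 * -X : ℝ[X]) = (-1) * (X ^ 3 - C 3 * X) := by ring
  rw [e, mul_pow, neg_pow (X : ℝ[X]) (j % 2), pow_add]
  ring

theorem Chi_neg (r : ℕ) (x : ℕ → ℝ) : Chi r (fun i => -x i) = Chi r x ∨
    Chi r (fun i => -x i) = -Chi r x := by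
  have hentry : ∀ i j : ℕ, (dd (fun j => -x j) (ph ℝ j) i).eval (-x i) =
      (-1) ^ i * (-1) ^ (j / 2 + j % 2) * (dd x (ph ℝ j) i).eval (x i) := by
    intro i j
    have h1 := dd_neg (fun j => -x j) (ph ℝ j) i
    simp only [neg_neg] at h1
    have h2 : dd (fun j => -x j) ((ph ℝ j).comp (-X)) i =
        C ((-1) ^ (j / 2 + j % 2)) * dd (fun j => -x j) (ph ℝ j) i := by
      rw [ph_neg, show ((-1) ^ (j / 2 + j % 2) * ph ℝ j : ℝ[X]) =
        C ((-1) ^ (j / 2 + j % 2)) * ph ℝ j by simp, wh_dd_Cmul]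
    rw [h2] at h1
    have h3 := congrArg (eval (-x i)) h1
    simp only [eval_mul, eval_C, eval_comp, eval_neg, eval_X, neg_neg, eval_pow, eval_one] at h3
    have h4 : ((-1 : ℝ) ^ (j / 2 + j % 2)) * ((-1) ^ (j / 2 + j % 2)) = 1 := by
      rw [← mul_pow]; simp
    calc (dd (fun j => -x j) (ph ℝ j) i).eval (-x i)
        = ((-1 : ℝ) ^ (j / 2 + j % 2) * (-1) ^ (j / 2 + j % 2)) *
          (dd (fun j => -x j) (ph ℝ j) i).eval (-x i) := by rw [h4, one_mul]
      _ = (-1) ^ (j / 2 + j % 2) * ((-1) ^ (j / 2 + j % 2) *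
          (dd (fun j => -x j) (ph ℝ j) i).eval (-x i)) := by ring
      _ = _ := by rw [h3]; ring
  have h1 : (Matrix.of fun i j : Fin r => (dd (fun j => -x j) (ph ℝ j) i).eval (-x i)) =
      Matrix.of fun i j : Fin r => ((-1 : ℝ) ^ (i : ℕ)) *
        ((Matrix.of fun i j : Fin r => ((-1 : ℝ) ^ ((j : ℕ) / 2 + (j : ℕ) % 2)) *
          ((Matrix.of fun i j : Fin r => (dd x (ph ℝ j) i).eval (x i)) i j)) i j) := by
    ext i j
    simp only [Matrix.of_apply]
    rw [hentry]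
    ring
  have h2 : Chi r (fun i => -x i) = (∏ i : Fin r, (-1 : ℝ) ^ (i : ℕ)) *
      ((∏ j : Fin r, (-1 : ℝ) ^ ((j : ℕ) / 2 + (j : ℕ) % 2)) * Chi r x) := by
    unfold Chi
    rw [h1, Matrix.det_mul_column, Matrix.det_mul_row]
  rw [h2]
  have hs : ∀ (f : Fin r → ℕ), (∏ i : Fin r, (-1 : ℝ) ^ (f i)) = 1 ∨
      (∏ i : Fin r, (-1 : ℝ) ^ (f i)) = -1 := by
    intro f
    rw [Finset.prod_pow_eq_pow_sum]
    exact neg_one_pow_eq_or ℝ _
  rcases hs (fun i => (i : ℕ)) with h | h <;>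
    rcases hs (fun j => (j : ℕ) / 2 + (j : ℕ) % 2) with h' | h' <;>
    rw [h, h'] <;> simp

/-- `chi ≠ 0` near the homogeneous point -/
theorem chi_near (n : ℕ) : ∃ ε > 0, ∀ s : Multiset ℝ, Multiset.card s ≤ n →
    ((∀ x ∈ s, |x - 2| < ε) → chiM s ≠ 0) ∧ ((∀ x ∈ s, |x + 2| < ε) → chiM s ≠ 0) := by
  have h1 : ∀ r : ℕ, ∃ ε > 0, ∀ x : ℕ → ℝ, (∀ i < r, |x i - 2| < ε) → Chi r x ≠ 0 := by
    intro r
    set ext : (Fin r → ℝ) → ℕ → ℝ := fun x i => if h : i < r then x ⟨i, h⟩ else 2 with hext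
    have hc : Continuous ext := by
      apply continuous_pi
      intro i
      by_cases h : i < r
      · simp only [hext, dif_pos h]; exact continuous_apply _
      · simp only [hext, dif_neg h]; exact continuous_const
    have hopen : IsOpen {x : Fin r → ℝ | Chi r (ext x) ≠ 0} :=
      isOpen_ne_fun ((Chi_continuous_real r).comp hc) continuous_const
    have hmem : (fun _ => (2 : ℝ)) ∈ {x : Fin r → ℝ | Chi r (ext x) ≠ 0} := by
      have e : ext (fun _ => 2) = fun _ => (2 : ℝ) := by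
        funext i
        simp only [hext]
        split_ifs <;> rfl
      rw [Set.mem_ofPred_eq, e]
      exact (Chi_two_pos r).ne'
    obtain ⟨ε, hε, hball⟩ := Metric.isOpen_iff.mp hopen _ hmem
    refine ⟨ε, hε, fun x hx => ?_⟩
    have h2 : (fun i : Fin r => x i) ∈ Metric.ball (fun _ => (2 : ℝ)) ε := by
      rw [Metric.mem_ball, dist_pi_lt_iff hε]
      intro i
      rw [Real.dist_eq]
      exact hx i i.2
    have h3 := hball h2
    have h4 : Chi r (ext fun i : Fin r => x i) = Chi r x := by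
      apply Chi_congr
      intro i hi
      simp only [hext, dif_pos hi]
    rw [Set.mem_ofPred_eq, h4] at h3
    exact h3
  choose ε hε hε' using h1
  have hmin : ∃ δ > 0, ∀ r ≤ n, δ ≤ ε r := by
    induction n with
    | zero => exact ⟨ε 0, hε 0, fun r hr => by rw [Nat.le_zero.mp hr]⟩
    | succ n ih =>
      obtain ⟨δ, hδ, h⟩ := ih
      refine ⟨min δ (ε (n + 1)), lt_min hδ (hε _), fun r hr => ?_⟩
      rcases Nat.lt_or_ge n r with h' | h'
      · rw [show r = n + 1 by omega]; exact min_le_right _ _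
      · exact (min_le_left _ _).trans (h r h')
  obtain ⟨δ, hδ, hδ'⟩ := hmin
  refine ⟨δ, hδ, fun s hs => ?_⟩
  obtain ⟨x, hx⟩ := exists_enum s
  have hmem : ∀ i < Multiset.card s, x i ∈ s := by
    intro i hi
    have h2 : x i ∈ (Multiset.range (Multiset.card s)).map x :=
      Multiset.mem_map_of_mem x (Multiset.mem_range.mpr hi)
    rwa [← hx] at h2
  have e : chiM s = Chi (Multiset.card s) x := by
    conv_lhs => rw [hx]
    rw [chiM_map_range]
  rw [e]
  constructor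
  · intro h
    exact hε' _ x fun i hi => (h _ (hmem i hi)).trans_le (hδ' _ hs)
  · intro h
    have h2 : Chi (Multiset.card s) (fun i => -x i) ≠ 0 := by
      apply hε'
      intro i hi
      have := (h _ (hmem i hi)).trans_le (hδ' _ hs)
      rwa [show -x i - 2 = -(x i + 2) by ring, abs_neg]
    rcases Chi_neg (Multiset.card s) x with h3 | h3
    · rw [h3] at h2; exact h2
    · rw [h3] at h2; exact neg_ne_zero.mp h2

/-- `B` near `2`, `Y` near `-2` -/
def Near (ε : ℝ) (B Y : Finset ℝ) : Prop :=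
  (∀ b ∈ B, 2 - ε < b ∧ b < 2) ∧ ∀ y ∈ Y, -2 < y ∧ y < -2 + ε

theorem cc_inj_two {i j : ℝ} (hi : 1 < i) (hj : 1 < j) (h : cc i = cc j) : i = j := by
  unfold cc at h
  have h1 : (i - j) * (i ^ 2 + i * j + j ^ 2 - 3) = 0 := by linear_combination h
  rcases mul_eq_zero.mp h1 with h2 | h2
  · exact sub_eq_zero.mp h2
  · nlinarith [mul_pos (sub_pos.mpr hi) (sub_pos.mpr hj)]

theorem cc_pos {i : ℝ} (h : 1.8 < i) : 0 < cc i := by
  unfold cc
  have : i ^ 3 - 3 * i = i * (i ^ 2 - 3) := by ring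
  rw [this]
  apply mul_pos (by linarith)
  nlinarith

theorem cc_neg (i : ℝ) : cc (-i) = -cc i := by unfold cc; ring

theorem cc_inj_near {ε : ℝ} (hε : ε ≤ 0.1) {B Y : Finset ℝ} (h : Near ε B Y) :
    ∀ i ∈ B ∪ Y, ∀ j ∈ B ∪ Y, cc i = cc j → i = j := by
  have hB : ∀ b ∈ B, 1.8 < b := fun b hb => by have := (h.1 b hb).1; linarith
  have hY : ∀ y ∈ Y, 1.8 < -y := fun y hy => by have := (h.2 y hy).2; linarith
  intro i hi j hj hc
  rcases Finset.mem_union.mp hi with h1 | h1 <;> rcases Finset.mem_union.mp hj with h2 | h2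
  · exact cc_inj_two (by linarith [hB i h1]) (by linarith [hB j h2]) hc
  · exfalso
    have e1 := cc_pos (hB i h1)
    have e2 := cc_pos (hY j h2)
    rw [cc_neg] at e2
    linarith
  · exfalso
    have e1 := cc_pos (hB j h2)
    have e2 := cc_pos (hY i h1)
    rw [cc_neg] at e2
    linarith
  · have e : cc (-i) = cc (-j) := by rw [cc_neg, cc_neg, hc]
    have := cc_inj_two (by linarith [hY i h1]) (by linarith [hY j h2]) e
    linarith

/-- the class of pairs near the homogeneous point, both orientations -/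
def NearD (n : ℕ) (ε : ℝ) (B Y : Finset ℝ) : Prop :=
  B.card + Y.card ≤ n ∧ (Near ε B Y ∨ Near ε Y B)

theorem Near.dom {ε : ℝ} (hε : ε ≤ 0.1) {B Y : Finset ℝ} (h : Near ε B Y) : Dom B Y := by
  refine ⟨fun b hb => ?_, fun y hy => ?_, ?_⟩
  · have := h.1 b hb
    constructor <;> linarith
  · have := h.2 y hy
    constructor <;> linarith
  · rw [Finset.disjoint_left]
    intro x hx hy
    have h1 := h.1 x hx
    have h2 := h.2 x hy
    linarith

theorem Near.mono {ε : ℝ} {B Y B' Y' : Finset ℝ} (h : Near ε B Y) (h1 : B' ⊆ B) (h2 : Y' ⊆ Y) :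
    Near ε B' Y' := ⟨fun b hb => h.1 b (h1 hb), fun y hy => h.2 y (h2 hy)⟩

theorem near_chi {n : ℕ} {ε : ℝ} (hε : ∀ s : Multiset ℝ, Multiset.card s ≤ 2 * n →
    ((∀ x ∈ s, |x - 2| < ε) → chiM s ≠ 0) ∧ ((∀ x ∈ s, |x + 2| < ε) → chiM s ≠ 0))
    {B Y : Finset ℝ} (h : NearD n ε B Y) {s : Multiset ℝ} (hs : Multiset.card s ≤ 2 * n)
    (hsub : (∀ x ∈ s, x ∈ B) ∨ ∀ x ∈ s, x ∈ Y) : chiM s ≠ 0 := by
  rcases h.2 with h1 | h1 <;> rcases hsub with h2 | h2
  · exact (hε s hs).1 fun x hx => by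
      have := h1.1 x (h2 x hx)
      rw [abs_lt]; constructor <;> linarith
  · exact (hε s hs).2 fun x hx => by
      have := h1.2 x (h2 x hx)
      rw [abs_lt]; constructor <;> linarith
  · exact (hε s hs).2 fun x hx => by
      have := h1.2 x (h2 x hx)
      rw [abs_lt]; constructor <;> linarith
  · exact (hε s hs).1 fun x hx => by
      have := h1.1 x (h2 x hx)
      rw [abs_lt]; constructor <;> linarith

theorem nearD_good {n : ℕ} {ε : ℝ} (hε1 : ε ≤ 0.1)
    (hε : ∀ s : Multiset ℝ, Multiset.card s ≤ 2 * n →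
    ((∀ x ∈ s, |x - 2| < ε) → chiM s ≠ 0) ∧ ((∀ x ∈ s, |x + 2| < ε) → chiM s ≠ 0)) :
    Good (NearD n ε) where
  dom := by
    rintro B Y ⟨_, h | h⟩
    · exact h.dom hε1
    · have := h.dom hε1
      exact ⟨this.2.1, this.1, this.2.2.symm⟩
  eraseB := by
    rintro B Y ⟨h1, h⟩ b _
    refine ⟨?_, ?_⟩
    · have := Finset.card_le_card (Finset.erase_subset b B)
      omega
    · rcases h with h | h
      · exact Or.inl (h.mono (Finset.erase_subset _ _) (Finset.Subset.refl _))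
      · exact Or.inr (h.mono (Finset.Subset.refl _) (Finset.erase_subset _ _))
  eraseY := by
    rintro B Y ⟨h1, h⟩ b _
    refine ⟨?_, ?_⟩
    · have := Finset.card_le_card (Finset.erase_subset b Y)
      omega
    · rcases h with h | h
      · exact Or.inl (h.mono (Finset.Subset.refl _) (Finset.erase_subset _ _))
      · exact Or.inr (h.mono (Finset.erase_subset _ _) (Finset.Subset.refl _))
  swap := by
    rintro B Y ⟨h1, h⟩ b _
    refine ⟨?_, ?_⟩
    · have := Finset.card_le_card (Finset.erase_subset b B)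
      omega
    · rcases h with h | h
      · exact Or.inr (h.mono (Finset.erase_subset _ _) (Finset.Subset.refl _))
      · exact Or.inl (h.mono (Finset.Subset.refl _) (Finset.erase_subset _ _))
  inj := by
    rintro B Y ⟨_, h | h⟩
    · exact cc_inj_near hε1 h
    · rw [Finset.union_comm]; exact cc_inj_near hε1 h
  chi := by
    intro B Y h S hS
    refine near_chi hε h (s := S.val) ?_ (Or.inl fun x hx => hS hx)
    rw [Finset.card_val]
    have := Finset.card_le_card hS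
    have := h.1
    omega

/-- (C1) the formula satisfies the four facts near the homogeneous point -/
theorem AF_ampOn {n : ℕ} {ε : ℝ} (hε1 : ε ≤ 0.1)
    (hε : ∀ s : Multiset ℝ, Multiset.card s ≤ 2 * n →
    ((∀ x ∈ s, |x - 2| < ε) → chiM s ≠ 0) ∧ ((∀ x ∈ s, |x + 2| < ε) → chiM s ≠ 0)) :
    AmpOn (NearD n ε) AF := by
  have hG := nearD_good hε1 hε
  have hχ2 : ∀ B Y, NearD n ε B Y → ∀ S : Finset ℝ, (S ⊆ B ∨ S ⊆ Y) → chiM (S.val + S.val) ≠ 0 := by
    intro B Y h S hS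
    refine near_chi hε h (s := S.val + S.val) ?_ ?_
    · rw [card_two]
      have h1 := h.1
      rcases hS with h2 | h2
      · have := Finset.card_le_card h2; omega
      · have := Finset.card_le_card h2; omega
    · rcases hS with h2 | h2
      · left; intro x hx
        rcases Multiset.mem_add.mp hx with h | h <;> exact h2 h
      · right; intro x hx
        rcases Multiset.mem_add.mp hx with h | h <;> exact h2 h
  refine ⟨?_, ?_, ?_, ?_, ?_, ?_⟩
  · intro Y _ v _ a _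
    simp [AF]
  · intro B Y _ a _
    obtain ⟨P, hP, hP'⟩ := AF_polyV B Y a
    exact ⟨P, hP, fun v _ => hP' v⟩
  · intro B Y _ v _
    obtain ⟨P, hP, hP'⟩ := AF_polyA B Y v
    exact ⟨P, hP, fun a _ => hP' a⟩
  · intro B Y _ b hb p q hP a _
    rw [AF_r1 hb hP, AF_r1 hb hP.symm]
    unfold wt
    simp only [Finset.prod_pow]
    ring
  · intro B Y h y hy p q hP v _
    exact AF_nn hy hP (hχ2 B Y h _ (Or.inr (Finset.erase_subset _ _))) (hG.dom B Y h).2.2 v
  · intro B Y h b hb p q hP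
    have hinj := hG.inj B Y h
    have hbU : b ∈ B ∪ Y := Finset.mem_union_left _ hb
    have hpU : p ∉ B ∪ Y := by
      intro hp
      have h1 := hinj p hp b hbU hP.cc_left
      -- `p = b` is impossible
      have h2 := hP.deriv
      rw [h1, sub_self, zero_mul] at h2
      have h3 : 1.8 < b ∨ b < -1.8 := by
        rcases h.2 with h4 | h4
        · left; have := (h4.1 b hb).1; linarith
        · right; have := (h4.2 b hb).2; linarith
      rcases h3 with h3 | h3 <;> nlinarith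
    rw [Finset.mem_union, not_or] at hpU
    exact AF_ss hb hP (hχ2 B Y h _ (Or.inl (Finset.erase_subset _ _)))
      (hχ2 B Y h _ (Or.inr (Finset.Subset.refl _))) hpU.2 hpU.1 (hG.dom B Y h).2.2

/-- **(C3) Uniqueness theorem.** -/
theorem uniq {A : Finset ℝ → ℝ → Finset ℝ → ℝ → ℝ} (hA : Amp A) (n : ℕ) :
    ∃ ε > 0, ∀ B Y : Finset ℝ, B.card + Y.card ≤ n → (Near ε B Y ∨ Near ε Y B) →
      ∀ v ∈ II, ∀ a ∈ II, A B v Y a = AF B v Y a := by
  obtain ⟨ε, hε, h⟩ := chi_near (2 * n)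
  refine ⟨min ε 0.1, by positivity, fun B Y hn hNear v hv a ha => ?_⟩
  have h' : ∀ s : Multiset ℝ, Multiset.card s ≤ 2 * n →
      ((∀ x ∈ s, |x - 2| < min ε 0.1) → chiM s ≠ 0) ∧
      ((∀ x ∈ s, |x + 2| < min ε 0.1) → chiM s ≠ 0) := by
    intro s hs
    exact ⟨fun hx => (h s hs).1 fun x hx' => (hx x hx').trans_le (min_le_left _ _),
      fun hx => (h s hs).2 fun x hx' => (hx x hx').trans_le (min_le_left _ _)⟩
  have hG := nearD_good (min_le_right ε 0.1) h'
  exact uniq_on hG (hA.on hG.dom) (AF_ampOn (min_le_right ε 0.1) h') _ B Y rfl ⟨hn, hNear⟩ v hv a ha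

end LCA
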