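import Pool.Agent.Helper60.Slit.Defs
import Pool.Agent.Helper60.Slit.ChiA
import Pool.Agent.Helper60.Slit.ChiB
import Pool.Agent.Helper60.Slit.Wheel

/-!
L-SHAPED CORRIDOR, algebraic part [C]: definitions.

Variables: the x-variables (`x = 2 cos 2b`).  `B`, `Y` are finite SETS of x-variables (the column pairs, the row
pairs), `v`, `a` are the x-variables of the last column and of the last row.

`chiM s` (`s` a multiset) is the symmetric polynomial `Chi` of helper60.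
`al B v b = alpha_b(B,v) * chi_{2m+1}(B,B,v)`,  `nu B v = chi_{2m+1}(B,B,v)`,  `l0 B v = lam0(B,v) * nu B v`,
`gN Y a x = g_{Y,a}(x) (x - a) nu Y a`,
`AF B v Y a = f(B,v;Y,a) * nu B v * nu Y a * prod_{j in B} (j - a)`  (a polynomial in `v` and in `a`),
`fform B v Y a = f(B,v;Y,a)`.
-/

namespace LCA
open Finset Polynomial IP.Slit

section field
variable {K : Type*} [Field K]

/-- `Chi` of the entries of a list -/
noncomputable def chiL (l : List K) : K := Chi l.length (fun i => l.getD i 0)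

/-- `Chi` of a multiset -/
noncomputable def chiM (s : Multiset K) : K := chiL s.toList

variable [DecidableEq K]

/-- numerator of `alpha_b(B,v)` -/
noncomputable def al (B : Finset K) (v b : K) : K :=
  (3 * b ^ 2 - 3) * (∏ i ∈ B.erase b, qq i b / (b - i)) * chiM (B.val + (B.erase b).val + {v})

/-- `chi_{2m+1}(B,B,v)` -/
noncomputable def nu (B : Finset K) (v : K) : K := chiM (B.val + B.val + {v})

/-- numerator of `lam0(B,v)` -/
noncomputable def l0 (B : Finset K) (v : K) : K :=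
  (∏ i ∈ B, qq i v / (v - i)) * chiM (B.val + B.val)

/-- numerator of `g_{B,v}(x)`: `g = gN / (nu * (x - v))` -/
noncomputable def gN (B : Finset K) (v x : K) : K := nu B v + ∑ i ∈ B, al B v i / (x - i)

/-- numerator of the formula -/
noncomputable def AF (B : Finset K) (v : K) (Y : Finset K) (a : K) : K :=
  ∑ b ∈ B, al B v b * gN Y a b * ∏ j ∈ B.erase b, (j - a)

/-- the formula -/
noncomputable def fform (B : Finset K) (v : K) (Y : Finset K) (a : K) : K :=
  AF B v Y a / (nu B v * nu Y a * ∏ j ∈ B, (j - a))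

/-- `b, p, q` are the three solutions of `c(x) = c(b)`, `c(x) = x^3 - 3x` -/
def Par (b p q : K) : Prop := b + p + q = 0 ∧ p * q = b ^ 2 - 3

/-- the weight of the wheel recursion: `nu (insert b S) p = wt b q S * nu S b` for `Par b p q` -/
noncomputable def wt (b q : K) (S : Finset K) : K := (b - q) * ∏ z ∈ S, (z - q) ^ 2

end field

/-- the range of the x-variables -/
def II : Set ℝ := Set.Icc (-2) 2

/-- admissible pairs of sets -/
def Dom (B Y : Finset ℝ) : Prop :=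
  (∀ b ∈ B, -2 < b ∧ b < 2) ∧ (∀ y ∈ Y, -2 < y ∧ y < 2) ∧ Disjoint B Y

/-- the four geometric facts, for the numerators
`A B v Y a = f(B,v;Y,a) * nu B v * nu Y a * prod_{j in B} (j - a)`. -/
structure Amp (A : Finset ℝ → ℝ → Finset ℝ → ℝ → ℝ) : Prop where
  zero : ∀ Y : Finset ℝ, Dom ∅ Y → ∀ v ∈ II, ∀ a ∈ II, A ∅ v Y a = 0
  polyV : ∀ B Y, Dom B Y → ∀ a ∈ II, ∃ P : ℝ[X], P.natDegree ≤ B.card ∧ ∀ v ∈ II, A B v Y a = P.eval v
  polyA : ∀ B Y, Dom B Y → ∀ v ∈ II, ∃ P : ℝ[X], P.natDegree ≤ B.card + Y.card ∧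
    ∀ a ∈ II, A B v Y a = P.eval a
  /-- (R1) `(f(B,p) - f(B',b))/(b-p) = (f(B,q) - f(B',b))/(b-q)` -/
  r1 : ∀ B Y, Dom B Y → ∀ b ∈ B, ∀ p q, Par b p q → ∀ a ∈ II,
    (A B p Y a - wt b q (B.erase b) * (b - a) * A (B.erase b) b Y a) *
        ∏ z ∈ B.erase b, (z - p) ^ 2 =
      (A B q Y a - wt b p (B.erase b) * (b - a) * A (B.erase b) b Y a) *
        ∏ z ∈ B.erase b, (z - q) ^ 2
  /-- (N) `f(B,v;Y,p) = f(B,v;Y',y)` -/
  nn : ∀ B Y, Dom B Y → ∀ y ∈ Y, ∀ p q, Par y p q → ∀ v ∈ II,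
    (∏ j ∈ B, (j - y)) * A B v Y p =
      wt y q (Y.erase y) * (∏ j ∈ B, (j - p)) * A B v (Y.erase y) y
  /-- (S) `f(B,p;Y,p) = 1 - f(Y,p;B',b)` -/
  ss : ∀ B Y, Dom B Y → ∀ b ∈ B, ∀ p q, Par b p q →
    (∏ y ∈ Y, (y - b)) * (A B p Y p - nu B p * nu Y p * ∏ j ∈ B, (j - p)) =
      -(wt b q (B.erase b) * (∏ j ∈ B, (j - p)) * A Y p (B.erase b) b)

end LCA
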