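import Pool.Agent.Helper34.LC.ChiM

/-!
L-SHAPED CORRIDOR, algebraic part: the formula satisfies all the relations.
-/

set_option linter.unusedSectionVars false

namespace LCA
open Finset Polynomial IP.Slit

variable {K : Type*} [Field K] [CharZero K] [DecidableEq K]

theorem Par.symm {b p q : K} (h : Par b p q) : Par b q p :=
  ⟨by linear_combination h.1, by rw [mul_comm]; exact h.2⟩

theorem Par.qq_eq {b p q : K} (h : Par b p q) (x : K) : qq b x = (x - p) * (x - q) := by
  unfold qq
  linear_combination x * h.1 - h.2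

theorem Par.deriv {b p q : K} (h : Par b p q) : 3 * b ^ 2 - 3 = (b - p) * (b - q) := by
  linear_combination b * h.1 - h.2

theorem qq_comm (x y : K) : qq x y = qq y x := by unfold qq; ring

/-! ### the wheel recursion of the coefficients -/

theorem val_erase {B : Finset K} {b : K} (hb : b ∈ B) : B.val = b ::ₘ (B.erase b).val := by
  rw [Finset.erase_val]
  exact (Multiset.cons_erase hb).symm

theorem prod_sub_val (B : Finset K) (q : K) : (B.val.map (fun z => z - q)).prod = ∏ z ∈ B, (z - q) :=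
  rfl

theorem nu_wheel {B : Finset K} {b p q : K} (hb : b ∈ B) (h : Par b p q) :
    nu B p = wt b q (B.erase b) * nu (B.erase b) b := by
  unfold nu wt
  have e : B.val + B.val + {p} = b ::ₘ p ::ₘ ((B.erase b).val + (B.erase b).val + {b}) := by
    rw [val_erase hb]
    simp only [← Multiset.singleton_add]
    abel
  rw [e, chiM_wheel' h]
  congr 1
  rw [Multiset.map_add, Multiset.map_add, Multiset.prod_add, Multiset.prod_add, prod_sub_val,
    Multiset.map_singleton, Multiset.prod_singleton, Finset.prod_pow]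
  ring

theorem al_wheel_self {B : Finset K} {b p q : K} (hb : b ∈ B) (h : Par b p q) :
    al B p b = (b - p) * wt b q (B.erase b) * l0 (B.erase b) b := by
  unfold al wt l0
  have e : B.val + (B.erase b).val + {p} = b ::ₘ p ::ₘ ((B.erase b).val + (B.erase b).val) := by
    conv_lhs => rw [val_erase hb]
    simp only [← Multiset.singleton_add]
    abel
  rw [e, chiM_wheel' h, Multiset.map_add, Multiset.prod_add, prod_sub_val, h.deriv, Finset.prod_pow]
  ring

theorem al_wheel {B : Finset K} {b p q j : K} (hb : b ∈ B) (h : Par b p q)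
    (hj : j ∈ B.erase b) :
    al B p j = wt b q (B.erase b) * (j - p) / (j - b) * al (B.erase b) b j := by
  have hjb : j ≠ b := Finset.ne_of_mem_erase hj
  have hbj : b ∈ B.erase j := Finset.mem_erase.mpr ⟨hjb.symm, hb⟩
  have hcomm : (B.erase j).erase b = (B.erase b).erase j := Finset.erase_right_comm
  unfold al wt
  have e : B.val + (B.erase j).val + {p} =
      b ::ₘ p ::ₘ ((B.erase b).val + ((B.erase b).erase j).val + {b}) := by
    conv_lhs => rw [val_erase hb, val_erase hbj, hcomm]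
    simp only [← Multiset.singleton_add]
    abel
  rw [e, chiM_wheel' h, ← Finset.mul_prod_erase (B.erase j) _ hbj, hcomm, h.qq_eq j]
  rw [Multiset.map_add, Multiset.map_add, Multiset.prod_add, Multiset.prod_add, prod_sub_val,
    prod_sub_val, Multiset.map_singleton, Multiset.prod_singleton, Finset.prod_pow,
    ← Finset.mul_prod_erase (B.erase b) (fun z => z - q) hj]
  have h1 : j - b ≠ 0 := sub_ne_zero.mpr hjb
  generalize (∏ i ∈ (B.erase b).erase j, qq i j / (j - i)) = P1
  generalize (∏ i ∈ (B.erase b).erase j, (i - q)) = P2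
  generalize chiM ((B.erase b).val + ((B.erase b).erase j).val + {b}) = P3
  field_simp

/-! ### (R1) -/

/-- the amplitude `h` (numerator) -/
noncomputable def HH (S : Finset K) (v : K) (Y : Finset K) (a : K) : K :=
  (v - a) * ∑ j ∈ S, al S v j / (j - v) * gN Y a j * ∏ i ∈ S.erase j, (i - a) +
    l0 S v * gN Y a v * ∏ i ∈ S, (i - a)

theorem AF_r1 {B : Finset K} {b p q : K} (hb : b ∈ B) (h : Par b p q) (Y : Finset K) (a : K) :
    AF B p Y a = wt b q (B.erase b) * ((b - a) * AF (B.erase b) b Y a +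
      (b - p) * HH (B.erase b) b Y a) := by
  unfold AF HH
  rw [← Finset.add_sum_erase B _ hb, al_wheel_self hb h]
  have e : ∀ j ∈ B.erase b, al B p j * gN Y a j * ∏ i ∈ B.erase j, (i - a) =
      wt b q (B.erase b) * ((b - a) * (al (B.erase b) b j * gN Y a j *
        ∏ i ∈ (B.erase b).erase j, (i - a)) + (b - p) * ((b - a) * (al (B.erase b) b j / (j - b) *
        gN Y a j * ∏ i ∈ (B.erase b).erase j, (i - a)))) := by
    intro j hj
    have hjb : j ≠ b := Finset.ne_of_mem_erase hj
    have hbj : b ∈ B.erase j := Finset.mem_erase.mpr ⟨hjb.symm, hb⟩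
    rw [al_wheel hb h hj, ← Finset.mul_prod_erase (B.erase j) _ hbj, Finset.erase_right_comm]
    have h1 : j - b ≠ 0 := sub_ne_zero.mpr hjb
    field_simp
    ring
  rw [Finset.sum_congr rfl e, ← Finset.mul_sum, Finset.sum_add_distrib, ← Finset.mul_sum,
    ← Finset.mul_sum, ← Finset.mul_sum]
  ring

/-! ### (N) -/

theorem gN_wheel {Y : Finset K} {y p q x : K} (hy : y ∈ Y) (h : Par y p q)
    (hχ : chiM ((Y.erase y).val + (Y.erase y).val) ≠ 0) (hx : x ∉ Y) :
    (x - y) * gN Y p x = wt y q (Y.erase y) * (x - p) * gN (Y.erase y) y x := by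
  unfold gN
  have hxy : x - y ≠ 0 := by rw [sub_ne_zero]; rintro rfl; exact hx hy
  rw [nu_wheel hy h, ← Finset.add_sum_erase Y _ hy, al_wheel_self hy h]
  have e : ∀ i ∈ Y.erase y, al Y p i / (x - i) = wt y q (Y.erase y) * (al (Y.erase y) y i / (x - i)) +
      wt y q (Y.erase y) * (y - p) * (al (Y.erase y) y i / (x - i)) / (x - y) +
      wt y q (Y.erase y) * (y - p) * (al (Y.erase y) y i / (i - y)) / (x - y) := by
    intro i hi
    have hiy : i - y ≠ 0 := sub_ne_zero.mpr (Finset.ne_of_mem_erase hi)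
    have hxi : x - i ≠ 0 := by
      rw [sub_ne_zero]; rintro rfl; exact hx (Finset.mem_of_mem_erase hi)
    rw [al_wheel hy h hi]
    field_simp
    ring
  rw [Finset.sum_congr rfl e, Finset.sum_add_distrib, Finset.sum_add_distrib, ← Finset.mul_sum,
    ← Finset.sum_div, ← Finset.sum_div, ← Finset.mul_sum, ← Finset.mul_sum]
  have hSR := SR hχ (Finset.notMem_erase y Y)
  have hS : ∑ b ∈ Y.erase y, al (Y.erase y) y b / (b - y) =
      nu (Y.erase y) y - l0 (Y.erase y) y := by rw [← hSR]; ring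
  rw [hS]
  field_simp
  ring

theorem AF_nn {B Y : Finset K} {y p q : K} (hy : y ∈ Y) (h : Par y p q)
    (hχ : chiM ((Y.erase y).val + (Y.erase y).val) ≠ 0) (hBY : Disjoint B Y) (v : K) :
    (∏ j ∈ B, (j - y)) * AF B v Y p =
      wt y q (Y.erase y) * (∏ j ∈ B, (j - p)) * AF B v (Y.erase y) y := by
  unfold AF
  rw [Finset.mul_sum, Finset.mul_sum]
  refine Finset.sum_congr rfl fun b hb => ?_
  have hg := gN_wheel hy h hχ (Finset.disjoint_left.mp hBY hb)
  rw [← Finset.mul_prod_erase B (fun j => j - y) hb, ← Finset.mul_prod_erase B (fun j => j - p) hb]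
  linear_combination (∏ x ∈ B.erase b, (x - y)) * al B v b * (∏ j ∈ B.erase b, (j - p)) * hg

/-! ### (S) -/

/-- the weights of the partial fraction expansion of `g` -/
noncomputable def Mw (S : Finset K) (v p : K) : K := if p = v then l0 S v else al S v p / (p - v)

theorem Mw_self (S : Finset K) (v : K) : Mw S v v = l0 S v := if_pos rfl

theorem Mw_of_ne (S : Finset K) {v p : K} (h : p ≠ v) : Mw S v p = al S v p / (p - v) := if_neg h

theorem sum_Mw {S : Finset K} {v : K} (hχ : chiM (S.val + S.val) ≠ 0) (hv : v ∉ S) :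
    ∑ p ∈ insert v S, Mw S v p = nu S v := by
  rw [Finset.sum_insert hv, Mw_self, ← SR hχ hv]
  congr 1
  refine Finset.sum_congr rfl fun p hp => Mw_of_ne S ?_
  rintro rfl; exact hv hp

theorem gN_eq {S : Finset K} {v x : K} (hχ : chiM (S.val + S.val) ≠ 0) (hv : v ∉ S)
    (hx : x ∉ insert v S) : gN S v x = (x - v) * ∑ p ∈ insert v S, Mw S v p / (x - p) := by
  unfold gN
  have hxv : x - v ≠ 0 := by
    rw [sub_ne_zero]; rintro rfl; exact hx (Finset.mem_insert_self _ _)
  rw [← sum_Mw hχ hv, Finset.sum_insert hv, Finset.sum_insert hv, mul_add, Mw_self,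
    mul_div_cancel₀ _ hxv, add_assoc, ← Finset.sum_add_distrib, Finset.mul_sum]
  congr 1
  refine Finset.sum_congr rfl fun p hp => ?_
  have hpv : p ≠ v := by rintro rfl; exact hv hp
  have hpv' : p - v ≠ 0 := sub_ne_zero.mpr hpv
  have hxp : x - p ≠ 0 := by
    rw [sub_ne_zero]; rintro rfl; exact hx (Finset.mem_insert_of_mem hp)
  rw [Mw_of_ne S hpv]
  field_simp
  ring

theorem AF_eq {S Y : Finset K} {v a : K} (hχY : chiM (Y.val + Y.val) ≠ 0) (hv : v ∉ S)
    (haY : a ∉ Y) (haS : a ∉ S) (hSY : Disjoint S Y) :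
    AF S v Y a = (∏ i ∈ S, (i - a)) * ∑ p ∈ insert v S, ∑ r ∈ insert a Y,
      (p - v) * Mw S v p * Mw Y a r / (p - r) := by
  unfold AF
  rw [Finset.sum_insert hv]
  simp only [sub_self, zero_mul, zero_div, Finset.sum_const_zero, zero_add]
  rw [Finset.mul_sum]
  refine Finset.sum_congr rfl fun p hp => ?_
  have hpv : p ≠ v := by rintro rfl; exact hv hp
  have hpv' : p - v ≠ 0 := sub_ne_zero.mpr hpv
  have hpa : p - a ≠ 0 := by rw [sub_ne_zero]; rintro rfl; exact haS hp
  have hpY : p ∉ insert a Y := by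
    rw [Finset.mem_insert, not_or]
    exact ⟨sub_ne_zero.mp hpa, Finset.disjoint_left.mp hSY hp⟩
  rw [gN_eq hχY haY hpY, ← Finset.mul_prod_erase S (fun i => i - a) hp]
  have e : ∑ r ∈ insert a Y, (p - v) * Mw S v p * Mw Y a r / (p - r) =
      al S v p * ∑ r ∈ insert a Y, Mw Y a r / (p - r) := by
    rw [Finset.mul_sum]
    refine Finset.sum_congr rfl fun r _ => ?_
    rw [Mw_of_ne S hpv, mul_div_cancel₀ _ hpv', mul_div_assoc]
  rw [e]
  ring

theorem HH_eq {S Y : Finset K} {v a : K} (hχY : chiM (Y.val + Y.val) ≠ 0) (hv : v ∉ S)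
    (haY : a ∉ Y) (haS : a ∉ S) (hvY : v ∉ Y) (hva : v ≠ a) (hSY : Disjoint S Y) :
    HH S v Y a = (∏ i ∈ S, (i - a)) * ∑ p ∈ insert v S, ∑ r ∈ insert a Y,
      (v - a) * Mw S v p * Mw Y a r / (p - r) := by
  unfold HH
  have hvY' : v ∉ insert a Y := by
    rw [Finset.mem_insert, not_or]; exact ⟨hva, hvY⟩
  rw [Finset.sum_insert hv, mul_add, add_comm, Finset.mul_sum (a := v - a), Finset.mul_sum (s := S)]
  congr 1
  · rw [gN_eq hχY haY hvY', Mw_self]
    have e : ∑ r ∈ insert a Y, (v - a) * l0 S v * Mw Y a r / (v - r) =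
        (v - a) * l0 S v * ∑ r ∈ insert a Y, Mw Y a r / (v - r) := by
      rw [Finset.mul_sum]
      exact Finset.sum_congr rfl fun r _ => mul_div_assoc _ _ _
    rw [e]
    ring
  · refine Finset.sum_congr rfl fun p hp => ?_
    have hpv : p ≠ v := by rintro rfl; exact hv hp
    have hpa : p - a ≠ 0 := by rw [sub_ne_zero]; rintro rfl; exact haS hp
    have hpY : p ∉ insert a Y := by
      rw [Finset.mem_insert, not_or]
      exact ⟨sub_ne_zero.mp hpa, Finset.disjoint_left.mp hSY hp⟩
    rw [gN_eq hχY haY hpY, ← Finset.mul_prod_erase S (fun i => i - a) hp]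
    have e : ∑ r ∈ insert a Y, (v - a) * Mw S v p * Mw Y a r / (p - r) =
        (v - a) * (al S v p / (p - v)) * ∑ r ∈ insert a Y, Mw Y a r / (p - r) := by
      rw [Finset.mul_sum]
      refine Finset.sum_congr rfl fun r _ => ?_
      rw [Mw_of_ne S hpv, mul_div_assoc]
    rw [e]
    ring

/-- `f + f^T + (v - a) h = 1` -/
theorem AF_id {S Y : Finset K} {v a : K} (hχS : chiM (S.val + S.val) ≠ 0)
    (hχY : chiM (Y.val + Y.val) ≠ 0) (hv : v ∉ S) (haY : a ∉ Y) (haS : a ∉ S) (hvY : v ∉ Y)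
    (hva : v ≠ a) (hSY : Disjoint S Y) :
    (∏ y ∈ Y, (y - v)) * (AF S v Y a + HH S v Y a) + (∏ i ∈ S, (i - a)) * AF Y a S v =
      nu S v * nu Y a * (∏ i ∈ S, (i - a)) * ∏ y ∈ Y, (y - v) := by
  rw [AF_eq hχY hv haY haS hSY, HH_eq hχY hv haY haS hvY hva hSY, AF_eq hχS haY hv hvY hSY.symm,
    ← sum_Mw hχS hv, ← sum_Mw hχY haY, Finset.sum_mul_sum,
    Finset.sum_comm (s := insert a Y) (t := insert v S)]
  have key : ∑ p ∈ insert v S, ∑ r ∈ insert a Y, (p - v) * Mw S v p * Mw Y a r / (p - r) +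
      ∑ p ∈ insert v S, ∑ r ∈ insert a Y, (v - a) * Mw S v p * Mw Y a r / (p - r) +
      ∑ p ∈ insert v S, ∑ r ∈ insert a Y, (r - a) * Mw Y a r * Mw S v p / (r - p) =
      ∑ p ∈ insert v S, ∑ r ∈ insert a Y, Mw S v p * Mw Y a r := by
    rw [← Finset.sum_add_distrib, ← Finset.sum_add_distrib]
    refine Finset.sum_congr rfl fun p hp => ?_
    rw [← Finset.sum_add_distrib, ← Finset.sum_add_distrib]
    refine Finset.sum_congr rfl fun r hr => ?_
    have hpr : p - r ≠ 0 := by
      rw [sub_ne_zero]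
      rintro rfl
      rcases Finset.mem_insert.mp hp with h1 | h1
      · rw [h1] at hr
        rcases Finset.mem_insert.mp hr with h2 | h2
        · exact hva h2
        · exact hvY h2
      · rcases Finset.mem_insert.mp hr with h2 | h2
        · rw [h2] at h1; exact haS h1
        · exact Finset.disjoint_left.mp hSY h1 h2
    have hrp : r - p ≠ 0 := by rw [← neg_sub]; exact neg_ne_zero.mpr hpr
    have e : (r - a) * Mw Y a r * Mw S v p / (r - p) = -((r - a) * Mw Y a r * Mw S v p / (p - r)) := by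
      rw [← neg_sub p r, div_neg]
    rw [e]
    field_simp
    ring
  linear_combination (∏ i ∈ S, (i - a)) * (∏ y ∈ Y, (y - v)) * key

theorem AF_ss {B Y : Finset K} {b p q : K} (hb : b ∈ B) (h : Par b p q)
    (hχB : chiM ((B.erase b).val + (B.erase b).val) ≠ 0) (hχY : chiM (Y.val + Y.val) ≠ 0)
    (hpY : p ∉ Y) (hpB : p ∉ B) (hBY : Disjoint B Y) :
    (∏ y ∈ Y, (y - b)) * (AF B p Y p - nu B p * nu Y p * ∏ j ∈ B, (j - p)) =
      -(wt b q (B.erase b) * (∏ j ∈ B, (j - p)) * AF Y p (B.erase b) b) := by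
  have hid := AF_id (S := B.erase b) (Y := Y) (v := b) (a := p) hχB hχY (Finset.notMem_erase b B)
    hpY (fun h => hpB (Finset.mem_of_mem_erase h)) (Finset.disjoint_left.mp hBY hb)
    (by rintro rfl; exact hpB hb) (Finset.disjoint_of_subset_left (Finset.erase_subset _ _) hBY)
  rw [AF_r1 hb h, nu_wheel hb h, ← Finset.mul_prod_erase B (fun j => j - p) hb]
  linear_combination wt b q (B.erase b) * (b - p) * hid

/-! ### degrees -/

theorem nu_poly (B : Finset K) : ∃ P : K[X], P.natDegree ≤ B.card ∧ ∀ v, nu B v = P.eval v := by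
  obtain ⟨P, hP1, hP2, -, -⟩ := exists_poly (B.val + B.val)
  refine ⟨P, by rw [card_two] at hP2; omega, fun v => ?_⟩
  rw [hP1]
  unfold nu
  congr 1
  rw [add_comm _ ({v} : Multiset K), Multiset.singleton_add]

theorem al_poly {B : Finset K} {b : K} (hb : b ∈ B) :
    ∃ P : K[X], P.natDegree + 1 ≤ B.card ∧ ∀ v, al B v b = P.eval v := by
  obtain ⟨P, hP1, hP2, -, -⟩ := exists_poly (B.val + (B.erase b).val)
  have hc := card_erase_two hb
  refine ⟨C ((3 * b ^ 2 - 3) * ∏ i ∈ B.erase b, qq i b / (b - i)) * P, ?_, fun v => ?_⟩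
  · have := natDegree_C_mul_le ((3 * b ^ 2 - 3) * ∏ i ∈ B.erase b, qq i b / (b - i)) P
    omega
  · rw [eval_mul, eval_C, hP1]
    unfold al
    congr 2
    rw [add_comm _ ({v} : Multiset K), Multiset.singleton_add]

theorem AF_polyV (B Y : Finset K) (a : K) : ∃ P : K[X], P.natDegree ≤ B.card ∧
    ∀ v, AF B v Y a = P.eval v := by
  have h : ∀ b : K, ∃ P : K[X], b ∈ B → P.natDegree + 1 ≤ B.card ∧ ∀ v, al B v b = P.eval v := by
    intro b
    by_cases hb : b ∈ B
    · obtain ⟨P, hP⟩ := al_poly hb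
      exact ⟨P, fun _ => hP⟩
    · exact ⟨0, fun h => absurd h hb⟩
  choose P hP using h
  refine ⟨∑ b ∈ B, P b * C (gN Y a b * ∏ j ∈ B.erase b, (j - a)), ?_, fun v => ?_⟩
  · refine natDegree_sum_le_of_forall_le _ _ fun b hb => ?_
    have := natDegree_mul_C_le (P b) (gN Y a b * ∏ j ∈ B.erase b, (j - a))
    have := (hP b hb).1
    omega
  · rw [eval_finsetSum]
    unfold AF
    refine Finset.sum_congr rfl fun b hb => ?_
    rw [eval_mul, eval_C, ← (hP b hb).2 v, mul_assoc]

theorem gN_poly (Y : Finset K) (x : K) : ∃ P : K[X], P.natDegree ≤ Y.card ∧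
    ∀ a, gN Y a x = P.eval a := by
  obtain ⟨N, hN1, hN2⟩ := nu_poly Y
  have h : ∀ b : K, ∃ P : K[X], b ∈ Y → P.natDegree + 1 ≤ Y.card ∧ ∀ v, al Y v b = P.eval v := by
    intro b
    by_cases hb : b ∈ Y
    · obtain ⟨P, hP⟩ := al_poly hb
      exact ⟨P, fun _ => hP⟩
    · exact ⟨0, fun h => absurd h hb⟩
  choose P hP using h
  refine ⟨N + ∑ i ∈ Y, P i * C (x - i)⁻¹, ?_, fun a => ?_⟩
  · refine (natDegree_add_le _ _).trans (max_le hN1 ?_)
    refine natDegree_sum_le_of_forall_le _ _ fun b hb => ?_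
    have := natDegree_mul_C_le (P b) (x - b)⁻¹
    have := (hP b hb).1
    omega
  · rw [eval_add, eval_finsetSum, ← hN2]
    unfold gN
    congr 1
    refine Finset.sum_congr rfl fun b hb => ?_
    rw [eval_mul, eval_C, ← (hP b hb).2 a, div_eq_mul_inv]

theorem AF_polyA (B Y : Finset K) (v : K) : ∃ P : K[X], P.natDegree ≤ B.card + Y.card ∧
    ∀ a, AF B v Y a = P.eval a := by
  choose P hP1 hP2 using gN_poly Y
  refine ⟨∑ b ∈ B, C (al B v b) * P b * ∏ j ∈ B.erase b, (C j - X), ?_, fun a => ?_⟩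
  · refine natDegree_sum_le_of_forall_le _ _ fun b hb => ?_
    refine natDegree_mul_le.trans ?_
    have h1 : (∏ j ∈ B.erase b, (C j - X : K[X])).natDegree ≤ B.card := by
      refine (natDegree_prod_le _ _).trans ?_
      have : ∑ i ∈ B.erase b, (C i - X : K[X]).natDegree ≤ ∑ _i ∈ B.erase b, 1 := by
        refine Finset.sum_le_sum fun i _ => ?_
        refine (natDegree_sub_le _ _).trans ?_
        simp
      refine this.trans ?_
      rw [Finset.sum_const, smul_eq_mul, mul_one]
      exact Finset.card_le_card (Finset.erase_subset _ _)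
    have h2 := natDegree_C_mul_le (al B v b) (P b)
    have h3 := hP1 b
    omega
  · rw [eval_finsetSum]
    unfold AF
    refine Finset.sum_congr rfl fun b hb => ?_
    rw [eval_mul, eval_mul, eval_C, ← hP2, eval_prod]
    simp

end LCA
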