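import Pool.Agent.Helper34.LC.Form

/-!
L-SHAPED CORRIDOR, algebraic part: Lemma K'.
-/

set_option linter.unusedSectionVars false

namespace LCA
open Finset Polynomial IP.Slit

variable {K : Type*} [Field K] [CharZero K] [DecidableEq K]

/-- `c(x) = x^3 - 3x` -/
def cc (x : K) : K := x ^ 3 - 3 * x

theorem Par.fact {b p q : K} (h : Par b p q) (x : K) : (x - b) * ((x - p) * (x - q)) = cc x - cc b := by
  unfold cc
  have h1 := h.1
  have h2 := h.2
  linear_combination (-x ^ 2 + b * x) * h1 + (x - b) * h2

theorem Par.cc_left {b p q : K} (h : Par b p q) : cc p = cc b := by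
  have := h.fact p
  rw [sub_self, zero_mul, mul_zero] at this
  exact (sub_eq_zero.mp this.symm)

theorem Par.cc_right {b p q : K} (h : Par b p q) : cc q = cc b := h.symm.cc_left

theorem chi_partner {B : Finset K} {b p q : K} (hb : b ∈ B) (h : Par b p q) :
    chiM (p ::ₘ B.val) = (∏ z ∈ B.erase b, (z - q)) * chiM (B.erase b).val := by
  rw [val_erase hb, Multiset.cons_swap, chiM_wheel' h, prod_sub_val]

/-- **Lemma K'** -/
theorem kprime (pp qp : K → K) : ∀ (B : Finset K), (∀ b ∈ B, Par b (pp b) (qp b)) →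
    (∀ b ∈ B, pp b ≠ qp b) → (∀ i ∈ B, ∀ j ∈ B, cc i = cc j → i = j) →
    (∀ S ⊆ B, chiM S.val ≠ 0) → ∀ N : K[X], N.natDegree ≤ B.card →
    (∀ b ∈ B, N.eval (pp b) * ∏ i ∈ B.erase b, (i - pp b) ^ 2 =
      N.eval (qp b) * ∏ i ∈ B.erase b, (i - qp b) ^ 2) →
    ∃ κ : K, ∀ v, N.eval v = κ * chiM (v ::ₘ B.val) ^ 2 := by
  intro B
  induction B using Finset.induction_on with
  | empty =>
    intro _ _ _ _ N hN _
    rw [card_empty] at hN
    obtain ⟨x, hx⟩ := natDegree_eq_zero.mp (Nat.le_zero.mp hN)
    refine ⟨x, fun v => ?_⟩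
    have e : chiM (v ::ₘ (∅ : Finset K).val) = 1 := by
      have := chiM_map_range 1 (fun _ => v)
      rw [Chi_one] at this
      rw [← this]
      rfl
    rw [e, ← hx, eval_C]
    ring
  | insert b S hbS ih =>
    intro hpar hne hc hchi N hN hstar
    set B := insert b S with hB
    have hbB : b ∈ B := Finset.mem_insert_self _ _
    have hSB : S ⊆ B := Finset.subset_insert _ _
    have herase : B.erase b = S := Finset.erase_insert hbS
    set p := pp b with hp
    set q := qp b with hq
    have hP : Par b p q := hpar b hbB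
    have hpq : p ≠ q := hne b hbB
    have hcb : ∀ j ∈ S, cc j ≠ cc b := by
      intro j hj h
      have := hc j (hSB hj) b hbB h
      exact hbS (this ▸ hj)
    have hzq : ∀ z ∈ S, z - q ≠ 0 := by
      intro z hz
      rw [sub_ne_zero]
      intro h
      exact hcb z hz (by rw [h]; exact hP.cc_right)
    have hzp : ∀ z ∈ S, z - p ≠ 0 := by
      intro z hz
      rw [sub_ne_zero]
      intro h
      exact hcb z hz (by rw [h]; exact hP.cc_left)
    have hEp : chiM (p ::ₘ B.val) = (∏ z ∈ S, (z - q)) * chiM S.val := by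
      rw [chi_partner hbB hP, herase]
    have hEq : chiM (q ::ₘ B.val) = (∏ z ∈ S, (z - p)) * chiM S.val := by
      rw [chi_partner hbB hP.symm, herase]
    have hEp0 : chiM (p ::ₘ B.val) ≠ 0 := by
      rw [hEp]
      exact mul_ne_zero (Finset.prod_ne_zero_iff.mpr hzq) (hchi S hSB)
    obtain ⟨P, hP1, hP2, -, -⟩ := exists_poly B.val
    set κ := N.eval p / chiM (p ::ₘ B.val) ^ 2 with hκ
    set N' : K[X] := N - C κ * P ^ 2 with hN'
    have hN'deg : N'.natDegree ≤ B.card := by
      refine (natDegree_sub_le _ _).trans (max_le hN ?_)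
      refine (natDegree_C_mul_le _ _).trans ?_
      refine (natDegree_pow_le).trans ?_
      rw [Finset.card_val] at hP2
      omega
    have hN'eval : ∀ v, N'.eval v = N.eval v - κ * chiM (v ::ₘ B.val) ^ 2 := by
      intro v
      rw [hN', eval_sub, eval_mul, eval_C, eval_pow, hP1]
    have hN'p : N'.eval p = 0 := by
      rw [hN'eval, hκ, div_mul_cancel₀ _ (pow_ne_zero _ hEp0), sub_self]
    -- the relations for `N'`
    have hstar' : ∀ j ∈ B, N'.eval (pp j) * ∏ i ∈ B.erase j, (i - pp j) ^ 2 =
        N'.eval (qp j) * ∏ i ∈ B.erase j, (i - qp j) ^ 2 := by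
      intro j hj
      have hPj := hpar j hj
      rw [hN'eval, hN'eval, sub_mul, sub_mul, hstar j hj, chi_partner hj hPj,
        chi_partner hj hPj.symm, Finset.prod_pow, Finset.prod_pow]
      ring
    have hN'q : N'.eval q = 0 := by
      have h1 := hstar' b hbB
      rw [← hp, ← hq, hN'p, zero_mul, herase] at h1
      rcases mul_eq_zero.mp h1.symm with h2 | h2
      · exact h2
      · exfalso
        have := Finset.prod_ne_zero_iff.mpr fun z hz => pow_ne_zero 2 (hzq z hz)
        exact this h2
    obtain ⟨N1, hN1⟩ : (X - C p) * (X - C q) ∣ N' := by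
      apply IsCoprime.mul_dvd
      · exact Polynomial.isCoprime_X_sub_C_of_isUnit_sub (sub_ne_zero.mpr hpq).isUnit
      · exact dvd_iff_isRoot.mpr hN'p
      · exact dvd_iff_isRoot.mpr hN'q
    set N2 : K[X] := (X - C b) * N1 with hN2
    have hN2deg : N2.natDegree ≤ S.card := by
      by_cases h0 : N1 = 0
      · rw [hN2, h0, mul_zero, natDegree_zero]; exact Nat.zero_le _
      · have e1 : N'.natDegree = 2 + N1.natDegree := by
          rw [hN1, natDegree_mul _ h0, natDegree_mul, natDegree_X_sub_C, natDegree_X_sub_C]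
          · exact X_sub_C_ne_zero _
          · exact X_sub_C_ne_zero _
          · exact mul_ne_zero (X_sub_C_ne_zero _) (X_sub_C_ne_zero _)
        have e2 : N2.natDegree = 1 + N1.natDegree := by
          rw [hN2, natDegree_mul (X_sub_C_ne_zero _) h0, natDegree_X_sub_C]
        have e3 : B.card = S.card + 1 := Finset.card_insert_of_notMem hbS
        omega
    have hfact : ∀ x, N'.eval x * (b - x) ^ 2 = N2.eval x * (cc x - cc b) := by
      intro x
      rw [hN1, hN2, ← hP.fact x]
      simp only [eval_mul, eval_sub, eval_X, eval_C]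
      ring
    have hstar2 : ∀ j ∈ S, N2.eval (pp j) * ∏ i ∈ S.erase j, (i - pp j) ^ 2 =
        N2.eval (qp j) * ∏ i ∈ S.erase j, (i - qp j) ^ 2 := by
      intro j hj
      have hjB := hSB hj
      have hPj := hpar j hjB
      have hbj : b ∈ B.erase j := Finset.mem_erase.mpr ⟨by rintro rfl; exact hbS hj, hbB⟩
      have h1 := hstar' j hjB
      have e : (B.erase j).erase b = S.erase j := by rw [Finset.erase_right_comm, herase]
      rw [← Finset.mul_prod_erase _ (fun i => (i - pp j) ^ 2) hbj,
        ← Finset.mul_prod_erase _ (fun i => (i - qp j) ^ 2) hbj, e, ← mul_assoc, ← mul_assoc,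
        hfact, hfact, hPj.cc_left, hPj.cc_right] at h1
      have h2 : cc j - cc b ≠ 0 := sub_ne_zero.mpr (hcb j hj)
      apply mul_left_cancel₀ h2
      linear_combination h1
    obtain ⟨κ', hκ'⟩ := ih (fun j hj => hpar j (hSB hj)) (fun j hj => hne j (hSB hj))
      (fun i hi j hj => hc i (hSB hi) j (hSB hj)) (fun T hT => hchi T (hT.trans hSB)) N2 hN2deg hstar2
    have hBval : b ::ₘ S.val = B.val := by rw [val_erase hbB, herase]
    have hκ0 : κ' = 0 := by
      have h1 := hκ' b
      rw [hBval, hN2, eval_mul, eval_sub, eval_X, eval_C, sub_self, zero_mul] at h1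
      rcases mul_eq_zero.mp h1.symm with h2 | h2
      · exact h2
      · exact absurd (pow_eq_zero_iff (by norm_num) |>.mp h2) (hchi B (Finset.Subset.refl _))
    have hN20 : N2 = 0 := by
      apply Polynomial.funext
      intro v
      rw [hκ' v, hκ0, zero_mul, eval_zero]
    have hN10 : N1 = 0 := by
      rcases mul_eq_zero.mp hN20 with h | h
      · exact absurd h (X_sub_C_ne_zero _)
      · exact h
    refine ⟨κ, fun v => ?_⟩
    have := hN'eval v
    rw [hN1, hN10, mul_zero, eval_zero] at this
    exact (sub_eq_zero.mp this.symm)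

end LCA
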