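import Pool.Agent.Helper78.LD.Stat
import Pool.Agent.Helper34.LC.Uniq

/-!
L-SHAPED CORRIDOR, item D6 (wrapper), part A: trigonometric products, lists of pairs, invariance under
permutations.
-/

set_option autoImplicit false

namespace LDW
open IP Finset Real LD

/-! ### trigonometry -/

/-- `2 cos (2x + 2π/3)` -/
noncomputable def cp (x : ℝ) : ℝ := 2 * Real.cos (2 * x + 2 * π / 3)
/-- `2 cos (2x - 2π/3)` -/
noncomputable def cm (x : ℝ) : ℝ := 2 * Real.cos (2 * x - 2 * π / 3)
/-- `2 cos 2x` -/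
noncomputable def c2 (x : ℝ) : ℝ := 2 * Real.cos (2 * x)

theorem c2_neg (x : ℝ) : c2 (-x) = c2 x := by unfold c2; rw [mul_neg, Real.cos_neg]

theorem cp_neg (x : ℝ) : cp (-x) = cm x := by
  unfold cp cm
  rw [show 2 * -x + 2 * π / 3 = -(2 * x - 2 * π / 3) by ring, Real.cos_neg]

theorem cm_neg (x : ℝ) : cm (-x) = cp x := by rw [← cp_neg, neg_neg]

theorem two_sin_mul_sin (a b : ℝ) : Real.sin a * Real.sin b =
    (2 * Real.cos (a - b) - 2 * Real.cos (a + b)) / 4 := by
  rw [Real.cos_sub, Real.cos_add]; ring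

theorem two_cos_mul_cos (a b : ℝ) : Real.cos a * Real.cos b =
    (2 * Real.cos (a - b) + 2 * Real.cos (a + b)) / 4 := by
  rw [Real.cos_sub, Real.cos_add]; ring

/-- T1 -/
theorem s_mul_s (t x : ℝ) : s (t - x) * s (-t - x) = (c2 t - cm x) / 4 := by
  unfold s c2 cm
  rw [two_sin_mul_sin, show π / 3 + (t - x) - (π / 3 + (-t - x)) = 2 * t by ring,
    show π / 3 + (t - x) + (π / 3 + (-t - x)) = -(2 * x - 2 * π / 3) by ring, Real.cos_neg]

/-- T3 -/
theorem s_neg_mul_s0 (x : ℝ) : s (-(2 * x)) * s 0 = (c2 x - cm x) / 4 := by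
  unfold s c2 cm
  rw [two_sin_mul_sin, show π / 3 + -(2 * x) - (π / 3 + 0) = -(2 * x) by ring,
    show π / 3 + -(2 * x) + (π / 3 + 0) = -(2 * x - 2 * π / 3) by ring, Real.cos_neg, Real.cos_neg]

theorem s_mul_s0 (x : ℝ) : s (2 * x) * s 0 = (c2 x - cp x) / 4 := by
  have h := s_neg_mul_s0 (-x)
  rw [cm_neg, c2_neg, mul_neg, neg_neg] at h
  exact h

/-- T5 -/
theorem sin_mul_s0 (x : ℝ) : Real.sin (2 * x) * s 0 = (cm x - cp x) / 4 := by
  unfold s cm cp
  rw [add_zero, two_sin_mul_sin]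
  rw [show 2 * x - 2 * π / 3 = (2 * x + π / 3) - π by ring, Real.cos_sub_pi,
    show 2 * x + 2 * π / 3 = (2 * x - π / 3) + π by ring, Real.cos_add_pi]
  ring

theorem s_pi6 (x : ℝ) : s (x + π / 6) = Real.cos x := by
  unfold s
  rw [show π / 3 + (x + π / 6) = x + π / 2 by ring, Real.sin_add_pi_div_two]

theorem s_neg_pi6 (x : ℝ) : s (x - π / 6) = Real.cos (x - π / 3) := by
  unfold s
  rw [show π / 3 + (x - π / 6) = (x - π / 3) + π / 2 by ring, Real.sin_add_pi_div_two]

/-- T4 -/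
theorem s_row (x β : ℝ) : s (x - β + π / 6) * s (-x - β + π / 6) = (c2 x + c2 β) / 4 := by
  rw [s_pi6, s_pi6, two_cos_mul_cos, show x - β - (-x - β) = 2 * x by ring,
    show x - β + (-x - β) = -(2 * β) by ring, Real.cos_neg]
  rfl

/-- T6 -/
theorem s_rowN (t y : ℝ) : (s (-t - y + π / 6) * s (-t - y - π / 6)) *
    (s (t - y + π / 6) * s (t - y - π / 6)) = (c2 t + c2 y) / 4 * ((c2 t + cp y) / 4) := by
  rw [s_pi6, s_pi6, s_neg_pi6, s_neg_pi6]
  have e1 : Real.cos (-t - y) * Real.cos (t - y) = (c2 t + c2 y) / 4 := by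
    rw [two_cos_mul_cos, show -t - y - (t - y) = -(2 * t) by ring,
      show -t - y + (t - y) = -(2 * y) by ring, Real.cos_neg, Real.cos_neg]
    rfl
  have e2 : Real.cos (-t - y - π / 3) * Real.cos (t - y - π / 3) = (c2 t + cp y) / 4 := by
    rw [two_cos_mul_cos, show -t - y - π / 3 - (t - y - π / 3) = -(2 * t) by ring,
      show -t - y - π / 3 + (t - y - π / 3) = -(2 * y + 2 * π / 3) by ring, Real.cos_neg,
      Real.cos_neg]
    rfl
  rw [← e1, ← e2]
  ring

theorem par_c (x : ℝ) : LCA.Par (c2 x) (cp x) (cm x) := by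
  unfold LCA.Par c2 cp cm
  have h3 : Real.cos (2 * π / 3) = -(1 / 2) := by
    rw [show 2 * π / 3 = π - π / 3 by ring, Real.cos_pi_sub, Real.cos_pi_div_three]
  constructor
  · rw [Real.cos_add, Real.cos_sub, h3]; ring
  · have e : 2 * Real.cos (2 * x + 2 * π / 3) * (2 * Real.cos (2 * x - 2 * π / 3)) =
        2 * (Real.cos (2 * x + 2 * π / 3 - (2 * x - 2 * π / 3)) +
          Real.cos (2 * x + 2 * π / 3 + (2 * x - 2 * π / 3))) := by
      have := two_cos_mul_cos (2 * x + 2 * π / 3) (2 * x - 2 * π / 3)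
      linarith
    rw [e, show 2 * x + 2 * π / 3 - (2 * x - 2 * π / 3) = 2 * π - 2 * π / 3 by ring,
      Real.cos_two_pi_sub, h3,
      show 2 * x + 2 * π / 3 + (2 * x - 2 * π / 3) = 2 * (2 * x) by ring, Real.cos_two_mul]
    ring

/-! ### the sequence of pairs -/

theorem prod_pr (f : ℝ → ℝ) (t : ℕ → ℝ) (m : ℕ) :
    ∏ j ∈ range (2 * m), f (pr t j) = ∏ i ∈ range m, (f (-t i) * f (t i)) := by
  induction m with
  | zero => simp
  | succ m ih =>
    rw [show 2 * (m + 1) = 2 * m + 1 + 1 by ring, prod_range_succ, prod_range_succ, ih,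
      prod_range_succ]
    have e1 : pr t (2 * m) = -t m := by
      unfold pr
      rw [if_pos (by omega), show 2 * m / 2 = m by omega]
    have e2 : pr t (2 * m + 1) = t m := by
      unfold pr
      rw [if_neg (by omega), show (2 * m + 1) / 2 = m by omega]
    rw [e1, e2]
    ring

/-- the factor `K` for `ap3` -/
theorem K_ap3 (m : ℕ) (b : ℕ → ℝ) (p q r : ℝ) :
    K (m + 1) (2 * m + 1) (ap3 (2 * m) b p q r) =
      s (p - q) * s (-p - q) * ∏ j ∈ range (2 * m), (s (b j - q) * s (-b j - q)) := by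
  unfold K
  have e : (range (2 * (m + 1) + 1)).filter (fun j => j ≠ 2 * m + 1 ∧ j ≠ 2 * m + 1 + 1) =
      range (2 * m + 1) := by
    ext j
    rw [mem_filter, mem_range, mem_range]
    omega
  rw [e, prod_range_succ]
  have e1 : ap3 (2 * m) b p q r (2 * m) = p := by
    unfold ap3
    rw [if_neg (lt_irrefl _), if_pos rfl]
  have e2 : ap3 (2 * m) b p q r (2 * m + 1) = q := by
    unfold ap3
    rw [if_neg (by omega), if_neg (by omega), if_pos rfl]
  rw [e1, e2, mul_comm]
  congr 1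
  apply prod_congr rfl
  intro j hj
  have : ap3 (2 * m) b p q r j = b j := by
    unfold ap3
    rw [if_pos (mem_range.mp hj)]
  rw [this]

/-- `K` of a pair and a partner, for paired columns -/
theorem K_pairs (m : ℕ) (t : ℕ → ℝ) (x r : ℝ) :
    K (m + 1) (2 * m + 1) (ap3 (2 * m) (pr t) (-x) x r) =
      (c2 x - cm x) / 4 * ∏ i ∈ range m, ((c2 (t i) - cm x) / 4) ^ 2 := by
  rw [K_ap3, prod_pr (fun y => s (y - x) * s (-y - x))]
  congr 1
  · rw [← s_neg_mul_s0]
    rw [show -x - x = -(2 * x) by ring, show - -x - x = 0 by ring]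
  · apply prod_congr rfl
    intro i _
    rw [neg_neg, ← s_mul_s]
    ring

theorem ap1_pr_ap3 (m : ℕ) (t t' : ℕ → ℝ) (x v : ℝ) (h : ∀ i < m, t' i = t i) (hx : t' m = x) :
    ap1 (2 * (m + 1)) (pr t') v = ap3 (2 * m) (pr t) (-x) x v := by
  funext j
  unfold ap1 ap3
  by_cases h1 : j < 2 * m
  · rw [if_pos (by omega), if_pos h1]
    unfold pr
    rw [h (j / 2) (by omega)]
  · rw [if_neg h1]
    by_cases h2 : j = 2 * m
    · rw [if_pos h2, if_pos (by omega), h2]
      unfold pr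
      rw [if_pos (by omega), show 2 * m / 2 = m by omega, hx]
    · rw [if_neg h2]
      by_cases h3 : j = 2 * m + 1
      · rw [if_pos h3, if_pos (by omega), h3]
        unfold pr
        rw [if_neg (by omega), show (2 * m + 1) / 2 = m by omega, hx]
      · rw [if_neg h3, if_neg (by omega)]

theorem ap1_congr (n : ℕ) {b b' : ℕ → ℝ} (v : ℝ) (h : ∀ j < n, b j = b' j) :
    ap1 n b v = ap1 n b' v := by
  funext j
  unfold ap1
  split_ifs with hj
  · exact h j hj
  · rfl

theorem pr_congr {m : ℕ} {t t' : ℕ → ℝ} (h : ∀ i < m, t i = t' i) {j : ℕ} (hj : j < 2 * m) :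
    pr t j = pr t' j := by
  unfold pr
  rw [h (j / 2) (by omega)]

/-! ### lists -/

theorem perm_ind {α β : Type*} (F : List α → β) (P : α → Prop)
    (h : ∀ p a b q, (∀ x ∈ p ++ a :: b :: q, P x) → F (p ++ a :: b :: q) = F (p ++ b :: a :: q))
    {l l' : List α} (hl : l.Perm l') (hP : ∀ x ∈ l, P x) : F l = F l' := by
  have key : ∀ {l l' : List α}, l.Perm l' → ∀ p : List α, (∀ x ∈ p ++ l, P x) →
      F (p ++ l) = F (p ++ l') := by
    intro l l' hl
    induction hl with
    | nil => intro p _; rfl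
    | cons x _ ih =>
      intro p hp
      have := ih (p ++ [x]) (by simpa using hp)
      simpa using this
    | swap x y l =>
      intro p hp
      exact h p y x l hp
    | trans h1 h2 ih1 ih2 =>
      intro p hp
      rw [ih1 p hp]
      apply ih2 p
      intro x hx
      apply hp
      rcases List.mem_append.mp hx with h3 | h3
      · exact List.mem_append_left _ h3
      · exact List.mem_append_right _ (h1.symm.subset h3)
  exact key hl [] (by simpa using hP)

/-- the sequence of the entries of a list -/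
def lf (l : List ℝ) : ℕ → ℝ := fun i => l.getD i 0

theorem lf_append_swap (p : List ℝ) (a b : ℝ) (q : List ℝ) :
    lf (p ++ b :: a :: q) = sw p.length (lf (p ++ a :: b :: q)) := by
  funext i
  show (p ++ b :: a :: q).getD i 0 =
    (p ++ a :: b :: q).getD (Equiv.swap p.length (p.length + 1) i) 0
  rcases Nat.lt_trichotomy i p.length with h | h | h
  · rw [Equiv.swap_apply_of_ne_of_ne (by omega) (by omega), List.getD_append _ _ _ _ h,
      List.getD_append _ _ _ _ h]
  · rw [h, Equiv.swap_apply_left, List.getD_append_right _ _ _ _ (le_refl _),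
      List.getD_append_right _ _ _ _ (by omega)]
    simp
  · by_cases h2 : i = p.length + 1
    · rw [h2, Equiv.swap_apply_right, List.getD_append_right _ _ _ _ (le_refl _),
        List.getD_append_right _ _ _ _ (by omega)]
      simp
    · rw [Equiv.swap_apply_of_ne_of_ne (by omega) (by omega),
        List.getD_append_right _ _ _ _ (by omega), List.getD_append_right _ _ _ _ (by omega)]
      obtain ⟨c, hc⟩ : ∃ c, i - p.length = c + 2 := ⟨i - p.length - 2, by omega⟩
      rw [hc]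
      simp

theorem lf_mem {l : List ℝ} {i : ℕ} (hi : i < l.length) : lf l i ∈ l := by
  unfold lf
  rw [List.getD_eq_getElem _ _ hi]
  exact List.getElem_mem hi

theorem lf_append_lt {l l' : List ℝ} {i : ℕ} (hi : i < l.length) : lf (l ++ l') i = lf l i := by
  unfold lf
  exact List.getD_append _ _ _ _ hi

theorem lf_append_last (l : List ℝ) (x : ℝ) : lf (l ++ [x]) l.length = x := by
  unfold lf
  rw [List.getD_append_right _ _ _ _ (le_refl _)]
  simp

theorem prod_lf (f : ℝ → ℝ) (l : List ℝ) : ∏ i ∈ range l.length, f (lf l i) = (l.map f).prod := by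
  induction l with
  | nil => simp
  | cons a l ih =>
    rw [List.length_cons, prod_range_succ', List.map_cons, List.prod_cons, mul_comm]
    congr 1

/-- the crossing amplitude for lists of pairs -/
noncomputable def GW (l₁ : List ℝ) (v : ℝ) (l₂ : List ℝ) (a : ℝ) : ℝ :=
  GG l₁.length l₂.length (lf l₁) v (lf l₂) a

/-- the range of the angles of the pairs -/
def Sm (t : ℝ) : Prop := |t| < π / 6

theorem s_ne_of_Sm {x y : ℝ} (hx : Sm x) (hy : Sm y) :
    s (x - y) ≠ 0 ∧ s (-x - y) ≠ 0 ∧ s (y - x) ≠ 0 ∧ s (x + y) ≠ 0 := by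
  have h1 := abs_lt.mp hx
  have h2 := abs_lt.mp hy
  have hpi := Real.pi_pos
  refine ⟨?_, ?_, ?_, ?_⟩ <;>
  · unfold s
    exact (Real.sin_pos_of_pos_of_lt_pi (by linarith) (by linarith)).ne'

theorem s_two_ne_of_Sm {x : ℝ} (hx : Sm x) : s (2 * x) ≠ 0 ∧ s (-(2 * x)) ≠ 0 := by
  have h1 := abs_lt.mp hx
  have hpi := Real.pi_pos
  refine ⟨?_, ?_⟩ <;>
  · unfold s
    exact (Real.sin_pos_of_pos_of_lt_pi (by linarith) (by linarith)).ne'

theorem GW_perm1 (hC : StPairC) {l₁ l₁' : List ℝ} (h : l₁.Perm l₁') (hS : ∀ x ∈ l₁, Sm x)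
    (v : ℝ) (l₂ : List ℝ) (a : ℝ) : GW l₁ v l₂ a = GW l₁' v l₂ a := by
  refine perm_ind (fun l => GW l v l₂ a) Sm (fun p x y q hp => ?_) h hS
  show GW _ _ _ _ = GW _ _ _ _
  unfold GW GG FF
  have hlen : (p ++ y :: x :: q).length = (p ++ x :: y :: q).length := by simp
  rw [hlen, lf_append_swap p x y q]
  have hi : p.length + 1 < (p ++ x :: y :: q).length := by simp
  have h1 := hp _ (lf_mem (l := p ++ x :: y :: q) (i := p.length) (by omega))
  have h2 := hp _ (lf_mem (l := p ++ x :: y :: q) (i := p.length + 1) hi)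
  obtain ⟨e1, e2, e3, e4⟩ := s_ne_of_Sm h1 h2
  rw [hC _ _ p.length _ _ _ hi e1 e2 e3 e4]

theorem GW_perm2 (hR : StPairR) {l₂ l₂' : List ℝ} (h : l₂.Perm l₂') (hS : ∀ x ∈ l₂, Sm x)
    (l₁ : List ℝ) (v : ℝ) (a : ℝ) : GW l₁ v l₂ a = GW l₁ v l₂' a := by
  refine perm_ind (fun l => GW l₁ v l a) Sm (fun p x y q hp => ?_) h hS
  show GW _ _ _ _ = GW _ _ _ _
  unfold GW GG FF
  have hlen : (p ++ y :: x :: q).length = (p ++ x :: y :: q).length := by simp
  rw [hlen, lf_append_swap p x y q]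
  have hi : p.length + 1 < (p ++ x :: y :: q).length := by simp
  have h1 := hp _ (lf_mem (l := p ++ x :: y :: q) (i := p.length) (by omega))
  have h2 := hp _ (lf_mem (l := p ++ x :: y :: q) (i := p.length + 1) hi)
  obtain ⟨e1, e2, e3, e4⟩ := s_ne_of_Sm h1 h2
  rw [hR _ _ p.length _ _ _ hi e1 e2 e3 e4]

theorem GW_neg1 (hC : StSgnC) (l₁ : List ℝ) {x : ℝ} (hx : Sm x) (v : ℝ) (l₂ : List ℝ) (a : ℝ) :
    GW (l₁ ++ [-x]) v l₂ a = GW (l₁ ++ [x]) v l₂ a := by
  unfold GW GG FF
  have hlen : (l₁ ++ [-x]).length = (l₁ ++ [x]).length := by simp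
  have e : lf (l₁ ++ [-x]) = ng l₁.length (lf (l₁ ++ [x])) := by
    funext i
    unfold ng
    rcases Nat.lt_trichotomy i l₁.length with h | h | h
    · rw [Function.update_of_ne (by omega), lf_append_lt h, lf_append_lt h]
    · rw [h, Function.update_self, lf_append_last, lf_append_last]
    · rw [Function.update_of_ne (by omega)]
      unfold lf
      rw [List.getD_eq_default _ _ (by simp; omega), List.getD_eq_default _ _ (by simp; omega)]
  rw [hlen, e, hC _ _ l₁.length _ _ _ (by simp)]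
  · rw [lf_append_last]; exact (s_two_ne_of_Sm hx).1
  · rw [lf_append_last]; exact (s_two_ne_of_Sm hx).2

theorem GW_neg2 (hR : StSgnR) (l₂ : List ℝ) {x : ℝ} (hx : Sm x) (l₁ : List ℝ) (v a : ℝ) :
    GW l₁ v (l₂ ++ [-x]) a = GW l₁ v (l₂ ++ [x]) a := by
  unfold GW GG FF
  have hlen : (l₂ ++ [-x]).length = (l₂ ++ [x]).length := by simp
  have e : lf (l₂ ++ [-x]) = ng l₂.length (lf (l₂ ++ [x])) := by
    funext i
    unfold ng
    rcases Nat.lt_trichotomy i l₂.length with h | h | h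
    · rw [Function.update_of_ne (by omega), lf_append_lt h, lf_append_lt h]
    · rw [h, Function.update_self, lf_append_last, lf_append_last]
    · rw [Function.update_of_ne (by omega)]
      unfold lf
      rw [List.getD_eq_default _ _ (by simp; omega), List.getD_eq_default _ _ (by simp; omega)]
  rw [hlen, e, hR _ _ l₂.length _ _ _ (by simp)]
  · rw [lf_append_last]; exact (s_two_ne_of_Sm hx).1
  · rw [lf_append_last]; exact (s_two_ne_of_Sm hx).2

theorem GW_cos1 (hV : StPolyV) (l₁ l₂ : List ℝ) {v v' : ℝ} (h : c2 v = c2 v') (a : ℝ) :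
    GW l₁ v l₂ a = GW l₁ v' l₂ a := by
  unfold GW GG
  obtain ⟨P, _, hP⟩ := hV l₁.length l₂.length (pr (lf l₁)) (ap1 (2 * l₂.length) (pr (lf l₂)) a)
  rw [hP v, hP v']
  unfold c2 at h
  rw [h]

theorem GW_cos2 (hA : StPolyA) (l₁ l₂ : List ℝ) (v : ℝ) {a a' : ℝ} (h : c2 a = c2 a') :
    GW l₁ v l₂ a = GW l₁ v l₂ a' := by
  unfold GW GG
  obtain ⟨P, _, hP⟩ := hA l₁.length l₂.length (lf l₁) v (pr (lf l₂))
  rw [hP a, hP a']
  unfold c2 at h
  rw [h]

end LDW
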