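import Pool.Agent.Helper34.LC.WrapA
import Pool.Agent.Helper60.Slit.ZChi

/-!
L-SHAPED CORRIDOR, item D6 (wrapper), part B: the identities for lists of pairs.
-/

set_option autoImplicit false

namespace LDW
open IP Finset Real LD

/-! ### products -/

theorem prod_lf' {l : List ℝ} (f : ℝ → ℝ) : ∏ i ∈ range l.length, f (lf l i) = (l.map f).prod :=
  prod_lf f l

theorem s0_ne : s 0 ≠ 0 := by
  unfold s
  rw [add_zero]
  have hpi := Real.pi_pos
  exact (Real.sin_pos_of_pos_of_lt_pi (by linarith) (by linarith)).ne'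

/-- the product over the rows -/
theorem prod_rows (k : ℕ) (u : ℕ → ℝ) (a x : ℝ) :
    ∏ r ∈ range (2 * k + 1), (s (x - ap1 (2 * k) (pr u) a r + π / 6) *
      s (-x - ap1 (2 * k) (pr u) a r + π / 6)) =
    (c2 x + c2 a) / 4 * ∏ i ∈ range k, ((c2 x + c2 (u i)) / 4) ^ 2 := by
  rw [prod_range_succ]
  have e1 : ap1 (2 * k) (pr u) a (2 * k) = a := by unfold ap1; rw [if_neg (lt_irrefl _)]
  rw [e1, s_row, mul_comm]
  congr 1
  have e2 : ∏ r ∈ range (2 * k), (s (x - ap1 (2 * k) (pr u) a r + π / 6) *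
      s (-x - ap1 (2 * k) (pr u) a r + π / 6)) =
      ∏ r ∈ range (2 * k), (fun y => (c2 x + c2 y) / 4) (pr u r) := by
    apply prod_congr rfl
    intro r hr
    have : ap1 (2 * k) (pr u) a r = pr u r := by unfold ap1; rw [if_pos (mem_range.mp hr)]
    rw [this, s_row]
  rw [e2, prod_pr (fun y => (c2 x + c2 y) / 4)]
  apply prod_congr rfl
  intro i _
  rw [c2_neg]
  ring

/-- the total mass -/
theorem tot_pairs (hT : StTot) (m k : ℕ) (t u : ℕ → ℝ) (v a : ℝ) :
    tot (Lv m k (ap1 (2 * m) (pr t) v) (ap1 (2 * k) (pr u) a)) =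
      Z m (ap1 (2 * m) (pr t) v) * Z k (ap1 (2 * k) (pr u) a) *
        ∏ i ∈ range m, ((c2 (t i) + c2 a) / 4 * ∏ j ∈ range k, ((c2 (t i) + c2 (u j)) / 4) ^ 2) := by
  rw [hT]
  congr 1
  have e2 : ∏ j ∈ range (2 * m), ∏ r ∈ range (2 * k + 1),
      s (ap1 (2 * m) (pr t) v j - ap1 (2 * k) (pr u) a r + π / 6) =
      ∏ j ∈ range (2 * m), (fun y => ∏ r ∈ range (2 * k + 1),
        s (y - ap1 (2 * k) (pr u) a r + π / 6)) (pr t j) := by
    apply prod_congr rfl
    intro j hj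
    have : ap1 (2 * m) (pr t) v j = pr t j := by unfold ap1; rw [if_pos (mem_range.mp hj)]
    rw [this]
  rw [e2, prod_pr (fun y => ∏ r ∈ range (2 * k + 1), s (y - ap1 (2 * k) (pr u) a r + π / 6))]
  apply prod_congr rfl
  intro i _
  rw [← prod_rows, ← prod_mul_distrib]
  apply prod_congr rfl
  intro r _
  ring

/-! ### (R1) -/

theorem R1_list (hR1 : StR1) (hC : StSgnC) (l₁ l₂ : List ℝ) {x : ℝ} (hx : Sm x) (a : ℝ) :
    ((l₁.map fun t => ((c2 t - cp x) / 4) ^ 2).prod) * GW (l₁ ++ [x]) (x + π / 3) l₂ a =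
      ((l₁.map fun t => ((c2 t - cm x) / 4) ^ 2).prod) * GW (l₁ ++ [x]) (-x + π / 3) l₂ a -
      (cm x - cp x) / 4 * (l₁.map fun t => ((c2 t - cp x) / 4) ^ 2).prod *
        (l₁.map fun t => ((c2 t - cm x) / 4) ^ 2).prod *
        ((c2 x + c2 a) / 4 * (l₂.map fun u => ((c2 x + c2 u) / 4) ^ 2).prod) * GW l₁ x l₂ a := by
  have h := congrArg cr (hR1 l₁.length l₂.length (pr (lf l₁)) (ap1 (2 * l₂.length) (pr (lf l₂)) a) x)
  rw [map_sub, map_smul, map_smul, map_smul, smul_eq_mul, smul_eq_mul, smul_eq_mul] at h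
  have hlen : (l₁ ++ [x]).length = l₁.length + 1 := by simp
  have hlen' : (l₁ ++ [-x]).length = l₁.length + 1 := by simp
  have hF1 : cr (Lv (l₁.length + 1) l₂.length (ap3 (2 * l₁.length) (pr (lf l₁)) (-x) x (x + π / 3))
      (ap1 (2 * l₂.length) (pr (lf l₂)) a)) = GW (l₁ ++ [x]) (x + π / 3) l₂ a := by
    unfold GW GG FF
    rw [hlen, ap1_pr_ap3 l₁.length (lf l₁) (lf (l₁ ++ [x])) x _ (fun i hi => lf_append_lt hi)
      (lf_append_last l₁ x)]
  have hF2 : cr (Lv (l₁.length + 1) l₂.length (ap3 (2 * l₁.length) (pr (lf l₁)) x (-x) (-x + π / 3))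
      (ap1 (2 * l₂.length) (pr (lf l₂)) a)) = GW (l₁ ++ [x]) (-x + π / 3) l₂ a := by
    rw [← GW_neg1 hC l₁ hx]
    unfold GW GG FF
    rw [hlen', ap1_pr_ap3 l₁.length (lf l₁) (lf (l₁ ++ [-x])) (-x) _ (fun i hi => lf_append_lt hi)
      (lf_append_last l₁ (-x)), neg_neg]
  have hF3 : cr (Lv l₁.length l₂.length (ap1 (2 * l₁.length) (pr (lf l₁)) x)
      (ap1 (2 * l₂.length) (pr (lf l₂)) a)) = GW l₁ x l₂ a := rfl
  have hK1 : K (l₁.length + 1) (2 * l₁.length + 1)
      (ap3 (2 * l₁.length) (pr (lf l₁)) (-x) x (x + π / 3)) =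
      (s (-(2 * x)) * s 0) * (l₁.map fun t => ((c2 t - cm x) / 4) ^ 2).prod := by
    rw [K_pairs, ← s_neg_mul_s0, prod_lf' (fun t => ((c2 t - cm x) / 4) ^ 2)]
  have hK2 : K (l₁.length + 1) (2 * l₁.length + 1)
      (ap3 (2 * l₁.length) (pr (lf l₁)) x (-x) (-x + π / 3)) =
      (s (2 * x) * s 0) * (l₁.map fun t => ((c2 t - cp x) / 4) ^ 2).prod := by
    have h1 := K_pairs l₁.length (lf l₁) (-x) (-x + π / 3)
    rw [neg_neg, cm_neg, c2_neg, ← s_mul_s0, prod_lf' (fun t => ((c2 t - cp x) / 4) ^ 2)] at h1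
    exact h1
  rw [hF1, hF2, hF3, hK1, hK2, prod_rows, prod_lf' (fun u => ((c2 x + c2 u) / 4) ^ 2)] at h
  obtain ⟨n1, n2⟩ := s_two_ne_of_Sm hx
  have n3 := s0_ne
  have hc : s (2 * x) * s (-(2 * x)) * s 0 ≠ 0 := mul_ne_zero (mul_ne_zero n1 n2) n3
  apply mul_left_cancel₀ hc
  rw [← sin_mul_s0]
  linear_combination h

/-! ### (N) -/

theorem N_list (hN : StN) (l₁ l₂ : List ℝ) (y v : ℝ) :
    GW l₁ v (l₂ ++ [y]) (y + π / 3) =
      ((c2 y - cm y) / 4 * (l₂.map fun u => ((c2 u - cm y) / 4) ^ 2).prod) *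
        (l₁.map fun t => ((c2 t + c2 y) / 4 * ((c2 t + cp y) / 4))).prod * GW l₁ v l₂ (-y) := by
  have h := congrArg cr (hN l₁.length l₂.length (ap1 (2 * l₁.length) (pr (lf l₁)) v) (pr (lf l₂)) y)
  rw [map_smul, smul_eq_mul] at h
  have hlen : (l₂ ++ [y]).length = l₂.length + 1 := by simp
  have hF1 : cr (Lv l₁.length (l₂.length + 1) (ap1 (2 * l₁.length) (pr (lf l₁)) v)
      (ap3 (2 * l₂.length) (pr (lf l₂)) (-y) y (y + π / 3))) = GW l₁ v (l₂ ++ [y]) (y + π / 3) := by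
    unfold GW GG FF
    rw [hlen, ap1_pr_ap3 l₂.length (lf l₂) (lf (l₂ ++ [y])) y _ (fun i hi => lf_append_lt hi)
      (lf_append_last l₂ y)]
  have hF2 : cr (Lv l₁.length l₂.length (ap1 (2 * l₁.length) (pr (lf l₁)) v)
      (ap1 (2 * l₂.length) (pr (lf l₂)) (-y))) = GW l₁ v l₂ (-y) := rfl
  have hP : ∏ j ∈ range (2 * l₁.length), (s (ap1 (2 * l₁.length) (pr (lf l₁)) v j - y + π / 6) *
      s (ap1 (2 * l₁.length) (pr (lf l₁)) v j - y - π / 6)) =
      (l₁.map fun t => ((c2 t + c2 y) / 4 * ((c2 t + cp y) / 4))).prod := by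
    have e1 : ∏ j ∈ range (2 * l₁.length), (s (ap1 (2 * l₁.length) (pr (lf l₁)) v j - y + π / 6) *
        s (ap1 (2 * l₁.length) (pr (lf l₁)) v j - y - π / 6)) =
        ∏ j ∈ range (2 * l₁.length), (fun z => s (z - y + π / 6) * s (z - y - π / 6))
          (pr (lf l₁) j) := by
      apply prod_congr rfl
      intro j hj
      have : ap1 (2 * l₁.length) (pr (lf l₁)) v j = pr (lf l₁) j := by
        unfold ap1; rw [if_pos (mem_range.mp hj)]
      rw [this]
    rw [e1, prod_pr (fun z => s (z - y + π / 6) * s (z - y - π / 6)),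
      ← prod_lf' (fun t => ((c2 t + c2 y) / 4 * ((c2 t + cp y) / 4)))]
    apply prod_congr rfl
    intro i _
    rw [← s_rowN]
  rw [hF1, hF2, hP, K_pairs, prod_lf' (fun t => ((c2 t - cm y) / 4) ^ 2)] at h
  exact h

/-! ### (S) -/

theorem lf_reverse (l : List ℝ) {i : ℕ} (hi : i < l.length) :
    lf l.reverse i = lf l (l.length - 1 - i) := by
  unfold lf
  rw [List.getD_eq_getElem _ _ (by rw [List.length_reverse]; exact hi),
    List.getD_eq_getElem _ _ (by omega), List.getElem_reverse]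

/-- the reversed sequence of pairs -/
theorem ap1_reverse (l : List ℝ) (x : ℝ) {j : ℕ} (hj : j ≤ 2 * l.length) :
    -(LD.cons (-x) (pr (lf l))) (2 * l.length - j) =
      ap1 (2 * l.reverse.length) (pr (lf l.reverse)) x j := by
  rw [List.length_reverse]
  unfold LD.cons ap1
  by_cases h : j < 2 * l.length
  · rw [if_neg (by omega), if_pos h]
    unfold pr
    rw [lf_reverse l (by omega : j / 2 < l.length)]
    by_cases h2 : j % 2 = 0
    · rw [if_pos h2, if_neg (by omega),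
        show (2 * l.length - j - 1) / 2 = l.length - 1 - j / 2 by omega]
    · rw [if_neg h2, if_pos (by omega),
        show (2 * l.length - j - 1) / 2 = l.length - 1 - j / 2 by omega, neg_neg]
  · rw [if_pos (by omega), if_neg h, neg_neg]

theorem V_congr (n : ℕ) {b b' : ℕ → ℝ} (h : ∀ j < 2 * n + 1, b j = b' j) : V n b = V n b' := by
  ext σ
  exact (V_Sep n σ).2 b b' h

theorem Z_congr (n : ℕ) {b b' : ℕ → ℝ} (h : ∀ j < 2 * n + 1, b j = b' j) : Z n b = Z n b' :=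
  (Z_Sep n).2 b b' h

theorem DR_congr (n : ℕ) {b b' : ℕ → ℝ} (h : ∀ j < n, b j = b' j) (p q : ℝ) :
    DR n b p q = DR n b' p q := by
  unfold DR
  rw [row_congr 3 n (b := fun j => b j - q) (b' := fun j => b' j - q) (fun j hj => by
      simp only [h j hj]),
    row_congr 2 n (b := fun j => b j - p) (b' := fun j => b' j - p) (fun j hj => by
      simp only [h j hj])]

theorem rows_congr (n : ℕ) {b b' β β' : ℕ → ℝ} (h : ∀ j < n, b j = b' j) (k : ℕ)
    (hβ : ∀ j < 2 * k, β j = β' j) : rows n b β k = rows n b' β' k := by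
  induction k with
  | zero => rfl
  | succ k ih =>
    show DR n b (β (2 * k)) (β (2 * k + 1)) ∘ₗ rows n b β k =
      DR n b' (β' (2 * k)) (β' (2 * k + 1)) ∘ₗ rows n b' β' k
    rw [ih (fun j hj => hβ j (by omega)), DR_congr n h, hβ (2 * k) (by omega),
      hβ (2 * k + 1) (by omega)]

theorem Lv_congr (m k : ℕ) {b b' β β' : ℕ → ℝ} (h : ∀ j < 2 * m + 1, b j = b' j)
    (hβ : ∀ j < 2 * k + 1, β j = β' j) : Lv m k b β = Lv m k b' β' := by
  unfold Lv LD.Rc
  rw [V_congr m h, V_congr k hβ, rows_congr (2 * m) (fun j hj => h j (by omega)) k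
    (fun j hj => hβ j (by omega)), hβ (2 * k) (by omega),
    row_congr 2 (2 * m) (b := fun j => b j - β' (2 * k)) (b' := fun j => b' j - β' (2 * k))
      (fun j hj => by simp only [h j (by omega)])]

/-- the total mass for lists of pairs -/
noncomputable def TW (l₁ : List ℝ) (v : ℝ) (l₂ : List ℝ) (a : ℝ) : ℝ :=
  tot (Lv l₁.length l₂.length (ap1 (2 * l₁.length) (pr (lf l₁)) v)
    (ap1 (2 * l₂.length) (pr (lf l₂)) a))

/-- `Z` for a list of pairs -/
noncomputable def ZW (l : List ℝ) (v : ℝ) : ℝ := Z l.length (ap1 (2 * l.length) (pr (lf l)) v)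

theorem TW_eq (hT : StTot) (l₁ : List ℝ) (v : ℝ) (l₂ : List ℝ) (a : ℝ) :
    TW l₁ v l₂ a = ZW l₁ v * ZW l₂ a *
      (l₁.map fun t => ((c2 t + c2 a) / 4 * (l₂.map fun u => ((c2 t + c2 u) / 4) ^ 2).prod)).prod := by
  unfold TW ZW
  rw [tot_pairs hT]
  congr 1
  rw [← prod_lf' (fun t => ((c2 t + c2 a) / 4 * (l₂.map fun u => ((c2 t + c2 u) / 4) ^ 2).prod))]
  apply prod_congr rfl
  intro i _
  rw [← prod_lf' (fun u => ((c2 (lf l₁ i) + c2 u) / 4) ^ 2)]

theorem S_list (hS : StS1) (hD : StDual) (hR : StPairR) (hCp : StPairC) (l₁ l₂ : List ℝ) (x : ℝ)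
    (h1 : ∀ t ∈ l₁, Sm t) (h2 : ∀ t ∈ l₂, Sm t) :
    GW (l₁ ++ [-x]) (-x + π / 3) l₂ (x + π / 6) = TW (l₁ ++ [-x]) (-x + π / 3) l₂ (x + π / 6) -
      ((c2 x - cp x) / 4 * (l₁.map fun t => ((c2 t - cp x) / 4) ^ 2).prod * ((c2 x - cm x) / 4) *
        (l₁.map fun t => (c2 t - cm x) / 4).prod * (l₂.map fun u => (c2 x + c2 u) / 4).prod) *
      GW l₂ (x + π / 6) l₁ (-x) := by
  have hlen' : (l₁ ++ [-x]).length = l₁.length + 1 := by simp
  have hL : Lv (l₁.length + 1) l₂.length (ap3 (2 * l₁.length) (pr (lf l₁)) x (-x) (-x + π / 3))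
      (ap1 (2 * l₂.length) (pr (lf l₂)) (x + π / 6)) =
      Lv (l₁ ++ [-x]).length l₂.length (ap1 (2 * (l₁ ++ [-x]).length) (pr (lf (l₁ ++ [-x])))
        (-x + π / 3)) (ap1 (2 * l₂.length) (pr (lf l₂)) (x + π / 6)) := by
    rw [hlen', ap1_pr_ap3 l₁.length (lf l₁) (lf (l₁ ++ [-x])) (-x) _ (fun i hi => lf_append_lt hi)
      (lf_append_last l₁ (-x)), neg_neg]
  have hs := hS l₁.length l₂.length (pr (lf l₁)) (pr (lf l₂)) x
  rw [hL] at hs
  have hd := hD l₁.length l₂.length (LD.cons x (pr (lf l₁))) (LD.cons (-(x + π / 6)) (pr (lf l₂)))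
  -- the transposed corridor
  have hF : cr (Lv l₂.length l₁.length
      (fun j => -LD.cons (-(x + π / 6)) (pr (lf l₂)) (2 * l₂.length - j))
      (fun j => -LD.cons x (pr (lf l₁)) (2 * l₁.length - j))) = GW l₂ (x + π / 6) l₁ (-x) := by
    have e : Lv l₂.length l₁.length
        (fun j => -LD.cons (-(x + π / 6)) (pr (lf l₂)) (2 * l₂.length - j))
        (fun j => -LD.cons x (pr (lf l₁)) (2 * l₁.length - j)) =
        Lv l₂.reverse.length l₁.reverse.length
          (ap1 (2 * l₂.reverse.length) (pr (lf l₂.reverse)) (x + π / 6))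
          (ap1 (2 * l₁.reverse.length) (pr (lf l₁.reverse)) (-x)) := by
      have e1 : l₂.reverse.length = l₂.length := List.length_reverse
      have e2 : l₁.reverse.length = l₁.length := List.length_reverse
      rw [e1, e2]
      apply Lv_congr
      · intro j hj
        have := ap1_reverse l₂ (x + π / 6) (j := j) (by omega)
        rw [e1] at this
        exact this
      · intro j hj
        have := ap1_reverse l₁ (-x) (j := j) (by omega)
        rw [e2, neg_neg] at this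
        exact this
    rw [e]
    show GW l₂.reverse (x + π / 6) l₁.reverse (-x) = _
    rw [GW_perm1 hCp (List.reverse_perm l₂) (fun t ht => h2 t (List.mem_reverse.mp ht)),
      GW_perm2 hR (List.reverse_perm l₁) (fun t ht => h1 t (List.mem_reverse.mp ht))]
  rw [hF] at hd
  have hc := congrArg cr hs
  have ht := congrArg tot hs
  rw [map_smul, smul_eq_mul] at hc ht
  have hG : cr (Lv (l₁ ++ [-x]).length l₂.length (ap1 (2 * (l₁ ++ [-x]).length)
      (pr (lf (l₁ ++ [-x]))) (-x + π / 3)) (ap1 (2 * l₂.length) (pr (lf l₂)) (x + π / 6))) =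
      GW (l₁ ++ [-x]) (-x + π / 3) l₂ (x + π / 6) := rfl
  have hT : tot (Lv (l₁ ++ [-x]).length l₂.length (ap1 (2 * (l₁ ++ [-x]).length)
      (pr (lf (l₁ ++ [-x]))) (-x + π / 3)) (ap1 (2 * l₂.length) (pr (lf l₂)) (x + π / 6))) =
      TW (l₁ ++ [-x]) (-x + π / 3) l₂ (x + π / 6) := rfl
  rw [hG] at hc
  rw [hT] at ht
  have hK2 : K (l₁.length + 1) (2 * l₁.length + 1)
      (ap3 (2 * l₁.length) (pr (lf l₁)) x (-x) (-x + π / 3)) =
      (c2 x - cp x) / 4 * (l₁.map fun t => ((c2 t - cp x) / 4) ^ 2).prod := by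
    have h1 := K_pairs l₁.length (lf l₁) (-x) (-x + π / 3)
    rw [neg_neg, cm_neg, c2_neg, prod_lf' (fun t => ((c2 t - cp x) / 4) ^ 2)] at h1
    exact h1
  have hP1 : ∏ j ∈ range (2 * l₁.length), s (pr (lf l₁) j - x) =
      (l₁.map fun t => (c2 t - cm x) / 4).prod := by
    rw [prod_pr (fun y => s (y - x)), ← prod_lf' (fun t => (c2 t - cm x) / 4)]
    apply prod_congr rfl
    intro i _
    rw [← s_mul_s]
    ring
  have hP2 : ∏ r ∈ range (2 * l₂.length), s (-x - pr (lf l₂) r + π / 6) =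
      (l₂.map fun u => (c2 x + c2 u) / 4).prod := by
    rw [prod_pr (fun y => s (-x - y + π / 6)), ← prod_lf' (fun u => (c2 x + c2 u) / 4)]
    apply prod_congr rfl
    intro i _
    have h := s_row (-x) (lf l₂ i)
    rw [c2_neg] at h
    rw [← h, s_pi6, s_pi6, s_pi6]
    rw [show -x - -lf l₂ i = -(- -x - lf l₂ i) by ring, Real.cos_neg]
    ring
  rw [hK2, hP1, hP2] at hc ht
  rw [hc, ht, ← hd, ← s_neg_mul_s0]
  ring

end LDW
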