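import Pool.Agent.Helper34.LC.WrapB
import Pool.Agent.Helper25.LC.Fin

/-!
L-SHAPED CORRIDOR, item D6 (wrapper), part C: the amplitude on finite sets; the four facts of `AmpOn` near the
homogeneous point.
-/

set_option autoImplicit false

namespace LDW
open IP Finset Real LD LCA LCB

/-- the statements of part [D] -/
structure Facts : Prop where
  T : StTot
  R1 : StR1
  N : StN
  S1 : StS1
  D : StDual
  PC : StPairC
  PR : StPairR
  SC : StSgnC
  SR : StSgnR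
  V : StPolyV
  A : StPolyA

/-- the angle of an x-variable -/
noncomputable def tt (x : ℝ) : ℝ := Real.arccos (x / 2) / 2

theorem c2_tt {x : ℝ} (h : x ∈ II) : c2 (tt x) = x := by
  have h1 : -2 ≤ x := h.1
  have h2 : x ≤ 2 := h.2
  unfold c2 tt
  rw [show 2 * (Real.arccos (x / 2) / 2) = Real.arccos (x / 2) by ring,
    Real.cos_arccos (by linarith) (by linarith)]
  ring

theorem Sm_tt {x : ℝ} (h : 1 < x) : Sm (tt x) := by
  have h1 : Real.arccos (x / 2) < π / 3 := by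
    rw [← Real.arccos_cos (by have := Real.pi_pos; linarith : 0 ≤ π / 3)
      (by have := Real.pi_pos; linarith : π / 3 ≤ π), Real.cos_pi_div_three]
    rcases lt_or_ge (x / 2) 1 with h2 | h2
    · exact Real.arccos_lt_arccos (by norm_num) (by linarith) h2.le
    · rw [Real.arccos_of_one_le h2]
      exact Real.arccos_pos.mpr (by norm_num)
  have h2 := Real.arccos_nonneg (x / 2)
  unfold Sm tt
  rw [abs_of_nonneg (by linarith)]
  linarith

/-- the angles of the columns -/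
noncomputable def lB (B : Finset ℝ) : List ℝ := B.toList.map tt
/-- the angles of the rows -/
noncomputable def lY (Y : Finset ℝ) : List ℝ := Y.toList.map (fun y => tt (-y))

theorem lB_length (B : Finset ℝ) : (lB B).length = B.card := by simp [lB]
theorem lY_length (B : Finset ℝ) : (lY B).length = B.card := by simp [lY]

theorem lB_Sm {B : Finset ℝ} (h : ∀ b ∈ B, 1 < b) : ∀ t ∈ lB B, Sm t := by
  intro t ht
  obtain ⟨b, hb, rfl⟩ := List.mem_map.mp ht
  exact Sm_tt (h b (Finset.mem_toList.mp hb))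

theorem lY_Sm {B : Finset ℝ} (h : ∀ b ∈ B, b < -1) : ∀ t ∈ lY B, Sm t := by
  intro t ht
  obtain ⟨b, hb, rfl⟩ := List.mem_map.mp ht
  have := h b (Finset.mem_toList.mp hb)
  exact Sm_tt (by linarith)

theorem toList_perm {B : Finset ℝ} {b : ℝ} (hb : b ∈ B) :
    (B.toList).Perm ((B.erase b).toList ++ [b]) := by
  have h1 : (insert b (B.erase b)).toList.Perm (b :: (B.erase b).toList) :=
    Finset.toList_insert (Finset.notMem_erase b B)
  rw [Finset.insert_erase hb] at h1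
  exact h1.trans (List.perm_append_singleton b _).symm

theorem lB_perm {B : Finset ℝ} {b : ℝ} (hb : b ∈ B) :
    (lB B).Perm (lB (B.erase b) ++ [tt b]) := by
  have := (toList_perm hb).map tt
  simpa [lB] using this

theorem lY_perm {B : Finset ℝ} {b : ℝ} (hb : b ∈ B) :
    (lY B).Perm (lY (B.erase b) ++ [tt (-b)]) := by
  have := (toList_perm hb).map (fun y => tt (-y))
  simpa [lY] using this

theorem prod_lB (B : Finset ℝ) (f : ℝ → ℝ) (hB : ∀ b ∈ B, b ∈ II) :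
    ((lB B).map fun t => f (c2 t)).prod = ∏ b ∈ B, f b := by
  unfold lB
  rw [List.map_map, Finset.prod_map_toList]
  apply Finset.prod_congr rfl
  intro b hb
  show f (c2 (tt b)) = f b
  rw [c2_tt (hB b hb)]

theorem prod_lY (B : Finset ℝ) (f : ℝ → ℝ) (hB : ∀ b ∈ B, b ∈ II) :
    ((lY B).map fun t => f (c2 t)).prod = ∏ b ∈ B, f (-b) := by
  unfold lY
  rw [List.map_map, Finset.prod_map_toList]
  apply Finset.prod_congr rfl
  intro b hb
  show f (c2 (tt (-b))) = f (-b)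
  have h := hB b hb
  rw [c2_tt ⟨by linarith [h.2], by linarith [h.1]⟩]

/-- the numerator of the crossing probability, columns near `2`, rows near `-2` -/
noncomputable def AI (B : Finset ℝ) (v : ℝ) (Y : Finset ℝ) (a : ℝ) : ℝ :=
  (-1) ^ Y.card * 4 ^ ((B.card + Y.card) ^ 2 + B.card) *
    GW (lB B) (tt v) (lY Y) (tt (-a)) / ∏ b ∈ B, ∏ y ∈ Y, (b - y) ^ 2

/-- the first type of pairs of sets -/
def TI (B Y : Finset ℝ) : Prop := (∀ b ∈ B, 1 < b ∧ b < 2) ∧ ∀ y ∈ Y, -2 < y ∧ y < -1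

theorem TI.II1 {B Y : Finset ℝ} (h : TI B Y) : ∀ b ∈ B, b ∈ II := fun b hb =>
  ⟨by linarith [(h.1 b hb).1], by linarith [(h.1 b hb).2]⟩

theorem TI.II2 {B Y : Finset ℝ} (h : TI B Y) : ∀ b ∈ Y, b ∈ II := fun b hb =>
  ⟨by linarith [(h.2 b hb).1], by linarith [(h.2 b hb).2]⟩

theorem TI.e1 {B Y : Finset ℝ} (h : TI B Y) (b : ℝ) : TI (B.erase b) Y :=
  ⟨fun x hx => h.1 x (Finset.mem_of_mem_erase hx), h.2⟩

theorem TI.e2 {B Y : Finset ℝ} (h : TI B Y) (b : ℝ) : TI B (Y.erase b) :=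
  ⟨h.1, fun x hx => h.2 x (Finset.mem_of_mem_erase hx)⟩

/-- the choice of the sign of the angle -/
theorem angle_choice {b p q : ℝ} (hb : b ∈ II) (hP : Par b p q) :
    ∃ x, (x = tt b ∨ x = -tt b) ∧ c2 x = b ∧ cp x = p ∧ cm x = q := by
  have h1 := par_c (tt b)
  rw [c2_tt hb] at h1
  have hq : ∀ {p' q' : ℝ}, Par b p' q' → p = p' → q = q' := by
    intro p' q' h hp
    have e1 := h.1
    have e2 := hP.1
    rw [hp] at e2
    linarith
  rcases Par.eq_of h1 hP with h | h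
  · exact ⟨tt b, Or.inl rfl, c2_tt hb, h.symm, (hq h1 h).symm⟩
  · refine ⟨-tt b, Or.inr rfl, by rw [c2_neg, c2_tt hb], by rw [cp_neg]; exact h.symm, ?_⟩
    rw [cm_neg]
    exact (hq h1.symm h).symm

theorem GW_choice1 (F : Facts) {b x : ℝ} (hb : 1 < b) (hx : x = tt b ∨ x = -tt b) (l₁ l₂ : List ℝ)
    (v a : ℝ) : GW (l₁ ++ [x]) v l₂ a = GW (l₁ ++ [tt b]) v l₂ a := by
  rcases hx with rfl | rfl
  · rfl
  · exact GW_neg1 F.SC l₁ (Sm_tt hb) v l₂ a

theorem GW_choice2 (F : Facts) {b x : ℝ} (hb : 1 < b) (hx : x = tt b ∨ x = -tt b) (l₁ l₂ : List ℝ)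
    (v a : ℝ) : GW l₁ v (l₂ ++ [x]) a = GW l₁ v (l₂ ++ [tt b]) a := by
  rcases hx with rfl | rfl
  · rfl
  · exact GW_neg2 F.SR l₂ (Sm_tt hb) l₁ v a

theorem Sm_choice {b x : ℝ} (hb : 1 < b) (hx : x = tt b ∨ x = -tt b) : Sm x := by
  rcases hx with rfl | rfl
  · exact Sm_tt hb
  · have := Sm_tt hb
    unfold Sm at this ⊢
    rwa [abs_neg]

theorem c2_add (x : ℝ) : c2 (x + π / 3) = cp x := by
  unfold c2 cp
  congr 2
  ring

theorem c2_sub (x : ℝ) : c2 (-x + π / 3) = cm x := by rw [c2_add, cp_neg]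

theorem c2_six (x : ℝ) : c2 (x + π / 6) = -cm x := by
  unfold c2 cm
  rw [show 2 * (x + π / 6) = (2 * x - 2 * π / 3) + π by ring, Real.cos_add_pi]
  ring

theorem neg_mem_II {x : ℝ} (h : x ∈ II) : -x ∈ II := ⟨by linarith [h.2], by linarith [h.1]⟩

theorem prod_sub_ne {B Y : Finset ℝ} (h : TI B Y) : (∏ b ∈ B, ∏ y ∈ Y, (b - y) ^ 2) ≠ 0 := by
  rw [Finset.prod_ne_zero_iff]
  intro b hb
  rw [Finset.prod_ne_zero_iff]
  intro y hy
  have h1 := h.1 b hb
  have h2 := h.2 y hy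
  exact pow_ne_zero 2 (by linarith)

theorem prod_div_pow {ι : Type*} (S : Finset ι) (f : ι → ℝ) :
    ∏ z ∈ S, (f z / 4) ^ 2 = (∏ z ∈ S, f z ^ 2) / 16 ^ S.card := by
  rw [← Finset.prod_const, ← Finset.prod_div_distrib]
  apply Finset.prod_congr rfl
  intro z _
  ring

theorem prod_div_four {ι : Type*} (S : Finset ι) (f : ι → ℝ) :
    ∏ z ∈ S, (f z / 4) = (∏ z ∈ S, f z) / 4 ^ S.card := by
  rw [← Finset.prod_const, ← Finset.prod_div_distrib]

theorem alg_r1 {c w A16 B16 Fp Fq F0 Pz Qz E D b p q a : ℝ} (hE : E ≠ 0) (hD : D ≠ 0)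
    (hA : A16 ≠ 0) (hB : B16 ≠ 0)
    (hR : Pz / A16 * Fp = Qz / A16 * Fq -
      (q - p) / 4 * (Pz / A16) * (Qz / A16) * ((b + -a) / 4 * (E / B16)) * F0) :
    (c * (w * A16 * B16 * 16) * Fp / (E * D) - (b - q) * Qz * (b - a) * (c * w * F0 / D)) * Pz =
      (c * (w * A16 * B16 * 16) * Fq / (E * D) - (b - p) * Pz * (b - a) * (c * w * F0 / D)) * Qz := by
  have h1 : 16 * A16 * B16 * (Pz * Fp - Qz * Fq) = -(q - p) * (b - a) * Pz * Qz * E * F0 := by
    field_simp at hR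
    linear_combination hR
  field_simp
  linear_combination (c * w) * h1

/-- (R1) for the first type -/
theorem r1_I (F : Facts) {B Y : Finset ℝ} (h : TI B Y) {b : ℝ} (hb : b ∈ B) {p q : ℝ}
    (hP : Par b p q) {a : ℝ} (ha : a ∈ II) :
    (AI B p Y a - wt b q (B.erase b) * (b - a) * AI (B.erase b) b Y a) *
        ∏ z ∈ B.erase b, (z - p) ^ 2 =
      (AI B q Y a - wt b p (B.erase b) * (b - a) * AI (B.erase b) b Y a) *
        ∏ z ∈ B.erase b, (z - q) ^ 2 := by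
  obtain ⟨x, hx, hxb, hxp, hxq⟩ := angle_choice (h.II1 b hb) hP
  have hb1 := (h.1 b hb).1
  have hpII := hP.mem_II
  have hcard : B.card = (B.erase b).card + 1 := (Finset.card_erase_add_one hb).symm
  set l₁ := lB (B.erase b) with hl₁
  set l₂ := lY Y with hl₂
  have hR := R1_list F.R1 F.SC l₁ l₂ (Sm_choice hb1 hx) (tt (-a))
  have hFp : GW (lB B) (tt p) l₂ (tt (-a)) = GW (l₁ ++ [x]) (x + π / 3) l₂ (tt (-a)) := by
    rw [GW_choice1 F hb1 hx, GW_perm1 F.PC (lB_perm hb) (lB_Sm fun z hz => (h.1 z hz).1)]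
    exact GW_cos1 F.V _ _ (by rw [c2_add, hxp, c2_tt hpII.1]) _
  have hFq : GW (lB B) (tt q) l₂ (tt (-a)) = GW (l₁ ++ [x]) (-x + π / 3) l₂ (tt (-a)) := by
    rw [GW_choice1 F hb1 hx, GW_perm1 F.PC (lB_perm hb) (lB_Sm fun z hz => (h.1 z hz).1)]
    exact GW_cos1 F.V _ _ (by rw [c2_sub, hxq, c2_tt hpII.2]) _
  have hF0 : GW l₁ (tt b) l₂ (tt (-a)) = GW l₁ x l₂ (tt (-a)) :=
    GW_cos1 F.V _ _ (by rw [hxb, c2_tt (h.II1 b hb)]) _
  have hP1 : (l₁.map fun t => ((c2 t - cp x) / 4) ^ 2).prod =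
      (∏ z ∈ B.erase b, (z - p) ^ 2) / 16 ^ (B.erase b).card := by
    rw [hl₁, prod_lB (B.erase b) (fun z => ((z - cp x) / 4) ^ 2) (h.e1 b).II1, hxp, prod_div_pow]
  have hP2 : (l₁.map fun t => ((c2 t - cm x) / 4) ^ 2).prod =
      (∏ z ∈ B.erase b, (z - q) ^ 2) / 16 ^ (B.erase b).card := by
    rw [hl₁, prod_lB (B.erase b) (fun z => ((z - cm x) / 4) ^ 2) (h.e1 b).II1, hxq, prod_div_pow]
  have hP3 : (l₂.map fun u => ((c2 x + c2 u) / 4) ^ 2).prod =
      (∏ y ∈ Y, (b - y) ^ 2) / 16 ^ Y.card := by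
    rw [hl₂, prod_lY Y (fun z => ((c2 x + z) / 4) ^ 2) h.II2, hxb, prod_div_pow]
    congr 1
  rw [← hFp, ← hFq, ← hF0, hP1, hP2, hP3, hxp, hxq, hxb, c2_tt (neg_mem_II ha)] at hR
  unfold AI wt
  rw [hcard, ← Finset.mul_prod_erase B (fun b => ∏ y ∈ Y, (b - y) ^ 2) hb]
  have hD := prod_sub_ne (h.e1 b)
  have hE : ∏ y ∈ Y, (b - y) ^ 2 ≠ 0 := by
    rw [Finset.prod_ne_zero_iff]
    intro y hy
    have h1 := h.2 y hy
    exact pow_ne_zero 2 (by linarith)
  have hpow : (4 : ℝ) ^ (((B.erase b).card + 1 + Y.card) ^ 2 + ((B.erase b).card + 1)) =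
      4 ^ (((B.erase b).card + Y.card) ^ 2 + (B.erase b).card) * 16 ^ (B.erase b).card *
        16 ^ Y.card * 16 := by
    rw [show (16 : ℝ) = 4 ^ 2 by norm_num, ← pow_mul, ← pow_mul, ← pow_add, ← pow_add, ← pow_add]
    congr 1
    ring
  rw [hpow]
  exact alg_r1 hE hD (by positivity) (by positivity) hR

theorem alg_nn {c w A16 B16 F F0 Qw R1 R2 E D y q : ℝ} (hE : R1 ≠ 0) (hD : D ≠ 0)
    (hA : A16 ≠ 0) (hB : B16 ≠ 0)
    (hR : F = (-y - -q) / 4 * (Qw / A16) * (R1 * R2 / B16) * F0) (hEE : E = R1 ^ 2) :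
    R1 * (-c * (w * A16 * B16 * 4) * F / (E * D)) = (y - q) * Qw * R2 * (c * w * F0 / D) := by
  rw [hR, hEE]
  field_simp
  ring

/-- (N) for the first type -/
theorem nn_I (F : Facts) {B Y : Finset ℝ} (h : TI B Y) {y : ℝ} (hy : y ∈ Y) {p q : ℝ}
    (hP : Par y p q) (v : ℝ) :
    (∏ j ∈ B, (j - y)) * AI B v Y p =
      wt y q (Y.erase y) * (∏ j ∈ B, (j - p)) * AI B v (Y.erase y) y := by
  have hyII := h.II2 y hy
  have hP' : Par (-y) (-p) (-q) := ⟨by linarith [hP.1], by linarith [hP.2]⟩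
  obtain ⟨x, hx, hxb, hxp, hxq⟩ := angle_choice (neg_mem_II hyII) hP'
  have hy1 : 1 < -y := by linarith [(h.2 y hy).2]
  have hpII := hP.mem_II
  have hcard : Y.card = (Y.erase y).card + 1 := (Finset.card_erase_add_one hy).symm
  set l₁ := lB B with hl₁
  set l₂ := lY (Y.erase y) with hl₂
  have hR := N_list F.N l₁ l₂ x (tt v)
  have hFp : GW l₁ (tt v) (lY Y) (tt (-p)) = GW l₁ (tt v) (l₂ ++ [x]) (x + π / 3) := by
    rw [GW_choice2 F hy1 hx, GW_perm2 F.PR (lY_perm hy) (lY_Sm fun z hz => (h.2 z hz).2)]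
    exact GW_cos2 F.A _ _ _ (by rw [c2_add, hxp, c2_tt (neg_mem_II hpII.1)])
  have hF0 : GW l₁ (tt v) l₂ (tt (-y)) = GW l₁ (tt v) l₂ (-x) :=
    GW_cos2 F.A _ _ _ (by rw [c2_neg, hxb, c2_tt (neg_mem_II hyII)])
  have hP1 : (l₂.map fun u => ((c2 u - cm x) / 4) ^ 2).prod =
      (∏ z ∈ Y.erase y, (z - q) ^ 2) / 16 ^ (Y.erase y).card := by
    rw [hl₂, prod_lY (Y.erase y) (fun z => ((z - cm x) / 4) ^ 2) (h.e2 y).II2, hxq, prod_div_pow]
    congr 1
    apply Finset.prod_congr rfl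
    intro z _
    ring
  have hP2 : (l₁.map fun t => ((c2 t + c2 x) / 4 * ((c2 t + cp x) / 4))).prod =
      ((∏ z ∈ B, (z - y)) * ∏ z ∈ B, (z - p)) / 16 ^ B.card := by
    rw [hl₁, prod_lB B (fun z => (z + c2 x) / 4 * ((z + cp x) / 4)) h.II1, hxb, hxp,
      Finset.prod_mul_distrib, prod_div_four, prod_div_four, div_mul_div_comm, ← mul_pow]
    norm_num [sub_eq_add_neg]
  rw [← hFp, ← hF0, hP1, hP2, hxq, hxb] at hR
  have hD := prod_sub_ne (h.e2 y)
  have hE : ∏ j ∈ B, (j - y) ≠ 0 := by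
    rw [Finset.prod_ne_zero_iff]
    intro z hz
    have h1 := h.1 z hz
    have h2 := h.2 y hy
    linarith
  have hpow : (4 : ℝ) ^ ((B.card + ((Y.erase y).card + 1)) ^ 2 + B.card) =
      4 ^ ((B.card + (Y.erase y).card) ^ 2 + B.card) * 16 ^ (Y.erase y).card *
        16 ^ B.card * 4 := by
    rw [show (16 : ℝ) = 4 ^ 2 by norm_num, ← pow_mul, ← pow_mul, ← pow_add, ← pow_add, ← pow_succ]
    congr 1
    ring
  have hprod : ∏ b ∈ B, ∏ y ∈ Y, (b - y) ^ 2 =
      (∏ b ∈ B, (b - y)) ^ 2 * ∏ b ∈ B, ∏ y ∈ Y.erase y, (b - y) ^ 2 := by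
    rw [← Finset.prod_pow, ← Finset.prod_mul_distrib]
    apply Finset.prod_congr rfl
    intro b _
    rw [Finset.mul_prod_erase Y (fun y => (b - y) ^ 2) hy]
  unfold AI wt
  rw [hcard, hpow, pow_succ, hprod, mul_neg_one]
  exact alg_nn hE hD (by positivity) (by positivity) hR rfl

theorem alg_ss {c w A16 A4 B4 F F0 T Pz Qz Rb Rc E D b p q : ℝ} (hE : Rb ≠ 0) (hD : D ≠ 0)
    (hA : A16 ≠ 0) (hA4 : A4 ≠ 0) (hB : B4 ≠ 0) (hc : c * c = 1) (hEE : E = Rb ^ 2)
    (hRc : Rc = c * Rb)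
    (hR : F = T - ((b - q) / 4 * (Qz / A16) * ((b - p) / 4) * (Pz / A4) * (Rb / B4)) * F0) :
    Rc * (c * (w * A16 * A4 * B4 * 16) * F / (E * D) -
      c * (w * A16 * A4 * B4 * 16) * T / (E * D)) =
    -((b - q) * Qz * ((b - p) * Pz) * (w * F0 / D)) := by
  rw [hR, hRc, hEE]
  field_simp
  linear_combination (-(16 * Rb * w * Qz * Pz * F0 * (b - q) * (b - p))) * hc

/-! ### the total mass and `nu` -/

theorem range_two_map (f : ℝ → ℝ) (hf : ∀ x, f (-x) = f x) (t : ℕ → ℝ) (n : ℕ) :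
    (Multiset.range (2 * n)).map (fun j => f (pr t j)) =
      (Multiset.range n).map (fun i => f (t i)) + (Multiset.range n).map (fun i => f (t i)) := by
  induction n with
  | zero => simp
  | succ n ih =>
    rw [show 2 * (n + 1) = 2 * n + 1 + 1 by ring, Multiset.range_succ, Multiset.range_succ,
      Multiset.range_succ, Multiset.map_cons, Multiset.map_cons, Multiset.map_cons, ih]
    have e1 : pr t (2 * n) = -t n := by
      unfold pr
      rw [if_pos (by omega), show 2 * n / 2 = n by omega]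
    have e2 : pr t (2 * n + 1) = t n := by
      unfold pr
      rw [if_neg (by omega), show (2 * n + 1) / 2 = n by omega]
    rw [e1, e2, hf, Multiset.cons_add, Multiset.add_cons]

theorem range_map_lf (f : ℝ → ℝ) (l : List ℝ) :
    (Multiset.range l.length).map (fun i => f (lf l i)) = ((l.map f : List ℝ) : Multiset ℝ) := by
  change (((List.range l.length).map fun i => f (lf l i) : List ℝ) : Multiset ℝ) = _
  congr 1
  apply List.ext_getElem
  · simp
  · intro i h1 h2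
    have h3 : i < l.length := by simpa using h1
    simp [lf, h3]

theorem ZW_eq (l : List ℝ) (v : ℝ) : 4 ^ (l.length ^ 2) * ZW l v =
    chiM (((l.map c2 : List ℝ) : Multiset ℝ) + ((l.map c2 : List ℝ) : Multiset ℝ) + {c2 v}) := by
  unfold ZW
  rw [Slit.Z_Chi, ← chiM_map_range, Multiset.range_succ, Multiset.map_cons]
  have e1 : Slit.xx (ap1 (2 * l.length) (pr (lf l)) v) (2 * l.length) = c2 v := by
    unfold Slit.xx ap1 c2
    rw [if_neg (lt_irrefl _)]
  have e2 : (Multiset.range (2 * l.length)).map (Slit.xx (ap1 (2 * l.length) (pr (lf l)) v)) =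
      (Multiset.range (2 * l.length)).map (fun j => c2 (pr (lf l) j)) := by
    apply Multiset.map_congr rfl
    intro j hj
    unfold Slit.xx ap1 c2
    rw [if_pos (Multiset.mem_range.mp hj)]
  rw [e1, e2, range_two_map c2 c2_neg, range_map_lf, ← Multiset.singleton_add, add_comm]

theorem lB_c2 {B : Finset ℝ} (h : ∀ b ∈ B, b ∈ II) :
    (((lB B).map c2 : List ℝ) : Multiset ℝ) = B.val := by
  unfold lB
  rw [List.map_map]
  have : B.toList.map (c2 ∘ tt) = B.toList := by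
    conv_rhs => rw [← List.map_id B.toList]
    apply List.map_congr_left
    intro b hb
    exact c2_tt (h b (Finset.mem_toList.mp hb))
  rw [this, Finset.coe_toList]

theorem lY_c2 {B : Finset ℝ} (h : ∀ b ∈ B, b ∈ II) :
    (((lY B).map c2 : List ℝ) : Multiset ℝ) = (mir B).val := by
  unfold lY
  rw [List.map_map, mir_val, ← Finset.coe_toList B, Multiset.map_coe]
  congr 1
  apply List.map_congr_left
  intro b hb
  exact c2_tt (neg_mem_II (h b (Finset.mem_toList.mp hb)))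

theorem sg_vals (n : ℕ) : LCB.sg (2 * n) = 1 ∧ LCB.sg (2 * n + 1) = (-1) ^ n := by
  have hsq : ((-1 : ℝ) ^ n) * (-1) ^ n = 1 := by rw [← mul_pow]; simp
  induction n with
  | zero =>
    constructor
    · unfold LCB.sg; simp
    · rw [sg_odd]; unfold LCB.sg; simp
  | succ n ih =>
    have hsq' : ((-1 : ℝ) ^ n) * (-1) ^ n = 1 := by rw [← mul_pow]; simp
    have h1 : LCB.sg (2 * (n + 1)) = (-1) ^ n * LCB.sg (2 * n + 1) := by
      unfold LCB.sg
      rw [show 2 * (n + 1) = 2 * n + 1 + 1 by ring, prod_range_succ (n := 2 * n + 1),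
        prod_range_succ (n := 2 * n + 1)]
      rw [show (2 * n + 1) / 2 + (2 * n + 1) % 2 = n + 1 by omega,
        show (-1 : ℝ) ^ (2 * n + 1) = -1 by rw [pow_succ, pow_mul]; norm_num, pow_succ]
      ring
    have h2 : LCB.sg (2 * (n + 1)) = 1 := by rw [h1, (ih hsq').2, hsq']
    exact ⟨h2, by rw [sg_odd, h2, mul_one]⟩

theorem nu_mir' (B : Finset ℝ) (v : ℝ) : nu (mir B) (-v) = (-1) ^ B.card * nu B v := by
  rw [nu_mir, (sg_vals B.card).2]

/-- the total mass in terms of `nu` -/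
theorem TW_nu (F : Facts) {B Y : Finset ℝ} (h : TI B Y) {l₁ : List ℝ}
    (hl : ((l₁.map c2 : List ℝ) : Multiset ℝ) = B.val) (v' a' : ℝ) :
    (-1) ^ Y.card * 4 ^ ((B.card + Y.card) ^ 2 + B.card) * TW l₁ v' (lY Y) a' /
      (∏ b ∈ B, ∏ y ∈ Y, (b - y) ^ 2) =
    nu B (c2 v') * nu Y (-c2 a') * ∏ j ∈ B, (j - -c2 a') := by
  have hlen : l₁.length = B.card := by
    have := congrArg Multiset.card hl
    rw [Multiset.coe_card, List.length_map, Finset.card_val] at this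
    exact this
  have h1 := ZW_eq l₁ v'
  have h2 := ZW_eq (lY Y) a'
  rw [hl, hlen] at h1
  rw [lY_c2 h.II2, lY_length] at h2
  have h3 : chiM ((mir Y).val + (mir Y).val + {c2 a'}) = (-1) ^ Y.card * nu Y (-c2 a') := by
    rw [← nu_mir', neg_neg]
    rfl
  rw [h3] at h2
  have h1' : 4 ^ (B.card ^ 2) * ZW l₁ v' = nu B (c2 v') := h1
  have hP : (l₁.map fun t => ((c2 t + c2 a') / 4 *
      ((lY Y).map fun u => ((c2 t + c2 u) / 4) ^ 2).prod)).prod =
      (∏ b ∈ B, (b - -c2 a')) * (∏ b ∈ B, ∏ y ∈ Y, (b - y) ^ 2) /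
        (4 ^ B.card * 16 ^ (B.card * Y.card)) := by
    have e1 : (l₁.map fun t => ((c2 t + c2 a') / 4 *
        ((lY Y).map fun u => ((c2 t + c2 u) / 4) ^ 2).prod)).prod =
        ∏ b ∈ B, ((b + c2 a') / 4 * ∏ y ∈ Y, ((b - y) / 4) ^ 2) := by
      have e2 : (l₁.map fun t => ((c2 t + c2 a') / 4 *
          ((lY Y).map fun u => ((c2 t + c2 u) / 4) ^ 2).prod)) =
          (l₁.map c2).map (fun b => (b + c2 a') / 4 * ∏ y ∈ Y, ((b - y) / 4) ^ 2) := by
        rw [List.map_map]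
        apply List.map_congr_left
        intro t _
        simp only [Function.comp]
        rw [prod_lY Y (fun z => ((c2 t + z) / 4) ^ 2) h.II2]
        congr 1
      rw [e2, ← Multiset.prod_coe, ← Multiset.map_coe, hl]
      rfl
    rw [e1, Finset.prod_mul_distrib, prod_div_four, mul_div_mul_comm]
    congr 1
    · congr 1
      apply Finset.prod_congr rfl
      intro b _
      ring
    · rw [pow_mul', ← Finset.prod_const, ← Finset.prod_div_distrib]
      apply Finset.prod_congr rfl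
      intro b _
      rw [prod_div_pow]
  rw [TW_eq F.T, hP]
  have hD := prod_sub_ne h
  have hpow : (4 : ℝ) ^ ((B.card + Y.card) ^ 2 + B.card) =
      4 ^ (B.card ^ 2) * 4 ^ (Y.card ^ 2) * (4 ^ B.card * 16 ^ (B.card * Y.card)) := by
    rw [show (16 : ℝ) = 4 ^ 2 by norm_num, ← pow_mul, ← pow_add, ← pow_add, ← pow_add]
    congr 1
    ring
  have hc : ((-1 : ℝ) ^ Y.card) * (-1) ^ Y.card = 1 := by rw [← mul_pow]; simp
  rw [hpow, ← h1']
  have h2' : nu Y (-c2 a') = (-1) ^ Y.card * (4 ^ (Y.card ^ 2) * ZW (lY Y) a') := by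
    rw [h2, ← mul_assoc, hc, one_mul]
  rw [h2']
  field_simp

theorem lB_mir (Y : Finset ℝ) : (lB (mir Y)).Perm (lY Y) := by
  have h1 : ((mir Y).toList).Perm (Y.toList.map (fun x => -x)) := by
    rw [← Multiset.coe_eq_coe, Finset.coe_toList, mir_val, ← Multiset.map_coe, Finset.coe_toList]
  have h2 := h1.map tt
  rw [List.map_map] at h2
  exact h2

theorem lY_mir (B : Finset ℝ) : (lY (mir B)).Perm (lB B) := by
  have h1 : ((mir B).toList).Perm (B.toList.map (fun x => -x)) := by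
    rw [← Multiset.coe_eq_coe, Finset.coe_toList, mir_val, ← Multiset.map_coe, Finset.coe_toList]
  have h2 := h1.map (fun y => tt (-y))
  rw [List.map_map] at h2
  have e : ((fun y => tt (-y)) ∘ fun x => -x) = tt := by
    funext x
    simp
  rw [e] at h2
  exact h2

theorem prod_mir (B : Finset ℝ) (f : ℝ → ℝ) : ∏ b ∈ mir B, f b = ∏ b ∈ B, f (-b) := by
  unfold mir
  rw [Finset.prod_map]
  rfl

theorem mir_mir (B : Finset ℝ) : mir (mir B) = B := by
  ext x
  unfold mir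
  simp

theorem mem_mir {B : Finset ℝ} {x : ℝ} : x ∈ mir B ↔ -x ∈ B := by
  unfold mir
  simp only [Finset.mem_map, Equiv.coe_toEmbedding, Equiv.neg_apply]
  constructor
  · rintro ⟨a, ha, rfl⟩
    rwa [neg_neg]
  · intro h
    exact ⟨-x, h, neg_neg x⟩

/-- (S) for the first type -/
theorem ss_I (F : Facts) {B Y : Finset ℝ} (h : TI B Y) {b : ℝ} (hb : b ∈ B) {p q : ℝ}
    (hP : Par b p q) :
    (∏ y ∈ Y, (y - b)) * (AI B p Y p - nu B p * nu Y p * ∏ j ∈ B, (j - p)) =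
      -(wt b q (B.erase b) * (∏ j ∈ B, (j - p)) *
        ((-1) ^ (B.erase b).card * AI (mir Y) (-p) (mir (B.erase b)) (-b))) := by
  have hbII := h.II1 b hb
  obtain ⟨x, hx, hxb, hxp, hxq⟩ := angle_choice hbII hP.symm
  have hb1 := (h.1 b hb).1
  have hpII := hP.mem_II
  have hcard : B.card = (B.erase b).card + 1 := (Finset.card_erase_add_one hb).symm
  set l₁ := lB (B.erase b) with hl₁
  set l₂ := lY Y with hl₂
  have hS1 : ∀ t ∈ l₁, Sm t := lB_Sm fun z hz => ((h.e1 b).1 z hz).1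
  have hS2 : ∀ t ∈ l₂, Sm t := lY_Sm fun z hz => (h.2 z hz).2
  have hS := S_list F.S1 F.D F.PR F.PC l₁ l₂ x hS1 hS2
  have hx' : -x = tt b ∨ -x = -tt b := by
    rcases hx with rfl | rfl
    · exact Or.inr rfl
    · exact Or.inl (neg_neg _)
  have hFp : GW (lB B) (tt p) l₂ (tt (-p)) = GW (l₁ ++ [-x]) (-x + π / 3) l₂ (x + π / 6) := by
    rw [GW_choice1 F hb1 hx', GW_perm1 F.PC (lB_perm hb) (lB_Sm fun z hz => (h.1 z hz).1),
      GW_cos1 F.V _ _ (v := tt p) (v' := -x + π / 3) (by rw [c2_sub, hxq, c2_tt hpII.1])]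
    exact GW_cos2 F.A _ _ _ (by rw [c2_six, hxq, c2_tt (neg_mem_II hpII.1)])
  have hF0 : GW (lB (mir Y)) (tt (-p)) (lY (mir (B.erase b))) (tt (- -b)) =
      GW l₂ (x + π / 6) l₁ (-x) := by
    rw [← GW_perm1 F.PC (lB_mir Y).symm hS2, ← GW_perm2 F.PR (lY_mir (B.erase b)).symm hS1,
      GW_cos1 F.V _ _ (v := tt (-p)) (v' := x + π / 6)
        (by rw [c2_six, hxq, c2_tt (neg_mem_II hpII.1)])]
    exact GW_cos2 F.A _ _ _ (by rw [neg_neg, c2_tt hbII, c2_neg, hxb])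
  have hP1 : (l₁.map fun t => ((c2 t - cp x) / 4) ^ 2).prod =
      (∏ z ∈ B.erase b, (z - q) ^ 2) / 16 ^ (B.erase b).card := by
    rw [hl₁, prod_lB (B.erase b) (fun z => ((z - cp x) / 4) ^ 2) (h.e1 b).II1, hxp, prod_div_pow]
  have hP2 : (l₁.map fun t => (c2 t - cm x) / 4).prod =
      (∏ z ∈ B.erase b, (z - p)) / 4 ^ (B.erase b).card := by
    rw [hl₁, prod_lB (B.erase b) (fun z => (z - cm x) / 4) (h.e1 b).II1, hxq, prod_div_four]
  have hP3 : (l₂.map fun u => (c2 x + c2 u) / 4).prod =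
      (∏ y ∈ Y, (b - y)) / 4 ^ Y.card := by
    rw [hl₂, prod_lY Y (fun z => (c2 x + z) / 4) h.II2, hxb, prod_div_four]
    congr 1
  have hmul : ((((l₁ ++ [-x]).map c2 : List ℝ)) : Multiset ℝ) = B.val := by
    rw [List.map_append, ← Multiset.coe_add, hl₁, lB_c2 (h.e1 b).II1]
    have e : (((List.map c2 [-x] : List ℝ)) : Multiset ℝ) = {b} := by
      rw [List.map_cons, List.map_nil, c2_neg, hxb]
      rfl
    rw [e, Finset.erase_val, add_comm, Multiset.singleton_add]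
    exact Multiset.cons_erase hb
  have hTW := TW_nu F h hmul (-x + π / 3) (x + π / 6)
  rw [c2_sub, c2_six, neg_neg, hxq] at hTW
  rw [← hFp, ← hF0, hP1, hP2, hP3, hxp, hxq, hxb] at hS
  have hD := prod_sub_ne (h.e1 b)
  have hRb : ∏ y ∈ Y, (b - y) ≠ 0 := by
    rw [Finset.prod_ne_zero_iff]
    intro y hy
    have h1 := h.2 y hy
    linarith
  have hRc : ∏ y ∈ Y, (y - b) = (-1) ^ Y.card * ∏ y ∈ Y, (b - y) := by
    rw [← Finset.prod_const, ← Finset.prod_mul_distrib]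
    apply Finset.prod_congr rfl
    intro y _
    ring
  have hpow : (4 : ℝ) ^ (((B.erase b).card + 1 + Y.card) ^ 2 + ((B.erase b).card + 1)) =
      4 ^ ((Y.card + (B.erase b).card) ^ 2 + Y.card) * 16 ^ (B.erase b).card *
        4 ^ (B.erase b).card * 4 ^ Y.card * 16 := by
    rw [show (16 : ℝ) = 4 ^ 2 by norm_num, ← pow_mul, ← pow_add, ← pow_add, ← pow_add, ← pow_add]
    congr 1
    ring
  have hprod : ∏ b ∈ B, ∏ y ∈ Y, (b - y) ^ 2 =
      (∏ y ∈ Y, (b - y)) ^ 2 * ∏ b ∈ B.erase b, ∏ y ∈ Y, (b - y) ^ 2 := by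
    rw [← Finset.mul_prod_erase B (fun b => ∏ y ∈ Y, (b - y) ^ 2) hb, Finset.prod_pow]
  have hprod2 : ∏ c ∈ mir Y, ∏ y ∈ mir (B.erase b), (c - y) ^ 2 =
      ∏ b ∈ B.erase b, ∏ y ∈ Y, (b - y) ^ 2 := by
    rw [prod_mir, Finset.prod_comm, prod_mir]
    apply Finset.prod_congr rfl
    intro j _
    apply Finset.prod_congr rfl
    intro y _
    ring
  rw [← hTW]
  have hj : ∏ j ∈ B, (j - p) = (b - p) * ∏ j ∈ B.erase b, (j - p) :=
    (Finset.mul_prod_erase B (fun j => j - p) hb).symm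
  unfold AI wt
  rw [mir_card, mir_card, hprod2, hprod, hcard, hpow, hj]
  have hc : ((-1 : ℝ) ^ Y.card) * (-1) ^ Y.card = 1 := by rw [← mul_pow]; simp
  have hc' : ((-1 : ℝ) ^ (B.erase b).card) * (-1) ^ (B.erase b).card = 1 := by
    rw [← mul_pow]; simp
  rw [alg_ss hRb hD (by positivity) (by positivity) (by positivity) hc rfl hRc hS]
  congr 2
  have : ∀ w f : ℝ, (-1 : ℝ) ^ (B.erase b).card * ((-1) ^ (B.erase b).card * w * f /
      ∏ b ∈ B.erase b, ∏ y ∈ Y, (b - y) ^ 2) = w * f / ∏ b ∈ B.erase b, ∏ y ∈ Y, (b - y) ^ 2 := by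
    intro w f
    rw [← mul_div_assoc, ← mul_assoc, ← mul_assoc, hc', one_mul]
  rw [this]

end LDW
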