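import Pool.Agent.Helper34.LC.WrapC

/-!
L-SHAPED CORRIDOR, item D6 (wrapper), part D: uniqueness applied to the amplitude.
-/

set_option autoImplicit false

namespace LDW
open IP Finset Real LD LCA LCB Polynomial

/-! ### no columns -/

/-- states where the site 0 is isolated -/
def I0 : Set St := {σ | ∀ j, σ 0 j → j = 0}

theorem gl_zero_I0 (σ τ : St) : gl 0 σ τ ∈ I0 := by
  rintro j (⟨_, h, _⟩ | ⟨h, _, _⟩)
  · omega
  · omega

theorem J_zero_I0 (v w : M) : J 0 v w ∈ Sup I0 := by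
  induction v using M_ind with
  | h0 => rw [map_zero, LinearMap.zero_apply]; exact Submodule.zero_mem _
  | ha v v' h h' => rw [map_add, LinearMap.add_apply]; exact Submodule.add_mem _ h h'
  | hs σ x =>
    induction w using M_ind with
    | h0 => rw [map_zero]; exact Submodule.zero_mem _
    | ha v v' h h' => rw [map_add]; exact Submodule.add_mem _ h h'
    | hs τ y =>
      rw [J_single_single]
      exact Finsupp.single_mem_supported ℝ _ (gl_zero_I0 σ τ)

theorem del2_I0 {σ : St} (h : σ ∈ I0) : del 2 σ ∈ I0 := by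
  intro j hj
  have h1 : σ (skip 1 0) (skip 1 j) := hj
  have h2 := h (skip 1 j) h1
  unfold skip at h2
  split_ifs at h2
  omega

theorem rows_zero_I0 (b β : ℕ → ℝ) (k : ℕ) {v : M} (hv : v ∈ Sup I0) : rows 0 b β k v ∈ Sup I0 := by
  induction k with
  | zero => exact hv
  | succ k ih =>
    show De 2 (rows 0 b β k v) ∈ Sup I0
    exact lmap_Sup (fun σ h => del2_I0 h) ih

theorem cr_I0 {v : M} (hv : v ∈ Sup I0) : cr v = 0 := by
  classical
  rw [← Finsupp.sum_single v]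
  unfold Finsupp.sum
  rw [map_sum]
  apply Finset.sum_eq_zero
  intro σ hσ
  have h1 : σ ∈ I0 := (Finsupp.mem_supported ℝ v).1 hv (Finset.mem_coe.2 hσ)
  unfold cr
  rw [Finsupp.lsum_single, if_neg (fun h => absurd (h1 1 h) one_ne_zero)]
  rfl

theorem FF_zero (k : ℕ) (b β : ℕ → ℝ) : FF 0 k b β = 0 := by
  unfold FF Lv LD.Rc
  exact cr_I0 (rows_zero_I0 _ _ _ (J_zero_I0 _ _))

theorem GW_nil (v : ℝ) (l₂ : List ℝ) (a : ℝ) : GW [] v l₂ a = 0 := FF_zero _ _ _

theorem AI_empty (v : ℝ) (Y : Finset ℝ) (a : ℝ) : AI ∅ v Y a = 0 := by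
  unfold AI
  have : lB ∅ = [] := by simp [lB]
  rw [this, GW_nil]
  simp

/-! ### polynomials -/

theorem polyV_I (F : Facts) (B Y : Finset ℝ) (a : ℝ) :
    ∃ P : ℝ[X], P.natDegree ≤ B.card ∧ ∀ v ∈ II, AI B v Y a = P.eval v := by
  obtain ⟨P, hP, hP'⟩ := F.V (lB B).length (lY Y).length (pr (lf (lB B)))
    (ap1 (2 * (lY Y).length) (pr (lf (lY Y))) (tt (-a)))
  rw [lB_length] at hP
  refine ⟨C ((-1) ^ Y.card * 4 ^ ((B.card + Y.card) ^ 2 + B.card) /
    ∏ b ∈ B, ∏ y ∈ Y, (b - y) ^ 2) * P, (natDegree_C_mul_le _ _).trans hP, fun v hv => ?_⟩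
  have h1 : GW (lB B) (tt v) (lY Y) (tt (-a)) = P.eval v := by
    have h2 := hP' (tt v)
    have h3 : 2 * Real.cos (2 * tt v) = v := c2_tt hv
    rw [h3] at h2
    exact h2
  unfold AI
  rw [h1, eval_mul, eval_C]
  ring

theorem polyA_I (F : Facts) (B Y : Finset ℝ) (v : ℝ) :
    ∃ P : ℝ[X], P.natDegree ≤ B.card + Y.card ∧ ∀ a ∈ II, AI B v Y a = P.eval a := by
  obtain ⟨P, hP, hP'⟩ := F.A (lB B).length (lY Y).length (lf (lB B)) (tt v) (pr (lf (lY Y)))
  rw [lB_length, lY_length] at hP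
  refine ⟨C ((-1) ^ Y.card * 4 ^ ((B.card + Y.card) ^ 2 + B.card) /
    ∏ b ∈ B, ∏ y ∈ Y, (b - y) ^ 2) * P, (natDegree_C_mul_le _ _).trans hP, fun a ha => ?_⟩
  have h1 : GW (lB B) (tt v) (lY Y) (tt (-a)) = P.eval a := by
    have h2 := hP' (tt (-a))
    have h3 : 2 * Real.cos (2 * tt (-a)) = -a := c2_tt (neg_mem_II ha)
    rw [h3, neg_neg] at h2
    exact h2
  unfold AI
  rw [h1, eval_mul, eval_C]
  ring

/-! ### both types -/

open Classical in
/-- the numerator of the crossing probability, for both types -/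
noncomputable def AT (B : Finset ℝ) (v : ℝ) (Y : Finset ℝ) (a : ℝ) : ℝ :=
  if ∀ b ∈ B, 0 < b then AI B v Y a else (-1) ^ Y.card * AI (mir B) (-v) (mir Y) (-a)

theorem AT_I {B : Finset ℝ} (h : ∀ b ∈ B, 0 < b) (v : ℝ) (Y : Finset ℝ) (a : ℝ) :
    AT B v Y a = AI B v Y a := by
  unfold AT
  rw [if_pos h]

theorem AT_II {B : Finset ℝ} (h : ∀ b ∈ B, b < 0) (v : ℝ) (Y : Finset ℝ) (a : ℝ) :
    AT B v Y a = (-1) ^ Y.card * AI (mir B) (-v) (mir Y) (-a) := by
  rcases B.eq_empty_or_nonempty with rfl | ⟨b, hb⟩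
  · rw [AT_I (by simp), AI_empty]
    have : mir ∅ = ∅ := rfl
    rw [this, AI_empty, mul_zero]
  · unfold AT
    rw [if_neg]
    intro h'
    have h1 := h b hb
    have h2 := h' b hb
    linarith

theorem TI_of_Near {ε : ℝ} (hε : ε ≤ 0.1) {B Y : Finset ℝ} (h : Near ε B Y) : TI B Y :=
  ⟨fun b hb => ⟨by linarith [(h.1 b hb).1], (h.1 b hb).2⟩,
    fun y hy => ⟨(h.2 y hy).1, by linarith [(h.2 y hy).2]⟩⟩

theorem TI_mir {B Y : Finset ℝ} (h : TI Y B) : TI (mir B) (mir Y) := by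
  refine ⟨fun b hb => ?_, fun y hy => ?_⟩
  · have := h.2 (-b) (mem_mir.mp hb)
    exact ⟨by linarith [this.2], by linarith [this.1]⟩
  · have := h.1 (-y) (mem_mir.mp hy)
    exact ⟨by linarith [this.2], by linarith [this.1]⟩

theorem wt_mir (b q : ℝ) (S : Finset ℝ) : wt (-b) (-q) (mir S) = -wt b q S := by
  unfold wt
  rw [prod_mir]
  have : ∏ z ∈ S, (-z - -q) ^ 2 = ∏ z ∈ S, (z - q) ^ 2 := by
    apply Finset.prod_congr rfl
    intro z _
    ring
  rw [this]
  ring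

theorem prod_mir_sub (S : Finset ℝ) (q : ℝ) :
    ∏ z ∈ mir S, (z - -q) = (-1) ^ S.card * ∏ z ∈ S, (z - q) := by
  rw [prod_mir, ← Finset.prod_const, ← Finset.prod_mul_distrib]
  apply Finset.prod_congr rfl
  intro z _
  ring

theorem prod_mir_sub_sq (S : Finset ℝ) (q : ℝ) :
    ∏ z ∈ mir S, (z - -q) ^ 2 = ∏ z ∈ S, (z - q) ^ 2 := by
  rw [prod_mir]
  apply Finset.prod_congr rfl
  intro z _
  ring

theorem Par.neg {b p q : ℝ} (h : Par b p q) : Par (-b) (-p) (-q) :=
  ⟨by linarith [h.1], by linarith [h.2]⟩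

theorem sgn_sq (n : ℕ) : ((-1 : ℝ) ^ n) * (-1) ^ n = 1 := by rw [← mul_pow]; simp

theorem alg_mir {c d e P1 P2 A A2 nB nY w : ℝ} (hc : c * c = 1) (he : e * e = 1) (hde : d = -e)
    (h1 : c * P1 * (A - d * nB * (c * nY) * (d * P2)) = -(-w * (d * P2) * (e * A2))) :
    P1 * (c * A - nB * nY * P2) = -(w * P2 * A2) := by
  rw [hde] at h1
  linear_combination h1 + P1 * nB * nY * P2 * (e * e) * hc + P1 * nB * nY * P2 * he -
    w * P2 * A2 * he

/-- the four facts -/
theorem AT_ampOn (F : Facts) {n : ℕ} {ε : ℝ} (hε : ε ≤ 0.1) : AmpOn (NearD n ε) AT := by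
  refine ⟨?_, ?_, ?_, ?_, ?_, ?_⟩
  · intro Y _ v _ a _
    rw [AT_I (by simp), AI_empty]
  · rintro B Y ⟨_, h | h⟩ a _
    · obtain ⟨P, hP, hP'⟩ := polyV_I F B Y a
      exact ⟨P, hP, fun v hv => by
        rw [AT_I (fun b hb => by linarith [((TI_of_Near hε h).1 b hb).1])]; exact hP' v hv⟩
    · obtain ⟨P, hP, hP'⟩ := polyV_I F (mir B) (mir Y) (-a)
      refine ⟨C ((-1) ^ Y.card) * P.comp (-X), ?_, fun v hv => ?_⟩
      · refine (natDegree_C_mul_le _ _).trans (natDegree_comp_le.trans ?_)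
        rw [natDegree_neg, natDegree_X, mul_one, ← mir_card]
        exact hP
      · rw [AT_II (fun b hb => by linarith [((TI_of_Near hε h).2 b hb).2]), hP' (-v) (neg_mem_II hv),
          eval_mul, eval_C, eval_comp, eval_neg, eval_X]
  · rintro B Y ⟨_, h | h⟩ v _
    · obtain ⟨P, hP, hP'⟩ := polyA_I F B Y v
      exact ⟨P, hP, fun a ha => by
        rw [AT_I (fun b hb => by linarith [((TI_of_Near hε h).1 b hb).1])]; exact hP' a ha⟩
    · obtain ⟨P, hP, hP'⟩ := polyA_I F (mir B) (mir Y) (-v)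
      refine ⟨C ((-1) ^ Y.card) * P.comp (-X), ?_, fun a ha => ?_⟩
      · refine (natDegree_C_mul_le _ _).trans (natDegree_comp_le.trans ?_)
        rw [natDegree_neg, natDegree_X, mul_one, ← mir_card B, ← mir_card Y]
        exact hP
      · rw [AT_II (fun b hb => by linarith [((TI_of_Near hε h).2 b hb).2]), hP' (-a) (neg_mem_II ha),
          eval_mul, eval_C, eval_comp, eval_neg, eval_X]
  · rintro B Y ⟨_, h | h⟩ b hb p q hP a ha
    · have hT := TI_of_Near hε h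
      have hp : ∀ x ∈ B, 0 < x := fun x hx => by linarith [(hT.1 x hx).1]
      have hp' : ∀ x ∈ B.erase b, 0 < x := fun x hx => hp x (Finset.mem_of_mem_erase hx)
      rw [AT_I hp, AT_I hp, AT_I hp']
      exact r1_I F hT hb hP ha
    · have hT' := TI_of_Near hε h
      have hT := TI_mir hT'
      have hp : ∀ x ∈ B, x < 0 := fun x hx => by linarith [(hT'.2 x hx).2]
      have hp' : ∀ x ∈ B.erase b, x < 0 := fun x hx => hp x (Finset.mem_of_mem_erase hx)
      rw [AT_II hp, AT_II hp, AT_II hp']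
      have hb' : -b ∈ mir B := by rw [mem_mir, neg_neg]; exact hb
      have h1 := r1_I F hT hb' (Par.neg hP) (neg_mem_II ha)
      rw [mir_erase, prod_mir_sub_sq, prod_mir_sub_sq, wt_mir, wt_mir] at h1
      linear_combination ((-1) ^ Y.card) * h1
  · rintro B Y ⟨_, h | h⟩ y hy p q hP v _
    · have hT := TI_of_Near hε h
      have hp : ∀ x ∈ B, 0 < x := fun x hx => by linarith [(hT.1 x hx).1]
      rw [AT_I hp, AT_I hp]
      exact nn_I F hT hy hP v
    · have hT' := TI_of_Near hε h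
      have hT := TI_mir hT'
      have hp : ∀ x ∈ B, x < 0 := fun x hx => by linarith [(hT'.2 x hx).2]
      rw [AT_II hp, AT_II hp]
      have hy' : -y ∈ mir Y := by rw [mem_mir, neg_neg]; exact hy
      have h1 := nn_I F hT hy' (Par.neg hP) (-v)
      rw [mir_erase, prod_mir_sub, prod_mir_sub, wt_mir] at h1
      have hs := sgn_sq B.card
      have hcard : Y.card = (Y.erase y).card + 1 := (Finset.card_erase_add_one hy).symm
      rw [hcard, pow_succ]
      linear_combination (-(-1) ^ (Y.erase y).card * (-1) ^ B.card) * h1 +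
        ((∏ j ∈ B, (j - y)) * (-1) ^ (Y.erase y).card * AI (mir B) (-v) (mir Y) (-p) +
          wt y q (Y.erase y) * (∏ j ∈ B, (j - p)) * (-1) ^ (Y.erase y).card *
            AI (mir B) (-v) (mir (Y.erase y)) (-y)) * hs
  · rintro B Y ⟨_, h | h⟩ b hb p q hP
    · have hT := TI_of_Near hε h
      have hp : ∀ x ∈ B, 0 < x := fun x hx => by linarith [(hT.1 x hx).1]
      have hn : ∀ x ∈ Y, x < 0 := fun x hx => by linarith [(hT.2 x hx).2]
      rw [AT_I hp, AT_II hn]
      exact ss_I F hT hb hP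
    · have hT' := TI_of_Near hε h
      have hT := TI_mir hT'
      have hp : ∀ x ∈ B, x < 0 := fun x hx => by linarith [(hT'.2 x hx).2]
      have hn : ∀ x ∈ Y, 0 < x := fun x hx => by linarith [(hT'.1 x hx).1]
      rw [AT_II hp, AT_I hn]
      have hb' : -b ∈ mir B := by rw [mem_mir, neg_neg]; exact hb
      have h1 := ss_I F hT hb' (Par.neg hP)
      rw [mir_erase, wt_mir, mir_mir, mir_mir, neg_neg, neg_neg, mir_card, nu_mir', nu_mir',
        prod_mir_sub, prod_mir_sub] at h1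
      have hs := sgn_sq B.card
      have hs' := sgn_sq Y.card
      have hs'' := sgn_sq (B.erase b).card
      have hcard : (-1 : ℝ) ^ B.card = -(-1) ^ (B.erase b).card := by
        rw [← Finset.card_erase_add_one hb, pow_succ]; ring
      exact alg_mir hs' hs'' hcard h1

/-- **(D6)** the amplitude is given by the formula -/
theorem AI_eq_AF (F : Facts) (n : ℕ) : ∃ ε > 0, ε ≤ 0.1 ∧ ∀ B Y : Finset ℝ, B.card + Y.card ≤ n →
    Near ε B Y → ∀ v ∈ II, ∀ a ∈ II, AI B v Y a = AF B v Y a := by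
  obtain ⟨ε, hε, h⟩ := chi_near (2 * n)
  refine ⟨min ε 0.1, by positivity, min_le_right _ _, fun B Y hn hNear v hv a ha => ?_⟩
  have h' : ∀ s : Multiset ℝ, Multiset.card s ≤ 2 * n →
      ((∀ x ∈ s, |x - 2| < min ε 0.1) → chiM s ≠ 0) ∧
      ((∀ x ∈ s, |x + 2| < min ε 0.1) → chiM s ≠ 0) := by
    intro s hs
    exact ⟨fun hx => (h s hs).1 fun x hx' => (hx x hx').trans_le (min_le_left _ _),
      fun hx => (h s hs).2 fun x hx' => (hx x hx').trans_le (min_le_left _ _)⟩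
  have hG := nearD_good (min_le_right ε 0.1) h'
  have h1 := uniq_on hG (AT_ampOn F (min_le_right ε 0.1)) (AF_ampOn (min_le_right ε 0.1) h') _ B Y rfl
    ⟨hn, Or.inl hNear⟩ v hv a ha
  rw [AT_I (fun b hb => by linarith [((TI_of_Near (min_le_right ε 0.1) hNear).1 b hb).1])] at h1
  exact h1

/-- the crossing probability is given by the formula (any angles `v'`, `a'`) -/
theorem GW_eq (F : Facts) (n : ℕ) : ∃ ε > 0, ε ≤ 0.1 ∧ ∀ B Y : Finset ℝ, B.card + Y.card ≤ n →
    Near ε B Y → ∀ v' a' : ℝ, TW (lB B) v' (lY Y) a' ≠ 0 →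
      GW (lB B) v' (lY Y) a' / TW (lB B) v' (lY Y) a' = fform B (c2 v') Y (-c2 a') := by
  obtain ⟨ε, hε, hε1, h⟩ := AI_eq_AF F n
  refine ⟨ε, hε, hε1, fun B Y hn hNear v' a' hT => ?_⟩
  have hTI := TI_of_Near hε1 hNear
  have hII : ∀ x : ℝ, c2 x ∈ II := fun x => by
    have h1 := Real.neg_one_le_cos (2 * x)
    have h2 := Real.cos_le_one (2 * x)
    exact ⟨by unfold c2; linarith, by unfold c2; linarith⟩
  have h1 := h B Y hn hNear (c2 v') (hII v') (-c2 a') (neg_mem_II (hII a'))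
  have h2 := TW_nu F hTI (lB_c2 hTI.II1) v' a'
  have h3 : GW (lB B) (tt (c2 v')) (lY Y) (tt (- -c2 a')) = GW (lB B) v' (lY Y) a' := by
    rw [GW_cos1 F.V _ _ (v := tt (c2 v')) (v' := v') (c2_tt (hII v'))]
    exact GW_cos2 F.A _ _ _ (by rw [neg_neg, c2_tt (hII a')])
  unfold AI at h1
  rw [h3] at h1
  unfold fform
  rw [← h1, ← h2]
  have hD := prod_sub_ne hTI
  have hs : (-1 : ℝ) ^ Y.card ≠ 0 := by positivity
  field_simp

end LDW
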