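import Pool.Agent.Helper34.LC.WrapD
import Pool.Agent.Helper45.LD.Link

/-!
L-SHAPED CORRIDOR, item D6 (wrapper), part E: the formula for generic small parameters in the form used by the
homogeneous limit.
-/

set_option autoImplicit false

namespace LDW
open IP Finset Real LD LCA LCB

/-- the list of the first `m` parameters -/
def ls (t : ℕ → ℝ) (m : ℕ) : List ℝ := (List.range m).map t

theorem ls_length (t : ℕ → ℝ) (m : ℕ) : (ls t m).length = m := by simp [ls]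

theorem lf_ls (t : ℕ → ℝ) (m : ℕ) {i : ℕ} (hi : i < m) : lf (ls t m) i = t i := by
  unfold lf ls
  rw [List.getD_eq_getElem _ _ (by simpa using hi)]
  simp

theorem ap1_ls (t : ℕ → ℝ) (m : ℕ) (v : ℝ) :
    ap1 (2 * m) (pr (lf (ls t m))) v = ap1 (2 * m) (pr t) v :=
  ap1_congr _ _ fun _ hj => pr_congr (fun _ hi => lf_ls t m hi) hj

theorem GW_ls (t u : ℕ → ℝ) (m k : ℕ) (v a : ℝ) :
    GW (ls t m) v (ls u k) a = FF m k (ap1 (2 * m) (pr t) v) (ap1 (2 * k) (pr u) a) := by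
  unfold GW LD.GG
  rw [ls_length, ls_length, ap1_ls, ap1_ls]

theorem TW_ls (t u : ℕ → ℝ) (m k : ℕ) (v a : ℝ) :
    TW (ls t m) v (ls u k) a = tot (Lv m k (ap1 (2 * m) (pr t) v) (ap1 (2 * k) (pr u) a)) := by
  unfold TW
  rw [ls_length, ls_length, ap1_ls, ap1_ls]

theorem TW_perm1 (hC : StPairC) {l₁ l₁' : List ℝ} (h : l₁.Perm l₁') (hS : ∀ x ∈ l₁, Sm x)
    (v : ℝ) (l₂ : List ℝ) (a : ℝ) : TW l₁ v l₂ a = TW l₁' v l₂ a := by
  refine perm_ind (fun l => TW l v l₂ a) Sm (fun p x y q hp => ?_) h hS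
  show TW _ _ _ _ = TW _ _ _ _
  unfold TW
  have hlen : (p ++ y :: x :: q).length = (p ++ x :: y :: q).length := by simp
  rw [hlen, lf_append_swap p x y q]
  have hi : p.length + 1 < (p ++ x :: y :: q).length := by simp
  have h1 := hp _ (lf_mem (l := p ++ x :: y :: q) (i := p.length) (by omega))
  have h2 := hp _ (lf_mem (l := p ++ x :: y :: q) (i := p.length + 1) hi)
  obtain ⟨e1, e2, e3, e4⟩ := s_ne_of_Sm h1 h2
  rw [hC _ _ p.length _ _ _ hi e1 e2 e3 e4]

theorem TW_perm2 (hR : StPairR) {l₂ l₂' : List ℝ} (h : l₂.Perm l₂') (hS : ∀ x ∈ l₂, Sm x)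
    (l₁ : List ℝ) (v : ℝ) (a : ℝ) : TW l₁ v l₂ a = TW l₁ v l₂' a := by
  refine perm_ind (fun l => TW l₁ v l a) Sm (fun p x y q hp => ?_) h hS
  show TW _ _ _ _ = TW _ _ _ _
  unfold TW
  have hlen : (p ++ y :: x :: q).length = (p ++ x :: y :: q).length := by simp
  rw [hlen, lf_append_swap p x y q]
  have hi : p.length + 1 < (p ++ x :: y :: q).length := by simp
  have h1 := hp _ (lf_mem (l := p ++ x :: y :: q) (i := p.length) (by omega))
  have h2 := hp _ (lf_mem (l := p ++ x :: y :: q) (i := p.length + 1) hi)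
  obtain ⟨e1, e2, e3, e4⟩ := s_ne_of_Sm h1 h2
  rw [hR _ _ p.length _ _ _ hi e1 e2 e3 e4]

theorem tt_c2 {x : ℝ} (h0 : 0 < x) (h1 : x < 1) : tt (c2 x) = x := by
  unfold tt c2
  rw [show 2 * Real.cos (2 * x) / 2 = Real.cos (2 * x) by ring,
    Real.arccos_cos (by linarith) (by linarith [Real.pi_gt_three])]
  ring

theorem perm_image {m : ℕ} {f g : ℕ → ℝ} (h : Set.InjOn f (range m : Finset ℕ)) {r : ℝ → ℝ}
    (hr : ∀ i, r (f i) = g i) :
    (((range m).image f).toList.map r).Perm (ls g m) := by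
  have h1 : (((range m).image f).toList : Multiset ℝ) = ((List.range m).map f : List ℝ) := by
    rw [Finset.coe_toList, Finset.image_val_of_injOn h]
    rfl
  have h2 := (Multiset.coe_eq_coe.mp h1).map r
  refine h2.trans (List.Perm.of_eq ?_)
  rw [List.map_map]
  unfold ls
  apply List.map_congr_left
  intro i _
  exact hr i

theorem xc_inj {m : ℕ} {t : ℕ → ℝ} (h : ∀ i, 0 < t i ∧ t i < 1) (hi : Function.Injective t) :
    Set.InjOn (fun i => 2 * Real.cos (2 * t i)) (range m : Finset ℕ) := by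
  intro i _ j _ hij
  simp only at hij
  exact hi (H45LD.cos_inj (h i).1 (h i).2 (h j).1 (h j).2 (by linarith))

theorem lB_xc {m : ℕ} {t : ℕ → ℝ} (h : ∀ i, 0 < t i ∧ t i < 1) (hi : Function.Injective t) :
    (lB (H45LD.xc m t)).Perm (ls t m) :=
  perm_image (xc_inj h hi) fun i => tt_c2 (h i).1 (h i).2

theorem lY_yc {k : ℕ} {u : ℕ → ℝ} (h : ∀ i, 0 < u i ∧ u i < 1) (hi : Function.Injective u) :
    (lY (H45LD.yc k u)).Perm (ls u k) := by
  refine perm_image ?_ fun i => ?_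
  · intro i hi' j hj' hij
    simp only at hij
    exact xc_inj h hi hi' hj' (by simpa using hij)
  · rw [neg_neg]
    exact tt_c2 (h i).1 (h i).2

theorem c2_pos {x : ℝ} (h0 : 0 ≤ x) (h1 : x < 1 / 2) : 0 < c2 x := by
  have h := Real.one_sub_sq_div_two_le_cos (x := 2 * x)
  unfold c2
  nlinarith

theorem cube_ap1 {m : ℕ} {t : ℕ → ℝ} (h : ∀ i, 0 < t i ∧ t i < 1 / 2) :
    ap1 (2 * m) (pr t) 0 ∈ Cube := by
  intro j
  have hpi := Real.pi_gt_three
  unfold ap1
  split_ifs with h1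
  · unfold pr
    have h2 := h (j / 2)
    split_ifs
    · rw [abs_neg, abs_of_pos h2.1]; linarith
    · rw [abs_of_pos h2.1]; linarith
  · rw [abs_zero]; linarith

theorem TW_ls_ne (hT : StTot) {t u : ℕ → ℝ} (m k : ℕ) (ht : ∀ i, 0 < t i ∧ t i < 1 / 2)
    (hu : ∀ i, 0 < u i ∧ u i < 1 / 2) : TW (ls t m) 0 (ls u k) 0 ≠ 0 := by
  rw [TW_eq hT]
  have hZ : ∀ (n : ℕ) (w : ℕ → ℝ), (∀ i, 0 < w i ∧ w i < 1 / 2) → ZW (ls w n) 0 ≠ 0 := by
    intro n w hw
    unfold ZW
    rw [ls_length, ap1_ls]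
    exact Z_ne n (cube_ap1 hw)
  refine mul_ne_zero (mul_ne_zero (hZ m t ht) (hZ k u hu)) ?_
  apply List.prod_ne_zero
  intro h0
  obtain ⟨x, hx, h1⟩ := List.mem_map.mp h0
  unfold ls at hx
  obtain ⟨i, _, rfl⟩ := List.mem_map.mp hx
  have c1 := c2_pos (ht i).1.le (ht i).2
  have c0 : 0 < c2 0 := c2_pos le_rfl (by norm_num)
  have hpos : 0 < (c2 (t i) + c2 0) / 4 *
      ((ls u k).map fun u => ((c2 (t i) + c2 u) / 4) ^ 2).prod := by
    apply mul_pos (by positivity)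
    apply List.prod_pos
    intro y hy
    obtain ⟨z, hz, rfl⟩ := List.mem_map.mp hy
    unfold ls at hz
    obtain ⟨j, _, rfl⟩ := List.mem_map.mp hz
    have c3 := c2_pos (hu j).1.le (hu j).2
    positivity
  exact hpos.ne' h1

/-- **the formula for generic small parameters** -/
theorem form_of (F : Facts) (m k : ℕ) : H45LD.Form m k := by
  obtain ⟨ε, hε, hε1, h⟩ := GW_eq F (m + k)
  refine ⟨min (ε / 4) (1 / 4), by positivity, fun t u ht hu hti hui => ?_⟩
  have ht' : ∀ i, 0 < t i ∧ t i < 1 / 4 := fun i => ⟨(ht i).1, (ht i).2.trans_le (min_le_right _ _)⟩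
  have hu' : ∀ i, 0 < u i ∧ u i < 1 / 4 := fun i => ⟨(hu i).1, (hu i).2.trans_le (min_le_right _ _)⟩
  have ht1 : ∀ i, 0 < t i ∧ t i < 1 := fun i => ⟨(ht i).1, (ht' i).2.trans (by norm_num)⟩
  have hu1 : ∀ i, 0 < u i ∧ u i < 1 := fun i => ⟨(hu i).1, (hu' i).2.trans (by norm_num)⟩
  have hcos : ∀ x : ℝ, 0 < x → x < min (ε / 4) (1 / 4) → 2 - ε < 2 * Real.cos (2 * x) ∧
      2 * Real.cos (2 * x) < 2 := by
    intro x h0 h1
    have h2 : x < ε / 4 := h1.trans_le (min_le_left _ _)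
    have h3 : x < 1 / 4 := h1.trans_le (min_le_right _ _)
    have h4 := H45LD.cos_near h0 le_rfl (by linarith : x ≤ 1)
    have h5 := abs_le.mp h4
    have h6 : Real.cos (2 * x) < 1 := by
      rw [← Real.cos_zero]
      exact Real.cos_lt_cos_of_nonneg_of_le_pi_div_two (le_refl _)
        (by linarith [Real.pi_gt_three]) (by linarith)
    constructor <;> linarith [h5.1]
  have hN : Near ε (H45LD.xc m t) (H45LD.yc k u) := by
    constructor
    · intro b hb
      unfold H45LD.xc at hb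
      obtain ⟨i, _, rfl⟩ := Finset.mem_image.mp hb
      exact hcos _ (ht i).1 (ht i).2
    · intro b hb
      unfold H45LD.yc at hb
      obtain ⟨i, _, rfl⟩ := Finset.mem_image.mp hb
      have := hcos _ (hu i).1 (hu i).2
      constructor <;> linarith [this.1, this.2]
  have hcard : (H45LD.xc m t).card + (H45LD.yc k u).card ≤ m + k := by
    rw [H45LD.card_xc ht1 hti, H45LD.card_yc hu1 hui]
  have hTI := TI_of_Near hε1 hN
  have hS1 : ∀ x ∈ lB (H45LD.xc m t), Sm x := lB_Sm fun b hb => (hTI.1 b hb).1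
  have hS2 : ∀ x ∈ lY (H45LD.yc k u), Sm x := lY_Sm fun b hb => (hTI.2 b hb).2
  have p1 := lB_xc (m := m) ht1 hti
  have p2 := lY_yc (k := k) hu1 hui
  have eG : GW (lB (H45LD.xc m t)) 0 (lY (H45LD.yc k u)) 0 =
      FF m k (ap1 (2 * m) (pr t) 0) (ap1 (2 * k) (pr u) 0) := by
    rw [GW_perm1 F.PC p1 hS1, GW_perm2 F.PR p2 hS2, GW_ls]
  have eT : TW (lB (H45LD.xc m t)) 0 (lY (H45LD.yc k u)) 0 =
      TW (ls t m) 0 (ls u k) 0 := by
    rw [TW_perm1 F.PC p1 hS1, TW_perm2 F.PR p2 hS2]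
  have hne := TW_ls_ne F.T m k (t := t) (u := u)
    (fun i => ⟨(ht i).1, (ht' i).2.trans (by norm_num)⟩)
    (fun i => ⟨(hu i).1, (hu' i).2.trans (by norm_num)⟩)
  have key := h _ _ hcard hN 0 0 (by rw [eT]; exact hne)
  rw [eG, eT] at key
  rw [TW_ls] at key hne
  have e2 : c2 0 = 2 := by unfold c2; simp
  rw [e2] at key
  rw [← key]
  field_simp

end LDW
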