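import Pool.Agent.Helper34.LC.WrapE
import Pool.Agent.Helper32.LD.Dual
import Pool.Agent.Helper45.LD.R1
import Pool.Agent.Helper72.LD.N
import Pool.Agent.Helper72.LD.S1
import Pool.Agent.Helper78.LD.Sym
import Pool.Agent.Helper78.LD.Sym2

/-!
L-SHAPED CORRIDOR: all the facts of part [D], and the value of the homogeneous corridor.
-/

set_option autoImplicit false

namespace LDW
open IP Finset Real LD Filter Topology

/-- the facts of part [D] -/
theorem facts : Facts where
  T := LD.stTot
  R1 := H45LD.r1
  N := LD.nn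
  S1 := LD.s1
  D := LD.dual
  PC := LD.stPairC
  PR := LD.stPairR
  SC := LD.stSgnC
  SR := LD.stSgnR
  V := LD.stPolyV
  A := LD.stPolyA

/-- the exact value of the homogeneous corridor -/
theorem hv (m k : ℕ) :
    Tendsto (fun M : ℕ => H47Perc.LN.pX m k M) atTop (𝓝 (H47Perc.LN.QL m k)) :=
  H45LD.HV_of (form_of facts) m k

end LDW
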